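import Pool.Agent.Lib.P4a177x.Defs
import Pool.Agent.Lib.P4a177o.InvDef

/-!
# The symbol part of `K_n` of the hypersurfaces `∏ (x_i - 1 / x_i) = u`: definitions
-/

set_option autoImplicit false

namespace P4a177z

open P4a177h P4a177t P4a177x Function MvPolynomial

noncomputable section

/-! ### The letters -/

variable {m : ℕ} {u : ℤ}

/-- The unit `γ_i = x_i - 1 / x_i`. -/
def gam (m : ℕ) {u : ℤ} (hu : u ≠ 0) (i : Fin (m + 1)) : (CoordRing m u)ˣ :=
  (isUnit_sq_sub_one hu (x m u) (x_on m u) i).unit / x m u i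

/-- The constant `4`, written additively. -/
def e4 (m : ℕ) (u : ℤ) : Additive (CoordRing m u)ˣ :=
  Additive.ofMul (P4a177w.cs (CoordRing m u) (Units.mk0 (4 : ℚ) (by norm_num)))

theorem gam_spec (hu : u ≠ 0) (i : Fin (m + 1)) :
    (gam m hu i : CoordRing m u) * x m u i = (x m u i : CoordRing m u) ^ 2 - 1 := by
  unfold gam
  rw [← Units.val_mul, div_mul_cancel, IsUnit.unit_spec]

/-- The letters `x_i`, `w_i = (x_i - 1) / (x_i + 1)`, `γ_i = x_i - 1 / x_i`. -/
def let3 (m : ℕ) {u : ℤ} (hu : u ≠ 0) (i : Fin (m + 1)) : Fin 3 → (CoordRing m u)ˣ :=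
  ![x m u i, w m hu i, gam m hu i]

/-- The additively written letters. -/
def lA (m : ℕ) {u : ℤ} (hu : u ≠ 0) (i : Fin (m + 1)) (t : Fin 3) : Additive (CoordRing m u)ˣ :=
  Additive.ofMul (let3 m hu i t)

/-- Units of a ring satisfy the equation iff the product of the `y_i - 1 / y_i` is `u`. -/
theorem on_iff {B : Type*} [CommRing B] (y : Fin (m + 1) → Bˣ) :
    (On u fun i => (y i : B)) ↔ ∏ i, ((y i : B) - ((y i)⁻¹ : Bˣ)) = (u : B) := by
  unfold On
  have h1 : ∀ i, (y i : B) ^ 2 - 1 = ((y i : B) - ((y i)⁻¹ : Bˣ)) * (y i : B) := by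
    intro i
    rw [sub_mul, Units.inv_mul, sq]
  simp only [h1]
  rw [Finset.prod_mul_distrib]
  have h2 : IsUnit (∏ i, (y i : B)) := by
    rw [← Units.coe_prod]
    exact Units.isUnit _
  exact h2.mul_left_inj

/-! ### The involutions `x_i ↦ - 1 / x_i` -/

/-- The coordinates of the image: `- 1 / x_i` for `i ∈ S` and `x_i` otherwise. -/
def flp (m : ℕ) (u : ℤ) (S : Finset (Fin (m + 1))) (i : Fin (m + 1)) : (CoordRing m u)ˣ :=
  if i ∈ S then -(x m u i)⁻¹ else x m u i

theorem flp_on (m : ℕ) (u : ℤ) (S : Finset (Fin (m + 1))) :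
    On u fun i => (flp m u S i : CoordRing m u) := by
  rw [on_iff, ← (on_iff (x m u)).1 (x_on m u)]
  refine Finset.prod_congr rfl fun i _ => ?_
  unfold flp
  split_ifs
  · rw [inv_neg, inv_inv, Units.val_neg, Units.val_neg]
    ring
  · rfl

/-- The endomorphism with `x_i ↦ - 1 / x_i` for `i ∈ S` and `x_i ↦ x_i` otherwise. -/
def tau (m : ℕ) (u : ℤ) (S : Finset (Fin (m + 1))) : CoordRing m u →+* CoordRing m u :=
  lift (flp m u S) (flp_on m u S)

theorem tau_x (S : Finset (Fin (m + 1))) (i : Fin (m + 1)) :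
    tau m u S (x m u i : CoordRing m u) = flp m u S i := lift_x _ _ _

/-! ### The sign changes -/

/-- The coordinates of the image: `- x_i` for two neighbours and `x_i` otherwise. -/
def sgc (m : ℕ) (u : ℤ) (a : Fin m) (i : Fin (m + 1)) : (CoordRing m u)ˣ :=
  if i = a.castSucc ∨ i = a.succ then -(x m u i) else x m u i

theorem sgc_on (m : ℕ) (u : ℤ) (a : Fin m) : On u fun i => (sgc m u a i : CoordRing m u) := by
  have h1 : ∀ i : Fin (m + 1), (sgc m u a i : CoordRing m u) =
      (if i = a.castSucc ∨ i = a.succ then -1 else 1) * (x m u i : CoordRing m u) := by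
    intro i
    unfold sgc
    split_ifs
    · rw [Units.val_neg, neg_one_mul]
    · rw [one_mul]
  have h2 := x_on m u
  unfold On at h2 ⊢
  have h3 : ∏ i : Fin (m + 1), (if i = a.castSucc ∨ i = a.succ then (-1 : CoordRing m u) else 1) =
      1 := by
    rw [Finset.prod_ite, Finset.prod_const_one, mul_one, Finset.prod_const]
    have h4 : (Finset.univ.filter fun i : Fin (m + 1) => i = a.castSucc ∨ i = a.succ) =
        {a.castSucc, a.succ} := by
      ext i
      simp
    rw [h4, Finset.card_pair (Fin.castSucc_lt_succ).ne]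
    norm_num
  have h5 : ∏ i, (sgc m u a i : CoordRing m u) = ∏ i, (x m u i : CoordRing m u) := by
    rw [Finset.prod_congr rfl fun i _ => h1 i, Finset.prod_mul_distrib, h3, one_mul]
  have h6 : ∀ i, (sgc m u a i : CoordRing m u) ^ 2 = (x m u i : CoordRing m u) ^ 2 := by
    intro i
    rw [h1, mul_pow]
    split_ifs <;> ring
  simp only [h6]
  rw [h5]
  exact h2

/-- The endomorphism with `x_i ↦ - x_i` for two neighbours `i` and `x_i ↦ x_i` otherwise. -/
def sig (m : ℕ) (u : ℤ) (a : Fin m) : CoordRing m u →+* CoordRing m u :=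
  lift (sgc m u a) (sgc_on m u a)

theorem sig_x (a : Fin m) (i : Fin (m + 1)) :
    sig m u a (x m u i : CoordRing m u) = sgc m u a i := lift_x _ _ _

/-! ### Multilinear algebra -/

section Algebra

variable {n : ℕ} {V G : Type*} [AddCommGroup V] [AddCommGroup G]
  (f : V [⋀^Fin n]→ₗ[ℤ] G) (C : AddSubgroup V) (l : Fin n → Fin 3 → V)

/-- The tuple of the letters `l_i (t_i)`. -/
def wd (t : Fin n → Fin 3) : Fin n → V := fun i => l i (t i)

/-- The value of `f` at the tuple of the letters `l_i (t_i)` with the entry `s` replaced by `c`. -/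
def ZZ (s : Fin n) (t : Fin n → Fin 3) (c : V) : G := f (update (wd l t) s c)

/-- The subgroup generated by the values of `f` at the tuples of the letters `≠ 2` and at the tuples of
letters with one letter `2` replaced by an element of `C`. -/
def HZ : AddSubgroup G :=
  AddSubgroup.closure ({y | ∃ t : Fin n → Fin 3, (∀ i, t i ≠ 2) ∧ y = f (wd l t)} ∪
    {y | ∃ (s : Fin n) (t : Fin n → Fin 3) (c : V), t s = 2 ∧ c ∈ C ∧ y = ZZ f l s t c})

/-- One of the letters is `γ`. -/
def Has2 {n : ℕ} (t : Fin n → Fin 3) : Prop := ∃ s, t s = 2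

instance {n : ℕ} : DecidablePred (Has2 (n := n)) := fun _ => Classical.propDecidable _

open Classical in
/-- A position of a letter `γ`. -/
def pos {n : ℕ} (t : Fin (n + 1) → Fin 3) : Fin (n + 1) :=
  if h : Has2 t then Classical.choose h else 0

theorem pos_spec {n : ℕ} {t : Fin (n + 1) → Fin 3} (h : Has2 t) : t (pos t) = 2 := by
  unfold pos
  rw [dif_pos h]
  exact Classical.choose_spec h

/-- The relations of the letters. -/
structure RelZ (e : V) : Prop where
  he : e ∈ C
  cc : ∀ (v : Fin n → V) (i j : Fin n), i ≠ j → v i ∈ C → v j ∈ C → f v = 0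
  sum : ∑ i, l i 2 ∈ C
  r01 : ∀ (v : Fin n → V) (a b i : Fin n), a ≠ b → v a = l i 0 → v b = l i 1 → f v = 0
  r02 : ∀ (v : Fin n → V) (a b i : Fin n), a ≠ b → v a = l i 0 → v b = l i 2 → f v = 0
  r12 : ∀ (v : Fin n → V) (a b i : Fin n), a ≠ b → v a = l i 1 → v b = l i 2 →
    f v = f (update v b e)

end Algebra

/-! ### The values of the functionals -/

/-- The rows are `0`, `∞`, `1`, `-1`, the columns are the letters. -/
def ev : Fin 4 → Fin 3 → ℤ := ![![1, 0, -1], ![-1, 0, -1], ![0, 1, 1], ![0, -1, 1]]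

/-- One of the entries is `0` or `∞` and one of them is `1` or `-1`. -/
def Mixed {n : ℕ} (r : Fin n → Fin 4) : Prop := (∃ i, (r i : ℕ) < 2) ∧ ∃ j, 2 ≤ (r j : ℕ)

/-- The type of the coordinate: `x_i = 0` (`false`) or `x_i = 1` (`true`). -/
def typ (b : Bool) : Fin 4 := if b then 2 else 0

/-- The orders of the letters of the variable `v` at the flag `x_i = 0` for `b i = false`, `x_i = 1` for
`b i = true`; `γ_{j₀}` is expressed by the other `γ_i`. -/
def ordz {n : ℕ} (b : Fin n → Bool) (j₀ v : Fin n) (t : Fin 3) : Fin n → ℤ := fun k =>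
  if v = j₀ then ev 2 t * (if k = j₀ then 0 else -ev (typ (b k)) 2)
  else if k = v then ev (typ (b v)) t else 0

/-- The leading coefficients of the letters up to the sign. -/
def cz {n : ℕ} (u : ℤ) (b : Fin n → Bool) (j₀ v : Fin n) (t : Fin 3) : ℚ :=
  if v = j₀ then ![1, (u : ℚ) / 4 ^ (Finset.univ.filter fun i => b i = true).card,
    4 * ((u : ℚ) / 4 ^ (Finset.univ.filter fun i => b i = true).card)] t
  else if b v = true ∧ t = 2 then 4 else 1

/-- The flag with `x_i = 0, ∞` for `b i = false` and `x_i = 1, -1` for `b i = true`, where the second value is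
taken for `i ∈ S`. -/
def rz {n : ℕ} (b : Fin n → Bool) (S : Finset (Fin n)) : Fin n → Fin 4 := fun i =>
  if b i = true then (if i ∈ S then 3 else 2) else (if i ∈ S then 1 else 0)

/-- The sign of the letters under `x_i ↦ - 1 / x_i` for `i ∈ S`. -/
def sgz {n : ℕ} (S : Finset (Fin n)) (v : Fin n) (t : Fin 3) : ℤ :=
  if v ∈ S ∧ t ≠ 2 then -1 else 1

/-! ### Polynomials in all the coordinates but one -/

/-- The polynomials in the `x_i`, `i ≠ k`, as functions on the hypersurface. -/
def jz (m : ℕ) (u : ℤ) (k : Fin (m + 1)) : MvPolynomial (Fin m) ℚ →ₐ[ℚ] CoordRing m u :=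
  aeval fun a => (x m u (k.succAbove a) : CoordRing m u)

theorem jz_X (k : Fin (m + 1)) (a : Fin m) :
    jz m u k (X a) = (x m u (k.succAbove a) : CoordRing m u) := by
  unfold jz
  rw [aeval_X]

/-- The polynomial `∏ X_a (X_a ^ 2 - 1)`. -/
def DZ (m : ℕ) : MvPolynomial (Fin m) ℚ := ∏ a, (X a * (X a ^ 2 - 1))

/-! ### The places -/

/-- The field of rational functions in `r` variables. -/
abbrev KZ (r : ℕ) : Type := FractionRing (MvPolynomial (Fin r) ℚ)

/-- The variables. -/
def zz {r : ℕ} (a : Fin r) : KZ r := algebraMap (MvPolynomial (Fin r) ℚ) (KZ r) (X a)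

/-- Leading terms on `ℚ(z_1, …, z_r)`: the `z_a` have the orders `Pi.single a 1`, and the `q₀ + ∑ q_a z_a`
with `q₀ ≠ 0` have the leading coefficients `q₀`. -/
structure GoodLead {r : ℕ} (Λ : Lead (KZ r) r) : Prop where
  z : ∀ (a : Fin r) (f : (KZ r)ˣ), (f : KZ r) = zz a →
    Λ.o (Additive.ofMul f) = Pi.single a 1 ∧ Λ.c f = 1
  one : ∀ (q₀ : ℚˣ) (q : Fin r → ℚ) (f : (KZ r)ˣ),
    (f : KZ r) = algebraMap ℚ (KZ r) q₀ + ∑ a, algebraMap ℚ (KZ r) (q a) * zz a →
      Λ.o (Additive.ofMul f) = 0 ∧ Λ.c f = q₀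

/-- `γ_0` as a rational function of the other coordinates. -/
def rhoZ (m : ℕ) (u : ℤ) : KZ m := (u : KZ m) * (∏ a, zz a) / ∏ a, (zz a ^ 2 - 1)

/-- A place of the hypersurface with `x_{i₀} = 0` and `x_{j₀} = 1` and the flag on it with `x_i = 0` for
`b i = false` and `x_i = 1` for `b i = true`. -/
structure ZPlace (m : ℕ) {u : ℤ} (hu : u ≠ 0) (b : Fin (m + 1) → Bool) (i₀ j₀ : Fin (m + 1))
    (Λ : Lead (KZ (m + 1)) (m + 1)) where
  /-- the expansion of the functions -/
  φ : CoordRing m u →+* LaurentSeries (KZ (m + 1))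
  /-- the power series of the letters -/
  U : Fin (m + 1) → Fin 3 → PowerSeries (KZ (m + 1))
  /-- their constant coefficients -/
  c : Fin (m + 1) → Fin 3 → (KZ (m + 1))ˣ
  hU : ∀ v t, PowerSeries.constantCoeff (U v t) = c v t
  hφ : ∀ v t, φ (let3 m hu v t : CoordRing m u) =
    HahnSeries.single (ordz b j₀ v t i₀) 1 * (U v t : LaurentSeries (KZ (m + 1)))
  ho : ∀ v t k, k ≠ i₀ → k ≠ j₀ → Λ.o (Additive.ofMul (c v t)) k = ordz b j₀ v t k
  hc : ∀ v t, ((Λ.c (c v t) : ℚˣ) : ℚ) ^ 2 = cz u b j₀ v t ^ 2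
  inj : Injective φ

end

end P4a177z
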