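import Pool.Agent.Lib.P4a177z.DefZ

/-!
# The determinants of the values of the functionals
-/

set_option autoImplicit false

namespace P4a177z

open P4a177h P4a177t P4a177x Function MvPolynomial

theorem ev_rz {n : ℕ} (b : Fin n → Bool) (S : Finset (Fin n)) (v : Fin n) (t : Fin 3) :
    ev (rz b S v) t = sgz S v t * ev (typ (b v)) t := by
  unfold rz sgz typ
  by_cases hb : b v = true <;> by_cases hS : v ∈ S <;> fin_cases t <;> simp [hb, hS, ev]

namespace DetZAux

/-- A matrix which is triangular for some injective level function. -/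
theorem det_tri {n : ℕ} (M : Matrix (Fin n) (Fin n) ℤ) (lev : Fin n → ℕ) (hinj : Injective lev)
    (h : ∀ i k, lev k < lev i → M i k = 0) : M.det = ∏ i, M i i := by
  have h2 : M.BlockTriangular lev := fun i k hik => h i k hik
  rw [h2.det, Finset.prod_image (fun a _ b _ hab => hinj hab)]
  refine Finset.prod_congr rfl fun i _ => ?_
  have : Subsingleton { a // lev a = lev i } :=
    ⟨fun x y => Subtype.ext (hinj (x.2.trans y.2.symm))⟩
  rw [Matrix.det_eq_elem_of_subsingleton _ (⟨i, rfl⟩ : { a // lev a = lev i })]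
  rfl

/-- The level function with `j` first. -/
theorem det_row {n : ℕ} (M : Matrix (Fin n) (Fin n) ℤ) (j : Fin n)
    (h : ∀ i k, i ≠ j → k ≠ i → M i k = 0) : M.det = ∏ i, M i i := by
  refine det_tri M (fun i => if i = j then 0 else (i : ℕ) + 1) ?_ ?_
  · intro a b hab
    by_cases h1 : a = j <;> by_cases h2 : b = j
    · rw [h1, h2]
    · simp [h1, h2] at hab
    · simp [h1, h2] at hab
    · simpa [h1, h2, Fin.ext_iff] using hab
  · intro i k hik
    have hi : i ≠ j := by
      rintro rfl
      simp at hik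
    have hk : k ≠ i := by
      rintro rfl
      exact lt_irrefl _ hik
    exact h i k hi hk

/-- The level function with `s` first and `j` last. -/
theorem det_rowcol {n : ℕ} (M : Matrix (Fin n) (Fin n) ℤ) (s j : Fin n) (hsj : s ≠ j)
    (h : ∀ i k, i ≠ s → i ≠ j → k ≠ i → k ≠ j → M i k = 0) (hj : ∀ k, k ≠ j → M j k = 0) :
    M.det = ∏ i, M i i := by
  refine det_tri M (fun i => if i = s then 0 else if i = j then n + 1 else (i : ℕ) + 1) ?_ ?_
  · intro a b hab
    have ha := a.isLt
    have hb := b.isLt
    by_cases h1 : a = s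
    · by_cases h2 : b = s
      · rw [h1, h2]
      · exfalso
        by_cases h3 : b = j <;> simp [h1, h2, h3] at hab
        simp [hsj.symm] at hab
    · by_cases h2 : b = s
      · exfalso
        by_cases h3 : a = j <;> simp [h1, h2, h3] at hab
        simp [hsj.symm] at hab
      · by_cases h3 : a = j <;> by_cases h4 : b = j
        · rw [h3, h4]
        · simp only [if_neg h1, if_neg h2, if_pos h3, if_neg h4] at hab
          omega
        · simp only [if_neg h1, if_neg h2, if_neg h3, if_pos h4] at hab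
          omega
        · simp only [if_neg h1, if_neg h2, if_neg h3, if_neg h4] at hab
          exact Fin.ext (by omega)
  · intro i k hik
    have hi : i ≠ s := by
      rintro rfl
      simp at hik
    have hk : k ≠ i := by
      rintro rfl
      exact lt_irrefl _ hik
    have hkj : k ≠ j := by
      intro h1
      have h2 : k ≠ s := fun h3 => hsj (h3.symm.trans h1)
      have h4 : i ≠ j := fun h3 => hk (h1.trans h3.symm)
      have ha := i.isLt
      simp only [if_neg hi, if_neg h2, if_pos h1, if_neg h4] at hik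
      omega
    by_cases hij : i = j
    · rw [hij]
      exact hj k hkj
    · exact h i k hi hij hk hkj

theorem val_four (p : ℕ) [Fact p.Prime] : padicValRat p (4 : ℚ) = if p = 2 then 2 else 0 := by
  have h4 : (4 : ℚ) = 2 ^ 2 := by norm_num
  rw [h4, padicValRat.pow (p := p) (2 : ℚ) (k := 2)]
  split_ifs with h
  · subst h
    have h5 : padicValRat 2 (2 : ℚ) = 1 := by
      have := padicValRat.self (p := 2) (by norm_num)
      exact_mod_cast this
    rw [h5]
    norm_num
  · have h2 : padicValRat p (2 : ℚ) = 0 := by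
      have h3 : ((2 : ℕ) : ℚ) = 2 := by norm_num
      rw [← h3, padicValRat.of_nat, padicValNat.eq_zero_of_not_dvd]
      · rfl
      · intro h5
        exact h ((Nat.prime_dvd_prime_iff_eq (Fact.out : p.Prime) Nat.prime_two).1 h5)
    rw [h2, mul_zero]

/-- The value of the letter `w_{j₀}`. -/
theorem val_cz {u : ℤ} (hu : u ≠ 0) (p : ℕ) [Fact p.Prime] (B : ℕ) :
    padicValRat p ((u : ℚ) / 4 ^ B) =
      padicValRat p (u : ℚ) - (if p = 2 then 2 else 0) * (B : ℤ) := by
  rw [padicValRat.div (by exact_mod_cast hu) (by positivity), padicValRat.pow (p := p) (4 : ℚ)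
    (k := B), val_four, mul_comm]

end DetZAux

open DetZAux

theorem det_wordZ {n : ℕ} {u : ℤ} (hu : u ≠ 0) (b : Fin n → Bool) (i₀ j₀ : Fin n)
    (hi : b i₀ = false) (hj : b j₀ = true) (S : Finset (Fin n)) (p : ℕ) [Fact p.Prime]
    (t : Fin n → Fin 3) (ht : ∀ i, t i ≠ 2) :
    (Matrix.of fun i => sgz S i (t i) • (ordz b j₀ i (t i) +
      padicValRat p (cz u b j₀ i (t i)) • (Pi.single j₀ 1 : Fin n → ℤ))).det =
      (padicValRat p (u : ℚ) - (if p = 2 then 2 else 0) *
        ((Finset.univ.filter fun i => t i = 1).card : ℤ)) * ∏ l, ev (rz b S l) (t l) := by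
  rw [det_row _ j₀]
  · have hd : ∀ i, i ≠ j₀ → (Matrix.of fun i => sgz S i (t i) • (ordz b j₀ i (t i) +
        padicValRat p (cz u b j₀ i (t i)) • (Pi.single j₀ 1 : Fin n → ℤ))) i i =
        ev (rz b S i) (t i) := by
      intro i hij
      rw [Matrix.of_apply, Pi.smul_apply, Pi.add_apply, Pi.smul_apply, ev_rz]
      simp [ordz, hij]
    have hd2 : (Matrix.of fun i => sgz S i (t i) • (ordz b j₀ i (t i) +
        padicValRat p (cz u b j₀ i (t i)) • (Pi.single j₀ 1 : Fin n → ℤ))) j₀ j₀ =
        sgz S j₀ (t j₀) * padicValRat p (cz u b j₀ j₀ (t j₀)) := by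
      rw [Matrix.of_apply, Pi.smul_apply, Pi.add_apply, Pi.smul_apply]
      simp [ordz]
    rw [← Finset.mul_prod_erase _ _ (Finset.mem_univ j₀), hd2,
      ← Finset.mul_prod_erase Finset.univ (fun l => ev (rz b S l) (t l)) (Finset.mem_univ j₀),
      Finset.prod_congr rfl fun i h => hd i (Finset.ne_of_mem_erase h)]
    by_cases hz : ∏ i ∈ Finset.univ.erase j₀, ev (rz b S i) (t i) = 0
    · rw [hz]
      ring
    have hnz : ∀ l, l ≠ j₀ → ev (rz b S l) (t l) ≠ 0 := by
      intro l hl h0
      exact hz (Finset.prod_eq_zero (Finset.mem_erase.2 ⟨hl, Finset.mem_univ l⟩) h0)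
    have h3 : t j₀ = 0 ∨ t j₀ = 1 := by
      have := ht j₀
      revert this
      generalize t j₀ = a
      fin_cases a <;> simp
    rw [ev_rz, hj]
    rcases h3 with h3 | h3
    · rw [h3]
      simp [cz, typ, ev]
    · have h5 : (Finset.univ.filter fun i => t i = 1) =
          Finset.univ.filter fun i => b i = true := by
        ext l
        simp only [Finset.mem_filter, Finset.mem_univ, true_and]
        by_cases hl : l = j₀
        · rw [hl, h3, hj]
          simp
        · have h6 := hnz l hl
          have h7 := ht l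
          rw [ev_rz] at h6
          revert h6 h7
          generalize t l = a
          cases b l <;> fin_cases a <;> simp [typ, ev]
      have h8 : padicValRat p (cz u b j₀ j₀ (t j₀)) = padicValRat p (u : ℚ) -
          (if p = 2 then 2 else 0) * ((Finset.univ.filter fun i => t i = 1).card : ℤ) := by
        rw [h3, h5, ← val_cz hu]
        simp [cz]
      rw [h8, h3]
      have h9 : ev (typ true) 1 = 1 := by simp [typ, ev]
      rw [h9]
      ring
  · intro i k hij hki
    have h1 : cz u b j₀ i (t i) = 1 := by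
      unfold cz
      rw [if_neg hij, if_neg (fun h => ht i h.2)]
    rw [Matrix.of_apply, Pi.smul_apply, Pi.add_apply, Pi.smul_apply, h1]
    simp [ordz, hij, hki]

theorem det_constZ {n : ℕ} {u : ℤ} (hu : u ≠ 0) (b : Fin n → Bool) (i₀ j₀ : Fin n)
    (hi : b i₀ = false) (hj : b j₀ = true) (S : Finset (Fin n)) (p : ℕ) [Fact p.Prime]
    (s : Fin n) (t : Fin n → Fin 3) (ht : t s = 2) (c : ℤ) :
    (Matrix.of fun i => if i = s then c • (Pi.single j₀ 1 : Fin n → ℤ) else
      sgz S i (t i) • (ordz b j₀ i (t i) +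
        padicValRat p (cz u b j₀ i (t i)) • (Pi.single j₀ 1 : Fin n → ℤ))).det =
      c * ∏ l, ev (rz b S l) (t l) := by
  set M : Matrix (Fin n) (Fin n) ℤ := Matrix.of fun i => if i = s then
    c • (Pi.single j₀ 1 : Fin n → ℤ) else sgz S i (t i) • (ordz b j₀ i (t i) +
      padicValRat p (cz u b j₀ i (t i)) • (Pi.single j₀ 1 : Fin n → ℤ)) with hM
  have hs : ∀ k, M s k = c * (Pi.single j₀ 1 : Fin n → ℤ) k := by
    intro k
    rw [hM, Matrix.of_apply, if_pos rfl, Pi.smul_apply, smul_eq_mul]
  have hi' : ∀ i k, i ≠ s → M i k = sgz S i (t i) * (ordz b j₀ i (t i) k +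
      padicValRat p (cz u b j₀ i (t i)) * (Pi.single j₀ 1 : Fin n → ℤ) k) := by
    intro i k his
    rw [hM, Matrix.of_apply, if_neg his, Pi.smul_apply, smul_eq_mul, Pi.add_apply, Pi.smul_apply,
      smul_eq_mul]
  have hd : ∀ i, i ≠ s → i ≠ j₀ → M i i = ev (rz b S i) (t i) := by
    intro i h1 h2
    rw [hi' i i h1, ev_rz]
    simp [ordz, h2]
  have h0 : ∀ i k, i ≠ s → i ≠ j₀ → k ≠ i → k ≠ j₀ → M i k = 0 := by
    intro i k h1 h2 h3 h4
    rw [hi' i k h1]
    simp [ordz, h2, h3, h4]
  by_cases hsj : s = j₀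
  · -- the row and the column `j₀` are special
    have h1 : M.det = ∏ i, M i i := by
      have h5 := det_row M.transpose s (by
        intro i k h6 h7
        rw [Matrix.transpose_apply]
        by_cases h8 : k = s
        · rw [h8, hs, ← hsj]
          simp [h6]
        · exact h0 k i h8 (by rwa [← hsj]) h7.symm (by rwa [← hsj]))
      rw [Matrix.det_transpose] at h5
      exact h5
    rw [h1, ← Finset.mul_prod_erase _ _ (Finset.mem_univ s),
      ← Finset.mul_prod_erase Finset.univ (fun l => ev (rz b S l) (t l)) (Finset.mem_univ s),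
      Finset.prod_congr rfl fun i h => hd i (Finset.ne_of_mem_erase h)
        (by rw [← hsj]; exact Finset.ne_of_mem_erase h), hs, ev_rz, ht, hsj, hj]
    simp [sgz, typ, ev]
  · -- exchange the rows `s` and `j₀`
    have h1 := Matrix.det_permute (Equiv.swap s j₀) M
    rw [Equiv.Perm.sign_swap hsj] at h1
    have h2 : (M.submatrix (Equiv.swap s j₀) id).det =
        ∏ i, (M.submatrix (Equiv.swap s j₀) id) i i := by
      refine det_rowcol _ s j₀ hsj ?_ ?_
      · intro i k h3 h4 h5 h6
        rw [Matrix.submatrix_apply, Equiv.swap_apply_of_ne_of_ne h3 h4]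
        exact h0 i k h3 h4 h5 h6
      · intro k h3
        rw [Matrix.submatrix_apply, Equiv.swap_apply_right, id, hs]
        simp [h3]
    have h3 : M.det = -(M.submatrix (Equiv.swap s j₀) id).det := by
      rw [h1]
      simp
    have hjs : j₀ ∈ Finset.univ.erase s := Finset.mem_erase.2 ⟨Ne.symm hsj, Finset.mem_univ j₀⟩
    rw [h3, h2, ← Finset.mul_prod_erase _ _ (Finset.mem_univ s),
      ← Finset.mul_prod_erase _ _ hjs,
      ← Finset.mul_prod_erase Finset.univ (fun l => ev (rz b S l) (t l)) (Finset.mem_univ s),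
      ← Finset.mul_prod_erase _ (fun l => ev (rz b S l) (t l)) hjs]
    have h4 : ∏ i ∈ (Finset.univ.erase s).erase j₀, (M.submatrix (Equiv.swap s j₀) id) i i =
        ∏ i ∈ (Finset.univ.erase s).erase j₀, ev (rz b S i) (t i) := by
      refine Finset.prod_congr rfl fun i h => ?_
      have h5 := Finset.ne_of_mem_erase h
      have h6 := Finset.ne_of_mem_erase (Finset.mem_of_mem_erase h)
      rw [Matrix.submatrix_apply, Equiv.swap_apply_of_ne_of_ne h6 h5]
      exact hd i h6 h5
    rw [h4]
    generalize ∏ i ∈ (Finset.univ.erase s).erase j₀, ev (rz b S i) (t i) = P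
    rw [Matrix.submatrix_apply, Matrix.submatrix_apply, Equiv.swap_apply_left,
      Equiv.swap_apply_right, id, id, hs, hi' j₀ s (Ne.symm hsj), ev_rz, ev_rz, ht, hj]
    simp [ordz, hsj, sgz, typ]
    ring_nf

end P4a177z
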