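import Pool.Agent.Lib.P4a177z.DefZ

/-!
# MODULE P4a177z.ExcZ: the exchange relation

PROOF. Let `s ≠ s'`, `L = wd l t`. `Σ = ∑ i, l i 2 ∈ C`, so `f (update (update L s c) s' Σ) = 0` (`h.cc`, entries `s`, `s'`). Expand in the entry `s'`:
`∑ i, f (update (update L s c) s' (l i 2)) = 0`. Terms: `i = s'`: `update _ s' (l s' 2) = update L s c` as `t s' = 2`, the term is `ZZ f l s t c`.
`i = s`: the tuple has the entries `c` at `s` and `l s 2` at `s'`; it is `update L s' c` composed with `Equiv.swap s s'` (as `L s = l s 2`), so the term is `- ZZ f l s' t c` (`map_swap`). `i ≠ s, s'`: the entry `i` is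
`l i (t i)`, the entry `s'` is `l i 2`: if `t i = 0`: `0` by `h.r02`; if `t i = 1`: by `h.r12` it is `f` with the entry `s'` replaced by `e ∈ C`, so `0` by `h.cc` (entries `s`, `s'`); if `t i = 2`: two equal entries
(`map_eq_zero_of_eq`). For `s = s'` trivial.
-/

set_option autoImplicit false

namespace P4a177z

open P4a177h P4a177t P4a177x Function MvPolynomial

theorem exch {n : ℕ} {V G : Type*} [AddCommGroup V] [AddCommGroup G]
    (f : V [⋀^Fin n]→ₗ[ℤ] G) (C : AddSubgroup V) (l : Fin n → Fin 3 → V) {e : V}
    (h : RelZ f C l e) (s s' : Fin n) (t : Fin n → Fin 3) (hs : t s = 2) (hs' : t s' = 2) {c : V}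
    (hc : c ∈ C) : ZZ f l s t c = ZZ f l s' t c := by
  rcases eq_or_ne s s' with rfl | hne
  · rfl
  have key : ∑ i, f (update (update (wd l t) s c) s' (l i 2)) = 0 := by
    have h1 := h.cc (update (update (wd l t) s c) s' (∑ i, l i 2)) s s' hne
      (by rw [update_of_ne hne, update_self]; exact hc) (by rw [update_self]; exact h.sum)
    have h2 : f (update (update (wd l t) s c) s' (∑ i, l i 2)) =
        ∑ i, f (update (update (wd l t) s c) s' (l i 2)) :=
      f.toMultilinearMap.map_update_sum Finset.univ s' (fun i => l i 2) (update (wd l t) s c)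
    rw [← h2, h1]
  have hz : ∀ i ∈ Finset.univ, i ≠ s ∧ i ≠ s' →
      f (update (update (wd l t) s c) s' (l i 2)) = 0 := by
    rintro i - ⟨his, his'⟩
    have hi : update (update (wd l t) s c) s' (l i 2) i = l i (t i) := by
      rw [update_of_ne his', update_of_ne his]
      rfl
    have hi' : update (update (wd l t) s c) s' (l i 2) s' = l i 2 := update_self _ _ _
    have h012 : t i = 0 ∨ t i = 1 ∨ t i = 2 := by
      generalize t i = a
      fin_cases a <;> simp
    rcases h012 with h0 | h0 | h0
    · exact h.r02 _ i s' i his' (by rw [hi, h0]) hi'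
    · rw [h.r12 _ i s' i his' (by rw [hi, h0]) hi', update_idem]
      exact h.cc _ s s' hne (by rw [update_of_ne hne, update_self]; exact hc)
        (by rw [update_self]; exact h.he)
    · exact f.map_eq_zero_of_eq _ (by rw [hi, hi', h0]) his'
  rw [Finset.sum_eq_add s s' hne hz (fun h => absurd (Finset.mem_univ _) h)
    (fun h => absurd (Finset.mem_univ _) h)] at key
  have h1 : update (update (wd l t) s c) s' (l s' 2) = update (wd l t) s c := by
    have : l s' 2 = update (wd l t) s c s' := by
      rw [update_of_ne hne.symm]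
      unfold wd
      rw [hs']
    rw [this, update_eq_self]
  have h2 : update (update (wd l t) s c) s' (l s 2) =
      (update (wd l t) s' c) ∘ Equiv.swap s s' := by
    funext i
    rcases eq_or_ne i s with rfl | his
    · rw [comp_apply, Equiv.swap_apply_left, update_self, update_of_ne hne, update_self]
    rcases eq_or_ne i s' with rfl | his'
    · rw [comp_apply, Equiv.swap_apply_right, update_self, update_of_ne hne]
      unfold wd
      rw [hs]
    · rw [comp_apply, Equiv.swap_apply_of_ne_of_ne his his', update_of_ne his', update_of_ne his,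
        update_of_ne his']
  rw [h1, h2, f.map_swap _ hne] at key
  unfold ZZ
  exact (neg_add_eq_zero.1 key).symm

end P4a177z
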