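import Pool.Agent.Lib.P4a177z.ExcZ

/-!
# MODULE P4a177z.ExpZ: the explicit form of the elements of `HZ`

PROOF. `ZZ f l s t c` does not depend on `t s` (`update` overwrites it) and is additive in `c` (`map_update_add`), `ZZ f l s t 0 = 0`. `AddSubgroup.closure_induction`: `0`: `ν = 0`, `c = 0`; sums and negatives: add or
negate `ν` and `c` (the two kinds of terms are additive; `Finset.sum_add_distrib`, `Finset.sum_neg_distrib`); a generator `f (wd l t₀)` without letter `2`: `ν = Pi.single t₀ 1`-like (`if t = t₀ then 1 else 0`), `c = 0`,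
`Finset.sum_eq_single t₀` (`¬ Has2 t₀`); a generator `ZZ f l s t₀ c₀` with `t₀ s = 2`: `Has2 t₀`; by `exch` (with `pos_spec`) it is `ZZ f l (pos t₀) t₀ c₀`: `ν = 0`, `c t = if t = t₀ then c₀ else 0`.
-/

set_option autoImplicit false

namespace P4a177z

open P4a177h P4a177t P4a177x Function MvPolynomial

namespace ExpZAux

variable {n : ℕ} {V G : Type*} [AddCommGroup V] [AddCommGroup G]
  (f : V [⋀^Fin n]→ₗ[ℤ] G) (l : Fin n → Fin 3 → V)

theorem ZZ_add (s : Fin n) (t : Fin n → Fin 3) (c c' : V) :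
    ZZ f l s t (c + c') = ZZ f l s t c + ZZ f l s t c' := by
  unfold ZZ
  exact f.map_update_add _ _ _ _

theorem ZZ_zero (s : Fin n) (t : Fin n → Fin 3) : ZZ f l s t 0 = 0 := by
  unfold ZZ
  exact f.map_update_zero _ _

theorem ZZ_neg (s : Fin n) (t : Fin n → Fin 3) (c : V) : ZZ f l s t (-c) = -ZZ f l s t c := by
  unfold ZZ
  exact f.map_update_neg _ _ _

end ExpZAux

open ExpZAux in
theorem explicitZ {n : ℕ} {V G : Type*} [AddCommGroup V] [AddCommGroup G]
    (f : V [⋀^Fin (n + 1)]→ₗ[ℤ] G) (C : AddSubgroup V) (l : Fin (n + 1) → Fin 3 → V) {e : V}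
    (h : RelZ f C l e) {y : G} (hy : y ∈ HZ f C l) :
    ∃ (ν : (Fin (n + 1) → Fin 3) → ℤ) (c : (Fin (n + 1) → Fin 3) → V), (∀ t, c t ∈ C) ∧
      y = ∑ t, if Has2 t then ZZ f l (pos t) t (c t) else ν t • f (wd l t) := by
  refine AddSubgroup.closure_induction
    (p := fun y _ => ∃ (ν : (Fin (n + 1) → Fin 3) → ℤ) (c : (Fin (n + 1) → Fin 3) → V),
      (∀ t, c t ∈ C) ∧
        y = ∑ t, if Has2 t then ZZ f l (pos t) t (c t) else ν t • f (wd l t)) ?_ ?_ ?_ ?_ hy
  · rintro y (⟨t₀, ht₀, rfl⟩ | ⟨s, t₀, c₀, hts, hc₀, rfl⟩)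
    · refine ⟨fun t => if t = t₀ then 1 else 0, fun _ => 0, fun _ => C.zero_mem, ?_⟩
      beta_reduce
      have hno : ¬ Has2 t₀ := fun ⟨s, hs⟩ => ht₀ s hs
      rw [Finset.sum_eq_single t₀]
      · rw [if_neg hno, if_pos rfl, one_smul]
      · intro t _ ht
        rw [if_neg ht, zero_smul, ZZ_zero, ite_self]
      · intro hh
        exact absurd (Finset.mem_univ _) hh
    · refine ⟨fun _ => 0, fun t => if t = t₀ then c₀ else 0, fun t => ?_, ?_⟩
      · dsimp only
        split_ifs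
        · exact hc₀
        · exact C.zero_mem
      beta_reduce
      have hyes : Has2 t₀ := ⟨s, hts⟩
      rw [Finset.sum_eq_single t₀]
      · rw [if_pos hyes, if_pos rfl]
        exact exch f C l h s (pos t₀) t₀ hts (pos_spec hyes) hc₀
      · intro t _ ht
        rw [if_neg ht, zero_smul, ZZ_zero, ite_self]
      · intro hh
        exact absurd (Finset.mem_univ _) hh
  · refine ⟨fun _ => 0, fun _ => 0, fun _ => C.zero_mem, ?_⟩
    beta_reduce
    rw [Finset.sum_eq_zero]
    intro t _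
    rw [zero_smul, ZZ_zero, ite_self]
  · rintro y z - - ⟨ν, c, hc, rfl⟩ ⟨ν', c', hc', rfl⟩
    refine ⟨fun t => ν t + ν' t, fun t => c t + c' t, fun t => C.add_mem (hc t) (hc' t), ?_⟩
    beta_reduce
    rw [← Finset.sum_add_distrib]
    refine Finset.sum_congr rfl fun t _ => ?_
    split_ifs
    · rw [ZZ_add]
    · rw [add_smul]
  · rintro y - ⟨ν, c, hc, rfl⟩
    refine ⟨fun t => -ν t, fun t => -c t, fun t => C.neg_mem (hc t), ?_⟩
    beta_reduce
    rw [← Finset.sum_neg_distrib]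
    refine Finset.sum_congr rfl fun t _ => ?_
    split_ifs
    · rw [ZZ_neg]
    · rw [neg_smul]

end P4a177z
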