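import Pool.Agent.Lib.P4a177z.DefZ
import Pool.Agent.Lib.P4a177x.LauX

/-!
# MODULE P4a177z.FldZ: leading terms on the field of rational functions

PROOF. Take `L, Λ', z'` from `P4a177x.exists_flag r`. The homomorphism `eval₂Hom Λ'.ι (fun a => (z' a : L)) : MvPolynomial (Fin r) ℚ →+* L` is injective (last property, `injective_iff_map_eq_zero`), so it extends to
`ψ : KZ r →+* L` (`IsFractionRing.lift`, `IsFractionRing.lift_algebraMap`), with `ψ (zz a) = z' a`. Pull back the leading terms (compare the construction of `Λ₂` in `Lib/P4a177x/TfX.lean`): `ι = algebraMap ℚ (KZ r)`,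
`o = Λ'.o.comp (MonoidHom.toAdditive (Units.map ψ))`, `c = Λ'.c.comp (Units.map ψ)`; `rat`: `ψ.comp ι = Λ'.ι` (`Subsingleton.elim`, there is only one homomorphism `ℚ →+* L`); `st`: apply `ψ`. `GoodLead.z`: `Units.map ψ f = z' a`
(`Units.ext`). `GoodLead.one`: with the unit `u` of the second property of `exists_flag`, `Units.map ψ f = u`.
-/

set_option autoImplicit false

namespace P4a177z

open P4a177h P4a177t P4a177x Function MvPolynomial

theorem exists_goodLead (r : ℕ) : ∃ Λ : Lead (KZ r) r, GoodLead Λ := by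
  classical
  obtain ⟨L, hF, hC, Λ', z', hz, hgen, hind⟩ := exists_flag r
  -- the embedding of the field of rational functions
  have hinj : Injective (eval₂Hom Λ'.ι (fun a => (z' a : L))) := by
    rw [injective_iff_map_eq_zero]
    intro H hH
    by_contra hne
    exact hind H hne hH
  obtain ⟨ψ, hψ⟩ : ∃ ψ : KZ r →+* L, ∀ p : MvPolynomial (Fin r) ℚ,
      ψ (algebraMap (MvPolynomial (Fin r) ℚ) (KZ r) p) = eval₂Hom Λ'.ι (fun a => (z' a : L)) p :=
    ⟨IsFractionRing.lift hinj, fun p => IsFractionRing.lift_algebraMap hinj p⟩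
  have hψz : ∀ a, ψ (zz a) = (z' a : L) := by
    intro a
    unfold zz
    rw [hψ, coe_eval₂Hom, eval₂_X]
  have hψι : ψ.comp (algebraMap ℚ (KZ r)) = Λ'.ι := Subsingleton.elim _ _
  have hψq : ∀ q : ℚ, ψ (algebraMap ℚ (KZ r) q) = Λ'.ι q := fun q =>
    DFunLike.congr_fun hψι q
  have hψU : ∀ q : ℚˣ, Units.map (ψ : KZ r →* L) (Units.map
      ((algebraMap ℚ (KZ r) : ℚ →+* KZ r) : ℚ →* KZ r) q) =
      Units.map (Λ'.ι : ℚ →* L) q := fun q => Units.ext (hψq (q : ℚ))
  let Λ : Lead (KZ r) r :=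
    { ι := algebraMap ℚ (KZ r)
      o := Λ'.o.comp (MonoidHom.toAdditive (Units.map (ψ : KZ r →* L)))
      c := Λ'.c.comp (Units.map (ψ : KZ r →* L))
      rat := fun q => by
        have h := Λ'.rat q
        rw [← hψU q] at h
        exact h
      st := fun f g hfg => by
        have h := Λ'.st (Units.map (ψ : KZ r →* L) f) (Units.map (ψ : KZ r →* L) g) (by
            show ψ (f : KZ r) + ψ (g : KZ r) = 1
            rw [← map_add, hfg, map_one])
        exact h }
  have ho : ∀ f : (KZ r)ˣ, Λ.o (Additive.ofMul f) =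
      Λ'.o (Additive.ofMul (Units.map (ψ : KZ r →* L) f)) := fun _ => rfl
  have hc : ∀ f : (KZ r)ˣ, Λ.c f = Λ'.c (Units.map (ψ : KZ r →* L) f) := fun _ => rfl
  refine ⟨Λ, ⟨fun a f hf => ?_, fun q₀ q f hf => ?_⟩⟩
  · have h1 : Units.map (ψ : KZ r →* L) f = z' a := by
      refine Units.ext ?_
      show ψ (f : KZ r) = z' a
      rw [hf, hψz]
    rw [ho, hc, h1]
    exact hz a
  · obtain ⟨u, hu, huo, huc⟩ := hgen q₀ q
    have h1 : Units.map (ψ : KZ r →* L) f = u := by
      refine Units.ext ?_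
      show ψ (f : KZ r) = u
      rw [hf, hu, map_add, map_sum, hψq]
      congr 1
      refine Finset.sum_congr rfl fun a _ => ?_
      rw [map_mul, hψq, hψz]
    rw [ho, hc, h1]
    exact ⟨huo, huc⟩

end P4a177z
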