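import Pool.Agent.Lib.P4a177z.TauZ
import Pool.Agent.Lib.P4a177x.TfX

/-!
# MODULE P4a177z.TfZ: the functionals of the flags on the Milnor K-group of the function field

PROOF. Model: `P4a177x.exists_TF` in `Lib/P4a177x/TfX.lean` and `exists_TFY` in `Lib/P4a177y/TfY.lean` (proved; copy the parts on `v`, on the pull back `Λ₂` of the leading terms, on the constants and on the unramified elements). Here `tau m u S` is injective (it is an involution:
`tau (tau r) = r` by `hom_ext`, `tau_x`, `flp`), so `P.φ.comp (tau m u S)` is injective and extends to `ψ : K →+* LaurentSeries (KZ (m + 1))`. `v = (vls _).comap ψ`. `Λ'` from `P4a177x.lead_laurent Λ`, a `Lead (LaurentSeries (KZ (m + 1))) (m + 2)` (component `0` = order in `T`,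
component `k.succ` = order at `z_k`). Restrict the order to `m` components: `π : Fin m → Fin (m + 2)`, `π a = if j₀.succAbove a = i₀ then 0 else (j₀.succAbove a).succ`; for a `Λ : Lead K r` and `π : Fin r' → Fin r` the orders `fun a => Λ.o f (π a)` with the same `c`, `ι` give a
`Lead K r'` (all four alternatives of `st` are preserved). So `Λ₂ : Lead K m`, `o f a = Λ'.o (Units.map ψ f) (π a)`. `T₀` from `P4a177x.exists_T Λ₂ p`, `T = (-1) ^ (j₀ : ℕ) • T₀`, `vec f k = if k = j₀ then padicValRat p (Λ₂.c f) else if k = i₀ then Λ'.o (Units.map ψ f) 0 else Λ'.o (Units.map ψ f) k.succ`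
(additive: `padicValRat.mul`). `T (symb a) = det (vec (a i))`: `Matrix.det_succ_column _ j₀` (Laplace expansion along the column `j₀`: `∑ i, (-1) ^ (i + j₀) * M i j₀ * det (M.submatrix i.succAbove j₀.succAbove)`), the entries of the minor are
`vec (a (i.succAbove s)) (j₀.succAbove t) = Λ₂.o (a (i.succAbove s)) t` (as `j₀.succAbove t ≠ j₀`). Unramified elements: the column of the component `0` of `Λ'.o` is `0` on the units of value `1`; here it is the column `i₀ ≠ j₀` of `vec`: use the determinant formula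
`T (symb a) = det (vec ..)` with a zero column `i₀`. Constants: `Λ₂.rat`. Letters: `tau m u S` maps `let3 v t` to itself if `v ∉ S` or `t = 2` and to `-(let3 v t)⁻¹` if `v ∈ S`, `t ≠ 2` (`t = 0`: `tau_x`, `flp`; `t = 1`: `mob_spec`: `(-1/x - 1) / (-1/x + 1) = -(x + 1) / (x - 1)`; `t = 2`: `gam_spec`; as units of
`CoordRing m u`, `Units.map (tau m u S)`). So `Units.map ψ` of the letter is the unit `f₀ = P.φ (let3 v t)` or `-f₀⁻¹`, and `Λ'.o f₀ = Fin.cons (ordz b j₀ v t i₀) (Λ.o (P.c v t))`, `Λ'.c f₀ = Λ.c (P.c v t)` by `P.hφ`, `P.hU`; the unit `-1 = Units.map ι (-1)` has order `0` and leading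
coefficient `-1`, `padicValRat p (-q) = padicValRat p q`, `padicValRat.inv`. `padicValRat p (Λ.c (P.c v t)) = padicValRat p (cz ..)` as the squares are equal (`P.hc`; `sq_eq_sq_iff_eq_or_eq_neg`, `padicValRat.neg`). For `k ≠ i₀, j₀` use `P.ho`, and `ordz b j₀ v t j₀ = 0` holds except for
`v = k = j₀`.. : in the formula the component `j₀` of `ordz b j₀ v t` is `0` (for `v = j₀` by definition, for `v ≠ j₀` as `j₀ ≠ v`), so the right side has the component `padicValRat p (cz ..)` at `j₀`. Suggestion: auxiliary lemmas for (1) restriction of a `Lead`, (2) `tau` on letters, (3) the expansion of the determinant.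
-/

set_option autoImplicit false

namespace P4a177z

open P4a177h P4a177t P4a177x Function MvPolynomial

namespace TfZAux

open P4a177x.TfXAux

variable {K L : Type} [Field K] [Field L] {r r' : ℕ}

/-- The restriction of the orders. -/
def restr (Λ : Lead K r) (π : Fin r' → Fin r) : Lead K r' where
  ι := Λ.ι
  o :=
    { toFun := fun f a => Λ.o f (π a)
      map_zero' := by
        funext a
        rw [map_zero]
        rfl
      map_add' := fun f g => by
        funext a
        rw [map_add]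
        rfl }
  c := Λ.c
  rat := fun q => by
    obtain ⟨h1, h2⟩ := Λ.rat q
    refine ⟨?_, h2⟩
    funext a
    exact congrFun h1 (π a)
  st := fun f g h => by
    rcases Λ.st f g h with ⟨h1, h2⟩ | ⟨h1, h2⟩ | ⟨h1, h2⟩ | ⟨h1, h2⟩
    · left
      exact ⟨funext fun a => congrFun h1 (π a), funext fun a => congrFun h2 (π a)⟩
    · right; left
      exact ⟨funext fun a => congrFun h1 (π a), h2⟩
    · right; right; left
      exact ⟨funext fun a => congrFun h1 (π a), h2⟩
    · right; right; right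
      exact ⟨funext fun a => congrFun h1 (π a), h2⟩

theorem restr_o (Λ : Lead K r) (π : Fin r' → Fin r) (f : Additive Kˣ) (a : Fin r') :
    (restr Λ π).o f a = Λ.o f (π a) := rfl

theorem restr_c (Λ : Lead K r) (π : Fin r' → Fin r) (f : Kˣ) : (restr Λ π).c f = Λ.c f := rfl

/-- The pull back of the leading terms. -/
def pull (ψ : K →+* L) (j : ℚ →+* K) (Λ : Lead L r) : Lead K r where
  ι := j
  o := Λ.o.comp (MonoidHom.toAdditive (Units.map (ψ : K →* L)))
  c := Λ.c.comp (Units.map (ψ : K →* L))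
  rat := fun q => by
    have hψι : ψ.comp j = Λ.ι := Subsingleton.elim _ _
    have hU : Units.map (ψ : K →* L) (Units.map (j : ℚ →* K) q) = Units.map (Λ.ι : ℚ →* L) q :=
      Units.ext (DFunLike.congr_fun hψι (q : ℚ))
    have h := Λ.rat q
    rw [← hU] at h
    exact h
  st := fun f g hfg => by
    have h := Λ.st (Units.map (ψ : K →* L) f) (Units.map (ψ : K →* L) g) (by
      show ψ (f : K) + ψ (g : K) = 1
      rw [← map_add, hfg, map_one])
    exact h

theorem pull_o (ψ : K →+* L) (j : ℚ →+* K) (Λ : Lead L r) (f : Kˣ) :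
    (pull ψ j Λ).o (Additive.ofMul f) = Λ.o (Additive.ofMul (Units.map (ψ : K →* L) f)) := rfl

theorem pull_c (ψ : K →+* L) (j : ℚ →+* K) (Λ : Lead L r) (f : Kˣ) :
    (pull ψ j Λ).c f = Λ.c (Units.map (ψ : K →* L) f) := rfl

theorem lead_neg (Λ : Lead K r) (f : Kˣ) :
    Λ.o (Additive.ofMul (-f)) = Λ.o (Additive.ofMul f) ∧ Λ.c (-f) = -Λ.c f := by
  have h1 : -f = Units.map (Λ.ι : ℚ →* K) (-1) * f := by
    apply Units.ext
    rw [Units.val_mul, Units.coe_map, Units.val_neg, Units.val_neg, Units.val_one]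
    show -(f : K) = Λ.ι (-1) * f
    rw [map_neg, map_one, neg_one_mul]
  obtain ⟨h2, h3⟩ := Λ.rat (-1)
  constructor
  · rw [h1, ofMul_mul, map_add, h2, zero_add]
  · rw [h1, map_mul, h3, neg_one_mul]

theorem lead_inv (Λ : Lead K r) (f : Kˣ) :
    Λ.o (Additive.ofMul (-f⁻¹)) = -Λ.o (Additive.ofMul f) ∧ Λ.c (-f⁻¹) = -(Λ.c f)⁻¹ := by
  obtain ⟨h1, h2⟩ := lead_neg Λ f⁻¹
  rw [h1, h2]
  refine ⟨?_, by rw [map_inv]⟩
  rw [ofMul_inv, map_neg]

/-- The vector of the orders, with the `p`-adic order of the leading coefficient in the place `j₀`. -/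
noncomputable def vec (Λ : Lead K r) (p : ℕ) [Fact p.Prime] {n : ℕ} (j₀ : Fin n)
    (π : Fin n → Fin r) : Additive Kˣ →+ (Fin n → ℤ) where
  toFun := fun f k =>
    if k = j₀ then padicValRat p ((Λ.c f.toMul : ℚˣ) : ℚ) else Λ.o f (π k)
  map_zero' := by
    funext k
    split_ifs with h
    · rw [toMul_zero, map_one, Units.val_one, padicValRat.one]
      rfl
    · rw [map_zero]
      rfl
  map_add' := fun f g => by
    funext k
    rw [Pi.add_apply]
    split_ifs with h
    · rw [toMul_add, map_mul, Units.val_mul, padicValRat.mul (Units.ne_zero _) (Units.ne_zero _)]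
    · rw [map_add]
      rfl

theorem vec_apply (Λ : Lead K r) (p : ℕ) [Fact p.Prime] {n : ℕ} (j₀ : Fin n)
    (π : Fin n → Fin r) (f : Kˣ) (k : Fin n) : vec Λ p j₀ π (Additive.ofMul f) k =
      if k = j₀ then padicValRat p ((Λ.c f : ℚˣ) : ℚ) else Λ.o (Additive.ofMul f) (π k) := rfl

theorem det_vec (Λ : Lead K r) (p : ℕ) [Fact p.Prime] {m : ℕ} (j₀ : Fin (m + 1))
    (π : Fin (m + 1) → Fin r) (a : Fin (m + 1) → Kˣ) :
    (Matrix.of fun i => vec Λ p j₀ π (Additive.ofMul (a i))).det =
      (-1) ^ (j₀ : ℕ) * ∑ i : Fin (m + 1), (-1) ^ (i : ℕ) *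
        (Matrix.of fun s t : Fin m => (restr Λ fun t => π (j₀.succAbove t)).o
          (Additive.ofMul (a (i.succAbove s))) t).det *
        padicValRat p ((restr Λ fun t => π (j₀.succAbove t)).c (a i)) := by
  rw [Matrix.det_succ_column _ j₀, Finset.mul_sum]
  refine Finset.sum_congr rfl fun i _ => ?_
  have h1 : (Matrix.of fun i => vec Λ p j₀ π (Additive.ofMul (a i))) i j₀ =
      padicValRat p ((Λ.c (a i) : ℚˣ) : ℚ) := by
    rw [Matrix.of_apply, vec_apply, if_pos rfl]
  have h2 : (Matrix.of fun i => vec Λ p j₀ π (Additive.ofMul (a i))).submatrix i.succAbove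
      j₀.succAbove = Matrix.of fun s t : Fin m => (restr Λ fun t => π (j₀.succAbove t)).o
          (Additive.ofMul (a (i.succAbove s))) t := by
    ext s t
    rw [Matrix.submatrix_apply, Matrix.of_apply, Matrix.of_apply, vec_apply,
      if_neg (Fin.succAbove_ne j₀ t), restr_o]
  rw [h1, h2, restr_c, pow_add]
  ring

theorem ordz_self {n : ℕ} (b : Fin n → Bool) (j₀ v : Fin n) (t : Fin 3) :
    ordz b j₀ v t j₀ = 0 := by
  unfold ordz
  by_cases h1 : v = j₀
  · simp [h1]
  · rw [if_neg h1, if_neg fun h => h1 h.symm]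

theorem padic_sq {p : ℕ} [Fact p.Prime] {x y : ℚ} (h : x ^ 2 = y ^ 2) :
    padicValRat p x = padicValRat p y := by
  rcases sq_eq_sq_iff_eq_or_eq_neg.mp h with h1 | h1
  · rw [h1]
  · rw [h1, padicValRat.neg]

end TfZAux

open TfZAux P4a177x.TfXAux

theorem exists_TFZ {m : ℕ} {u : ℤ} (hu : u ≠ 0) (b : Fin (m + 1) → Bool) (i₀ j₀ : Fin (m + 1))
    (hij : i₀ ≠ j₀) (Λ : Lead (KZ (m + 1)) (m + 1)) (P : ZPlace m hu b i₀ j₀ Λ)
    (S : Finset (Fin (m + 1))) (K : Type) [Field K] [Algebra (CoordRing m u) K]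
    [IsFractionRing (CoordRing m u) K] :
    ∃ v : Valuation K (WithZero (Multiplicative ℤ)),
      (∀ t : ℚˣ, v (algebraMap (CoordRing m u) K (algebraMap ℚ (CoordRing m u) t)) = 1) ∧
      ∀ (p : ℕ) [Fact p.Prime], ∃ (T : MilnorK (m + 1) K →+ ℤ)
        (vec : Additive Kˣ →+ (Fin (m + 1) → ℤ)),
        (∀ ξ : MilnorK (m + 1) K, Unramified v ξ → T ξ = 0) ∧
        (∀ a : Fin (m + 1) → Kˣ, T (symb a) =
          (Matrix.of fun i => vec (Additive.ofMul (a i))).det) ∧
        (∀ c : ℚˣ, vec (Additive.ofMul (Units.map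
          (algebraMap (CoordRing m u) K : CoordRing m u →* K) (P4a177w.cs (CoordRing m u) c))) =
            padicValRat p (c : ℚ) • Pi.single j₀ 1) ∧
        ∀ (v' : Fin (m + 1)) (t : Fin 3), vec (Additive.ofMul (Units.map
          (algebraMap (CoordRing m u) K : CoordRing m u →* K) (let3 m hu v' t))) =
            sgz S v' t • (ordz b j₀ v' t + padicValRat p (cz u b j₀ v' t) • Pi.single j₀ 1) := by
  classical
  obtain ⟨Λ', hΛ'⟩ := lead_laurent Λ
  have hinj : Injective (P.φ.comp (tau m u S)) := by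
    intro r s h
    have h1 := P.inj h
    have h2 := congrArg (tau m u S) h1
    rwa [tau_tau, tau_tau] at h2
  obtain ⟨ψ, hψ⟩ : ∃ ψ : K →+* LaurentSeries (KZ (m + 1)), ∀ r : CoordRing m u,
      ψ (algebraMap (CoordRing m u) K r) = P.φ (tau m u S r) :=
    ⟨IsFractionRing.lift hinj, fun r => IsFractionRing.lift_algebraMap hinj r⟩
  set Λ₁ : Lead K (m + 2) := pull ψ ((algebraMap (CoordRing m u) K).comp
    (algebraMap ℚ (CoordRing m u))) Λ' with hΛ₁
  set π : Fin (m + 1) → Fin (m + 2) := fun k => if k = i₀ then 0 else k.succ with hπ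
  refine ⟨(vls (KZ (m + 1))).comap ψ, fun t => ?_, fun p _ => ?_⟩
  · -- the constants
    rw [Valuation.comap_apply, hψ]
    have h : (P.φ.comp (tau m u S)).comp (algebraMap ℚ (CoordRing m u)) =
        (HahnSeries.C : KZ (m + 1) →+* LaurentSeries (KZ (m + 1))).comp Λ.ι :=
      Subsingleton.elim _ _
    have h2 : P.φ (tau m u S (algebraMap ℚ (CoordRing m u) t)) = HahnSeries.C (Λ.ι t) :=
      DFunLike.congr_fun h (t : ℚ)
    rw [h2]
    refine vls_const _ ?_
    rw [Ne, map_eq_zero]
    exact t.ne_zero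
  obtain ⟨T₀, hT₀⟩ := exists_T (restr Λ₁ fun t => π (j₀.succAbove t)) p
  have hT : ∀ a : Fin (m + 1) → Kˣ, (((-1 : ℤ) ^ (j₀ : ℕ)) • T₀) (symb a) =
      (Matrix.of fun i => vec Λ₁ p j₀ π (Additive.ofMul (a i))).det := by
    intro a
    rw [det_vec, ← hT₀ a, AddMonoidHom.smul_apply, smul_eq_mul]
  refine ⟨((-1 : ℤ) ^ (j₀ : ℕ)) • T₀, vec Λ₁ p j₀ π, fun ξ hξ => ?_, hT, fun c => ?_,
    fun v' t => ?_⟩
  · -- the unramified elements
    obtain ⟨k, hk, hmem⟩ := hξ
    have hz : (((-1 : ℤ) ^ (j₀ : ℕ)) • T₀) (k • ξ) = 0 := by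
      refine AddSubgroup.closure_induction
        (p := fun x _ => (((-1 : ℤ) ^ (j₀ : ℕ)) • T₀) x = 0) ?_ (map_zero _)
        (fun x y _ _ hx hy => by rw [map_add, hx, hy, add_zero])
        (fun x _ hx => by rw [map_neg, hx, neg_zero]) hmem
      rintro x ⟨a, ha, rfl⟩
      rw [hT]
      refine Matrix.det_eq_zero_of_column_eq_zero i₀ fun s => ?_
      rw [Matrix.of_apply, vec_apply, if_neg hij, hπ]
      simp only [if_pos]
      rw [hΛ₁, pull_o]
      obtain ⟨n, U, w', hU, hf⟩ := unit_form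
        (Units.map (ψ : K →* LaurentSeries (KZ (m + 1))) (a s))
      rw [(hΛ' n U w' _ hU hf).1]
      have h1 := ha s
      rw [Valuation.comap_apply] at h1
      rw [Units.coe_map] at hf
      change ψ _ = _ at hf
      rw [hf] at h1
      rw [Fin.cons_zero]
      exact n_zero hU h1
    rw [map_nsmul] at hz
    exact (smul_eq_zero_iff_right hk.ne').mp hz
  · -- the constants
    have hconst : Units.map (algebraMap (CoordRing m u) K : (CoordRing m u) →* K)
        (P4a177w.cs (CoordRing m u) c) = Units.map (Λ₁.ι : ℚ →* K) c := Units.ext rfl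
    rw [hconst]
    obtain ⟨h1, h2⟩ := Λ₁.rat c
    funext k
    rw [vec_apply, h1, h2]
    by_cases hk : k = j₀
    · subst hk
      simp
    · simp [hk]
  · -- the letters
    set f₀ : (LaurentSeries (KZ (m + 1)))ˣ :=
      Units.map (P.φ : CoordRing m u →* LaurentSeries (KZ (m + 1))) (let3 m hu v' t) with hf₀
    have hf1 := hΛ' (ordz b j₀ v' t i₀) (P.U v' t) (P.c v' t) f₀ (P.hU v' t) (P.hφ v' t)
    obtain ⟨ho, hc⟩ := hf1
    have hpc : padicValRat p ((Λ'.c f₀ : ℚˣ) : ℚ) = padicValRat p (cz u b j₀ v' t) := by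
      rw [hc]
      exact padic_sq (P.hc v' t)
    have hok : ∀ k, k ≠ j₀ → Λ'.o (Additive.ofMul f₀) (π k) = ordz b j₀ v' t k := by
      intro k hk
      rw [ho, hπ]
      by_cases hki : k = i₀
      · simp only [hki, if_pos]
        rw [Fin.cons_zero]
      · simp only [if_neg hki]
        rw [Fin.cons_succ, P.ho v' t k hki hk]
    have hmap : Units.map (ψ : K →* LaurentSeries (KZ (m + 1))) (Units.map
        (algebraMap (CoordRing m u) K : CoordRing m u →* K) (let3 m hu v' t)) =
        if v' ∈ S ∧ t ≠ 2 then -f₀⁻¹ else f₀ := by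
      have h1 : Units.map (ψ : K →* LaurentSeries (KZ (m + 1))) (Units.map
          (algebraMap (CoordRing m u) K : CoordRing m u →* K) (let3 m hu v' t)) =
          Units.map (P.φ : CoordRing m u →* LaurentSeries (KZ (m + 1)))
            (Units.map (tau m u S : CoordRing m u →* CoordRing m u) (let3 m hu v' t)) := by
        apply Units.ext
        exact hψ _
      rw [h1, tau_let]
      split_ifs
      · apply Units.ext
        rw [Units.coe_map, Units.val_neg, Units.val_neg]
        show P.φ (-((let3 m hu v' t)⁻¹ : (CoordRing m u)ˣ)) = _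
        rw [map_neg, hf₀, ← map_inv, Units.coe_map]
        rfl
      · rfl
    funext k
    rw [vec_apply, hΛ₁, pull_o, pull_c, hmap]
    rw [Pi.smul_apply, Pi.add_apply, Pi.smul_apply]
    unfold sgz
    obtain ⟨ho', hc'⟩ := lead_inv Λ' f₀
    by_cases hS : v' ∈ S ∧ t ≠ 2
    · rw [if_pos hS, if_pos hS]
      by_cases hk : k = j₀
      · rw [if_pos hk, hc', Units.val_neg, padicValRat.neg, Units.val_inv_eq_inv_val,
          padicValRat.inv, hpc, hk, ordz_self, Pi.single_eq_same]
        simp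
      · rw [if_neg hk, ho', Pi.neg_apply, hok k hk, Pi.single_eq_of_ne hk]
        simp
    · rw [if_neg hS, if_neg hS]
      by_cases hk : k = j₀
      · rw [if_pos hk, hpc, hk, ordz_self, Pi.single_eq_same]
        simp
      · rw [if_neg hk, hok k hk, Pi.single_eq_of_ne hk]
        simp

end P4a177z
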