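import Pool.Agent.Lib.P4a177z.PlcZ
import Pool.Agent.Lib.P4a177z.FldZ
import Pool.Agent.Lib.P4a177z.TfZ
import Pool.Agent.Lib.P4a177z.DetZ

/-!
# The functionals at the mixed flags
-/

set_option autoImplicit false

namespace P4a177z

open P4a177h P4a177t P4a177x Function MvPolynomial

namespace FunZAux

/-- The rows of a flag are given by their type and by the second values. -/
theorem rz_eq {n : ℕ} (r : Fin n → Fin 4) :
    rz (fun i => decide (2 ≤ (r i : ℕ))) (Finset.univ.filter fun i => r i = 1 ∨ r i = 3) = r := by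
  funext i
  unfold rz
  simp only [decide_eq_true_eq, Finset.mem_filter, Finset.mem_univ, true_and]
  generalize r i = q
  revert q
  decide

end FunZAux

theorem exists_funZ {m : ℕ} (hm : 2 ≤ m) {u : ℤ} (hu : u ≠ 0) (r : Fin (m + 1) → Fin 4)
    (hr : Mixed r) (K : Type) [Field K] [Algebra (CoordRing m u) K]
    [IsFractionRing (CoordRing m u) K] :
    ∃ v : Valuation K (WithZero (Multiplicative ℤ)),
      (∀ t : ℚˣ, v (algebraMap (CoordRing m u) K (algebraMap ℚ (CoordRing m u) t)) = 1) ∧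
      ∀ (p : ℕ) [Fact p.Prime], ∃ T : MilnorK (m + 1) K →+ ℤ,
        (∀ ξ : MilnorK (m + 1) K, Unramified v ξ → T ξ = 0) ∧
        (∀ (s : Fin (m + 1)) (t : Fin (m + 1) → Fin 3) (c : ℚˣ), t s = 2 →
          T (map (algebraMap (CoordRing m u) K) (symb (update (fun i => let3 m hu i (t i)) s
            (P4a177w.cs (CoordRing m u) c)))) =
            padicValRat p (c : ℚ) * ∏ l, ev (r l) (t l)) ∧
        ∀ t : Fin (m + 1) → Fin 3, (∀ i, t i ≠ 2) →
          T (map (algebraMap (CoordRing m u) K) (symb fun i => let3 m hu i (t i))) =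
            (padicValRat p (u : ℚ) - (if p = 2 then 2 else 0) *
              ((Finset.univ.filter fun i => t i = 1).card : ℤ)) * ∏ l, ev (r l) (t l) := by
  classical
  obtain ⟨⟨i₀, h1⟩, j₀, h2⟩ := hr
  set b : Fin (m + 1) → Bool := fun i => decide (2 ≤ (r i : ℕ)) with hb
  set S : Finset (Fin (m + 1)) := Finset.univ.filter fun i => r i = 1 ∨ r i = 3 with hS
  have hrz : rz b S = r := FunZAux.rz_eq r
  have hi : b i₀ = false := by
    rw [hb]
    simp only [decide_eq_false_iff_not]
    omega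
  have hj : b j₀ = true := by
    rw [hb]
    simp only [decide_eq_true_eq]
    exact h2
  have hij : i₀ ≠ j₀ := by
    intro h
    rw [h, hj] at hi
    exact Bool.noConfusion hi
  obtain ⟨Λ, hΛ⟩ := exists_goodLead (m + 1)
  obtain ⟨P⟩ := exists_placeZ hm hu b i₀ j₀ hi hj Λ hΛ
  obtain ⟨v, hv, hp⟩ := exists_TFZ hu b i₀ j₀ hij Λ P S K
  refine ⟨v, hv, ?_⟩
  intro p hpr
  obtain ⟨T, vec, hT, hsym, hcon, hlet⟩ := hp p
  refine ⟨T, hT, ?_, ?_⟩
  · intro s t c hts
    rw [map_symb, hsym, ← hrz]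
    rw [← det_constZ hu b i₀ j₀ hi hj S p s t hts (padicValRat p (c : ℚ))]
    congr 2
    funext i
    by_cases his : i = s
    · subst his
      rw [if_pos rfl, update_self, hcon]
    · rw [if_neg his, update_of_ne his, hlet]
  · intro t ht
    rw [map_symb, hsym, ← hrz]
    rw [← det_wordZ hu b i₀ j₀ hi hj S p t ht]
    congr 2
    funext i
    rw [hlet]

end P4a177z
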