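import Pool.Agent.Lib.P4a177z.TauZ
import Pool.Agent.Lib.P4a177y.GnrY

/-!
# MODULE P4a177z.InvZ: invariant elements: averaging over the sign changes

PROOF. Let `π = QuotientAddGroup.mk' (Tor ..)`, `R = CoordRing m u`. (1) `map (sig m u a)` maps `negSub` to `negSub` (generators, `map_symb`) and so `Tor` to `Tor`; so there is an additive endomorphism `Σ a` of the quotient with `Σ a (π y) = π (map (sig m u a) y)` (`QuotientAddGroup.map`). (2) `Σ a (S.f (wd (lA m hu) t)) = ε a t • S.f (wd (lA m hu) t)` for `t` without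
letter `2`, `ε a t = (-1) ^ #{v ∈ {a.castSucc, a.succ} | t v = 1}`: by `hS` it is `π (symb ..)` of the images of the letters (`sig_let`): a sign does not matter (`P4a177y.neg_entry`, `neg_all`), an inverse changes the sign of the value. So `ε = 1` if `t a.castSucc = t a.succ`, and `ε = -1` if they are different (both are `0` or `1`). (3) `hη` for the
homomorphism `sig m u a` with `s v = -1` for `v = a.castSucc, a.succ`, `s v = 1` otherwise, `e = 1` (`∏ s = 1`; compare the computation `h3` in the proof of `sgc_on` in `DefZ.lean`; `sig_x`, `sgc`): `map (sig m u a) η = η`, so `Σ a (π (N • η)) = π (N • η)`. (4) Induction on a finite set `A` of indices `a`: with `ν_A t = (∏ a ∈ A, (1 + ε a t)) * ν t`: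
`2 ^ #A • π (N • η) = ∑ t, if Has2 t then 0 else ν_A t • S.f (wd (lA m hu) t)` (apply `1 + Σ a`). For `A = univ`, `#A = m`: if `t` is not constant and without `2`, then `t a.castSucc ≠ t a.succ` for some `a` (otherwise `t` is constant: `Fin.induction`), so `1 + ε a t = 0`; for the two constant words `0`, `1` the product is `2 ^ m`.
-/

set_option autoImplicit false

namespace P4a177z

open P4a177h P4a177t P4a177x Function MvPolynomial

namespace InvZAux

theorem alg0 {G : Type*} [AddGroup G] (f : G →+ G) : (0 : G) + f 0 = 0 := by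
  rw [map_zero, add_zero]

theorem alg1 {G : Type*} [AddCommGroup G] (p q e : ℤ) (y : G) :
    (p * q) • y + (p * q) • (e • y) = (((1 + e) * p) * q) • y := by
  rw [← mul_zsmul, ← add_zsmul]
  congr 1
  ring

theorem alg2 {G : Type*} [AddCommGroup G] (m : ℕ) (a b : ℤ) (x y : G) :
    ((2 : ℤ) ^ m * a) • x + ((2 : ℤ) ^ m * b) • y = 2 ^ m • (a • x + b • y) := by
  have h5 : ∀ z : G, ((2 : ℤ) ^ m) • z = (2 ^ m : ℕ) • z := by
    intro z
    rw [← natCast_zsmul]
    congr 1
  rw [mul_zsmul, mul_zsmul, ← zsmul_add, h5]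

theorem alg3 {G : Type*} [AddCommGroup G] (q : ℤ) (y : G) : (0 * q) • y = 0 := by
  rw [zero_mul, zero_zsmul]

theorem tor_map {n : ℕ} {R S : Type*} [CommRing R] [CommRing S] (φ : R →+* S)
    {x : MilnorK n R} (hx : x ∈ Tor n R) : map φ x ∈ Tor n S := by
  obtain ⟨k, hk, hkx⟩ := hx
  refine ⟨k, hk, ?_⟩
  rw [← map_nsmul]
  revert hkx
  generalize k • x = y
  intro hy
  unfold negSub at hy
  induction hy using AddSubgroup.closure_induction with
  | mem y hy =>
    obtain ⟨a, i, j, hij, haj, rfl⟩ := hy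
    rw [map_symb]
    refine AddSubgroup.subset_closure ⟨_, i, j, hij, ?_, rfl⟩
    show Units.map (φ : R →* S) (a j) = -Units.map (φ : R →* S) (a i)
    rw [haj]
    refine Units.ext ?_
    rw [Units.val_neg, Units.coe_map, Units.coe_map, Units.val_neg]
    exact map_neg φ _
  | zero =>
    rw [map_zero]
    exact zero_mem _
  | add a b _ _ ha hb =>
    rw [map_add]
    exact add_mem ha hb
  | neg a _ ha =>
    rw [map_neg]
    exact neg_mem ha

variable {m : ℕ} {u : ℤ}

/-- The sign of the entry `i`. -/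
def sg (a : Fin m) (t : Fin (m + 1) → Fin 3) (i : Fin (m + 1)) : ℤ :=
  if (i = a.castSucc ∨ i = a.succ) ∧ t i = 1 then -1 else 1

/-- The sign. -/
def eps (a : Fin m) (t : Fin (m + 1) → Fin 3) : ℤ := ∏ i, sg a t i

theorem eps_eq (a : Fin m) (t : Fin (m + 1) → Fin 3) :
    eps a t = (if t a.castSucc = 1 then -1 else 1) * (if t a.succ = 1 then -1 else 1) := by
  unfold eps
  rw [Fintype.prod_eq_mul a.castSucc a.succ (Fin.castSucc_lt_succ).ne]
  · unfold sg
    simp
  · intro i hi
    unfold sg
    rw [if_neg]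
    rintro ⟨h | h, -⟩
    · exact hi.1 h
    · exact hi.2 h

/-- The endomorphism of the quotient. -/
noncomputable def Sg (m : ℕ) (u : ℤ) (a : Fin m) :
    (MilnorK (m + 1) (CoordRing m u) ⧸ Tor (m + 1) (CoordRing m u)) →+
      (MilnorK (m + 1) (CoordRing m u) ⧸ Tor (m + 1) (CoordRing m u)) :=
  QuotientAddGroup.map _ _ (map (sig m u a)) fun _ hx => tor_map (sig m u a) hx

theorem Sg_mk (a : Fin m) (y : MilnorK (m + 1) (CoordRing m u)) :
    Sg m u a (QuotientAddGroup.mk' (Tor (m + 1) (CoordRing m u)) y) =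
      QuotientAddGroup.mk' (Tor (m + 1) (CoordRing m u)) (map (sig m u a) y) := rfl

theorem Sg_f (hu : u ≠ 0)
    (S : Alt (CoordRing m u) (m + 1)
      (MilnorK (m + 1) (CoordRing m u) ⧸ Tor (m + 1) (CoordRing m u)))
    (hS : ∀ a : Fin (m + 1) → (CoordRing m u)ˣ, S.f (fun k => Additive.ofMul (a k)) =
      QuotientAddGroup.mk' (Tor (m + 1) (CoordRing m u)) (symb a))
    (a : Fin m) (t : Fin (m + 1) → Fin 3) :
    Sg m u a (S.f (wd (lA m hu) t)) = eps a t • S.f (wd (lA m hu) t) := by
  have h1 : S.f (wd (lA m hu) t) = QuotientAddGroup.mk' (Tor (m + 1) (CoordRing m u))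
      (symb fun k => let3 m hu k (t k)) := hS fun k => let3 m hu k (t k)
  have h2 : Sg m u a (S.f (wd (lA m hu) t)) =
      S.f (fun i => Additive.ofMul (Units.map (sig m u a : CoordRing m u →* CoordRing m u)
        (let3 m hu i (t i)))) := by
    rw [h1, Sg_mk, map_symb, hS]
  have h3 : (fun i => Additive.ofMul (Units.map (sig m u a : CoordRing m u →* CoordRing m u)
        (let3 m hu i (t i)))) =
      fun i => if i ∈ (Finset.univ.filter fun i : Fin (m + 1) =>
          (i = a.castSucc ∨ i = a.succ) ∧ t i ≠ 1) then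
        sg a t i • wd (lA m hu) t i + Additive.ofMul (-1) else sg a t i • wd (lA m hu) t i := by
    funext i
    rw [sig_let]
    simp only [Finset.mem_filter, Finset.mem_univ, true_and]
    unfold sg wd lA
    by_cases hi : i = a.castSucc ∨ i = a.succ
    · by_cases ht : t i = 1
      · rw [if_pos hi, if_pos ht, if_neg fun h => h.2 ht, if_pos ⟨hi, ht⟩, neg_one_zsmul]
        rfl
      · rw [if_pos hi, if_neg ht, if_pos ⟨hi, ht⟩, if_neg fun h => ht h.2, one_zsmul, ← ofMul_mul]
        congr 1
        refine Units.ext ?_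
        rw [Units.val_neg, Units.val_mul, Units.val_neg, Units.val_one, mul_neg, mul_one]
    · rw [if_neg hi, if_neg fun h => hi h.1, if_neg fun h => hi h.1, one_zsmul]
  rw [h2, h3, P4a177y.neg_all S (fun i => sg a t i • wd (lA m hu) t i)]
  exact S.f.toMultilinearMap.map_smul_univ (sg a t) (wd (lA m hu) t)

theorem map_sig_inv {η : MilnorK (m + 1) (CoordRing m u)} (hη : P4a177o.Invariant η) (a : Fin m) :
    map (sig m u a) η = η := by
  refine hη (sig m u a) (fun i => if i = a.castSucc ∨ i = a.succ then -1 else 1) (fun _ => 1)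
    ?_ (by simp) ?_
  · rw [Fintype.prod_eq_mul a.castSucc a.succ (Fin.castSucc_lt_succ).ne]
    · simp
    · intro i hi
      rw [if_neg]
      rintro (h | h)
      · exact hi.1 h
      · exact hi.2 h
  · intro i
    rw [sig_x]
    unfold sgc
    split_ifs
    · simp
    · simp

theorem exists_ne {t : Fin (m + 1) → Fin 3} (h0 : t ≠ fun _ => 0) (h1 : t ≠ fun _ => 1)
    (h2 : ¬ Has2 t) : ∃ a : Fin m, eps a t = -1 := by
  by_contra hc
  push Not at hc
  have h3 : ∀ i, t i = 0 ∨ t i = 1 := by
    intro i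
    have h4 : t i ≠ 2 := fun h => h2 ⟨i, h⟩
    revert h4
    generalize t i = c
    revert c
    decide
  have h5 : ∀ a : Fin m, t a.succ = t a.castSucc := by
    intro a
    have h6 := hc a
    rw [eps_eq] at h6
    rcases h3 a.succ with h | h <;> rcases h3 a.castSucc with h' | h'
    · rw [h, h']
    · exact absurd (by rw [h, h']; decide) h6
    · exact absurd (by rw [h, h']; decide) h6
    · rw [h, h']
  have h7 : ∀ i, t i = t 0 := by
    intro i
    induction i using Fin.induction with
    | zero => rfl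
    | succ i ih => rw [h5 i, ih]
  rcases h3 0 with h | h
  · exact h0 (funext fun i => (h7 i).trans h)
  · exact h1 (funext fun i => (h7 i).trans h)

end InvZAux

open InvZAux

theorem inv_avgZ {m : ℕ} (hm : 1 ≤ m) {u : ℤ} (hu : u ≠ 0)
    (S : Alt (CoordRing m u) (m + 1)
      (MilnorK (m + 1) (CoordRing m u) ⧸ Tor (m + 1) (CoordRing m u)))
    (hS : ∀ a : Fin (m + 1) → (CoordRing m u)ˣ, S.f (fun k => Additive.ofMul (a k)) =
      QuotientAddGroup.mk' (Tor (m + 1) (CoordRing m u)) (symb a))
    (η : MilnorK (m + 1) (CoordRing m u)) (hη : P4a177o.Invariant η) (N : ℕ)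
    (ν : (Fin (m + 1) → Fin 3) → ℤ)
    (h : QuotientAddGroup.mk' (Tor (m + 1) (CoordRing m u)) (N • η) =
      ∑ t, if Has2 t then 0 else ν t • S.f (wd (lA m hu) t)) :
    2 ^ m • QuotientAddGroup.mk' (Tor (m + 1) (CoordRing m u)) (N • η) =
      2 ^ m • (ν (fun _ => 0) • S.f (wd (lA m hu) fun _ => 0) +
        ν (fun _ => 1) • S.f (wd (lA m hu) fun _ => 1)) := by
  classical
  have key : ∀ A : Finset (Fin m),
      2 ^ A.card • QuotientAddGroup.mk' (Tor (m + 1) (CoordRing m u)) (N • η) =
      ∑ t, if Has2 t then 0 else ((∏ a ∈ A, (1 + eps a t)) * ν t) • S.f (wd (lA m hu) t) := by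
    intro A
    induction A using Finset.induction_on with
    | empty =>
      rw [Finset.card_empty, pow_zero, one_nsmul, h]
      refine Finset.sum_congr rfl fun t _ => ?_
      rw [Finset.prod_empty, one_mul]
    | insert a A ha ih =>
      have h1 : Sg m u a (QuotientAddGroup.mk' (Tor (m + 1) (CoordRing m u)) (N • η)) =
          QuotientAddGroup.mk' (Tor (m + 1) (CoordRing m u)) (N • η) := by
        rw [Sg_mk, map_nsmul, map_sig_inv hη]
      have h2 := congrArg (Sg m u a) ih
      rw [map_nsmul, h1, map_sum] at h2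
      rw [Finset.card_insert_of_notMem ha, pow_succ, mul_nsmul, two_nsmul]
      conv_lhs =>
        congr
        · rw [ih]
        · rw [h2]
      rw [← Finset.sum_add_distrib]
      refine Finset.sum_congr rfl fun t _ => ?_
      by_cases ht : Has2 t
      · rw [if_pos ht, if_pos ht]
        exact alg0 (Sg m u a)
      · rw [if_neg ht, if_neg ht, map_zsmul, Sg_f hu S hS, Finset.prod_insert ha]
        exact alg1 (G := MilnorK (m + 1) (CoordRing m u) ⧸ Tor (m + 1) (CoordRing m u)) _ _ _ _
  have h1 := key Finset.univ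
  rw [Finset.card_univ, Fintype.card_fin] at h1
  rw [h1]
  have hne : (fun _ : Fin (m + 1) => (0 : Fin 3)) ≠ fun _ => 1 := by
    intro h
    exact absurd (congrFun h 0) (by decide)
  rw [Fintype.sum_eq_add (fun _ => 0) (fun _ => 1) hne]
  · have h2 : ∀ c : Fin 3, c ≠ 2 → ¬ Has2 (fun _ : Fin (m + 1) => c) := by
      rintro c hc ⟨s, hs⟩
      exact hc hs
    have h3 : ∀ c : Fin 3, ∏ a : Fin m, (1 + eps a (fun _ => c)) = 2 ^ m := by
      intro c
      have h4 : ∀ a : Fin m, (1 + eps a (fun _ => c)) = 2 := by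
        intro a
        rw [eps_eq]
        revert c
        decide
      rw [Finset.prod_congr rfl fun a _ => h4 a, Finset.prod_const, Finset.card_univ,
        Fintype.card_fin]
    rw [if_neg (h2 0 (by decide)), if_neg (h2 1 (by decide)), h3, h3]
    exact alg2 (G := MilnorK (m + 1) (CoordRing m u) ⧸ Tor (m + 1) (CoordRing m u)) _ _ _ _ _
  · intro t ht
    by_cases h2 : Has2 t
    · rw [if_pos h2]
    · rw [if_neg h2]
      obtain ⟨a, ha⟩ := exists_ne ht.1 ht.2 h2
      have h3 : ∏ a : Fin m, (1 + eps a t) = 0 := by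
        refine Finset.prod_eq_zero (Finset.mem_univ a) ?_
        rw [ha]
        norm_num
      rw [h3]
      exact alg3 (G := MilnorK (m + 1) (CoordRing m u) ⧸ Tor (m + 1) (CoordRing m u)) _ _

end P4a177z
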