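import Pool.Agent.Lib.P4a177z.DefZ

/-!
# MODULE P4a177z.KilZ: a function on the words is determined by its values at the mixed flags

PROOF. For a letter `a : Fin 3` and a type `θ : Bool` (false: the rows `0, 1` of `ev`, true: the rows `2, 3`), allowed if (`a = 0`, false), (`a = 1`, true), (`a = 2`, any), there is `κ : Fin 4 → ℤ`, zero outside of the two rows of
the type, with `∑ r, κ r * ev r t = if t = a then 2 else 0` for all `t`: `a = 0`: `κ 0 = 1, κ 1 = -1`; `a = 1`: `κ 2 = 1, κ 3 = -1`; `a = 2`, false: `κ 0 = κ 1 = -1`; `a = 2`, true: `κ 2 = κ 3 = 1` (`decide` or `fin_cases`).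
Given `t₀ ≠ (0, …, 0), (1, …, 1)` choose the types `θ l`, allowed for `t₀ l`, with both types occurring: if `t₀` has a letter `0` then some letter is not `0`: give type true to all letters `≠ 0`; if `t₀` has no letter `0` but a
letter `1`, then it has a letter `2`: give type false to all letters `2`; if all letters are `2`: give type false to the index `0` and true to the others (`2 ≤ n`). Then
`∑ r : Fin n → Fin 4, (∏ l, κ l (r l)) * (∑ t, E t * ∏ l, ev (r l) (t l)) = ∑ t, E t * ∏ l, (∑ r, κ l r * ev r (t l)) = 2 ^ n * E t₀` (`Finset.sum_comm`, `Finset.prod_univ_sum`/`Fintype.piFinset`), and every term of the left side is `0`: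
either `∏ l, κ l (r l) = 0` or all `r l` have the type `θ l`, so `Mixed r`.
-/

set_option autoImplicit false

namespace P4a177z

open P4a177h P4a177t P4a177x Function MvPolynomial

namespace KilZAux

/-- The coefficients `κ` of the letter `a` and the type `θ`. -/
def kap : Fin 3 → Bool → Fin 4 → ℤ :=
  ![fun _ => ![1, -1, 0, 0], fun _ => ![0, 0, 1, -1],
    fun θ => if θ then ![0, 0, 1, 1] else ![-1, -1, 0, 0]]

theorem kap_ev (a : Fin 3) (θ : Bool) (t : Fin 3) :
    ∑ r, kap a θ r * ev r t = if t = a then 2 else 0 := by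
  revert a θ t; decide

theorem kap_supp (a : Fin 3) (θ : Bool) (r : Fin 4) (h0 : a = 0 → θ = false)
    (h1 : a = 1 → θ = true) (h : kap a θ r ≠ 0) :
    (θ = false → (r : ℕ) < 2) ∧ (θ = true → 2 ≤ (r : ℕ)) := by
  revert a θ r; decide

theorem exists_types {n : ℕ} (hn : 2 ≤ n) (t : Fin n → Fin 3) (h0 : ¬ ∀ l, t l = 0)
    (h1 : ¬ ∀ l, t l = 1) :
    ∃ θ : Fin n → Bool, (∀ l, t l = 0 → θ l = false) ∧ (∀ l, t l = 1 → θ l = true) ∧
      (∃ l, θ l = false) ∧ ∃ l, θ l = true := by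
  push Not at h0 h1
  obtain ⟨l0, hl0⟩ := h0
  obtain ⟨l1, hl1⟩ := h1
  by_cases hz : ∃ l, t l = 0
  · obtain ⟨l, hl⟩ := hz
    refine ⟨fun k => decide (t k ≠ 0), ?_, ?_, ⟨l, ?_⟩, ⟨l0, ?_⟩⟩
    · intro k hk; simp [hk]
    · intro k hk; simp [hk]
    · simp [hl]
    · simp [hl0]
  · by_cases ho : ∃ l, t l = 1
    · obtain ⟨l, hl⟩ := ho
      refine ⟨fun k => decide (t k = 1), ?_, ?_, ⟨l1, ?_⟩, ⟨l, ?_⟩⟩
      · intro k hk; exact absurd ⟨k, hk⟩ hz
      · intro k hk; simp [hk]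
      · simp [hl1]
      · simp [hl]
    · refine ⟨fun k => decide ((k : ℕ) ≠ 0), ?_, ?_, ⟨⟨0, by omega⟩, ?_⟩, ⟨⟨1, by omega⟩, ?_⟩⟩
      · intro k hk; exact absurd ⟨k, hk⟩ hz
      · intro k hk; exact absurd ⟨k, hk⟩ ho
      · simp
      · simp

end KilZAux

open KilZAux in
theorem killZ {n : ℕ} (hn : 2 ≤ n) (E : (Fin n → Fin 3) → ℤ)
    (hE : ∀ r : Fin n → Fin 4, Mixed r → ∑ t, E t * ∏ l, ev (r l) (t l) = 0)
    (t : Fin n → Fin 3) (h0 : ¬ ∀ l, t l = 0) (h1 : ¬ ∀ l, t l = 1) : E t = 0 := by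
  obtain ⟨θ, ha, hb, ⟨p, hp⟩, ⟨q, hq⟩⟩ := exists_types hn t h0 h1
  have key : ∑ r : Fin n → Fin 4, (∏ l, kap (t l) (θ l) (r l)) *
      (∑ s, E s * ∏ l, ev (r l) (s l)) = 0 := by
    refine Finset.sum_eq_zero fun r _ => ?_
    by_cases hz : ∏ l, kap (t l) (θ l) (r l) = 0
    · rw [hz, zero_mul]
    · have hnz : ∀ l, kap (t l) (θ l) (r l) ≠ 0 := fun l hl =>
        hz (Finset.prod_eq_zero (Finset.mem_univ l) hl)
      rw [hE r ⟨⟨p, (kap_supp _ _ _ (ha p) (hb p) (hnz p)).1 hp⟩,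
        ⟨q, (kap_supp _ _ _ (ha q) (hb q) (hnz q)).2 hq⟩⟩, mul_zero]
  have h2 : ∑ r : Fin n → Fin 4, (∏ l, kap (t l) (θ l) (r l)) *
      (∑ s, E s * ∏ l, ev (r l) (s l)) = ∑ s, E s * ∏ l, (if s l = t l then (2 : ℤ) else 0) := by
    simp_rw [Finset.mul_sum]
    rw [Finset.sum_comm]
    refine Finset.sum_congr rfl fun s _ => ?_
    have h3 : ∏ l, (if s l = t l then (2 : ℤ) else 0) =
        ∑ r : Fin n → Fin 4, ∏ l, (kap (t l) (θ l) (r l) * ev (r l) (s l)) := by
      have h4 := Finset.prod_univ_sum (fun _ : Fin n => (Finset.univ : Finset (Fin 4)))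
        (fun l r => kap (t l) (θ l) r * ev r (s l))
      rw [Fintype.piFinset_univ] at h4
      rw [← h4]
      exact Finset.prod_congr rfl fun l _ => (kap_ev _ _ _).symm
    rw [h3, Finset.mul_sum]
    refine Finset.sum_congr rfl fun r _ => ?_
    rw [Finset.prod_mul_distrib]
    ring
  rw [h2, Finset.sum_eq_single t] at key
  · simp only [if_true, Finset.prod_const] at key
    rcases mul_eq_zero.mp key with h | h
    · exact h
    · exact absurd h (by positivity)
  · intro s _ hs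
    obtain ⟨l, hl⟩ := Function.ne_iff.mp hs
    rw [Finset.prod_eq_zero (Finset.mem_univ l) (if_neg hl), mul_zero]
  · intro h; exact absurd (Finset.mem_univ t) h

end P4a177z
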