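import Pool.Agent.Lib.P4a177z.DefZ
import Pool.Agent.Lib.P4a177y.SpnY

/-!
# MODULE P4a177z.SpnZ: multilinear algebra modulo constants

PROOF. (Techniques: `Lib/P4a177y/SpnY.lean`, proved, in particular `P4a177y.SpnYAux.ml_closure` and `perm_mem`.) Let `H = HZ f C l`. (a) A tuple `v` with exactly one entry `c ∈ C`, at the index `s₀`, and all the others letters
`l (i a) (τ a)`: if `i a = i b` for some `a ≠ b` (both `≠ s₀`), then `f v = 0` (equal entries; `h.r01`, `h.r02`, also with the roles of `a`, `b` exchanged; or `h.r12` and then `h.cc` with the entries `e`, `c`). Otherwise the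
`n - 1` indices `i a` are distinct, exactly one index `s` is missing, and after a permutation (`perm_mem`) the tuple is `update (wd l t) s c` with `t s = 2` (the entry `s` is overwritten, so `t s` is free): `ZZ f l s t c ∈ H`.
(b) A tuple of letters only with `i a = i b` for some `a ≠ b`: `0`, or by `h.r12` the case (a). (c) A tuple of letters with all `i a` distinct: after a permutation it is `wd l t`. If `t i ≠ 2` for all `i`: in `H`.
Otherwise let `t s = 2`; `l s 2 = Σ - ∑ i ≠ s, l i 2` with `Σ = ∑ i, l i 2 ∈ C`: `f (wd l t) = f (update (wd l t) s Σ) - ∑ i ≠ s, f (update (wd l t) s (l i 2))`; the first one is `ZZ f l s t Σ ∈ H`, the others have two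
letters of the same variable `i`: (b) (or directly: `0`, `0`, or `ZZ f l s t e`). (d) Two entries in `C`: `0` (`h.cc`). So `f v ∈ H` for all the tuples with entries in the set `{l i t} ∪ C`, hence for entries in its closure
(`ml_closure`), and `K • w` is in the closure for every `w` by `hg`; `K ^ n • f v = f (fun i => K • v i)` (`map_smul_univ` of the multilinear map, with natural numbers: cast to `ℤ`).
-/

set_option autoImplicit false

namespace P4a177z

open P4a177h P4a177t P4a177x Function MvPolynomial

namespace SpnZAux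

variable {n : ℕ} {V G : Type*} [AddCommGroup V] [AddCommGroup G]
  (f : V [⋀^Fin n]→ₗ[ℤ] G) (C : AddSubgroup V) (l : Fin n → Fin 3 → V)

/-- The entries in `C` or letters. -/
def Sp (x : V) : Prop := x ∈ C ∨ ∃ i t, x = l i t

theorem sp_update {w : Fin n → V} (hw : ∀ i, Sp C l (w i)) (b : Fin n) {c : V}
    (hc : Sp C l c) (j : Fin n) : Sp C l (update w b c j) := by
  by_cases h : j = b
  · rw [h, update_self]
    exact hc
  · rw [update_of_ne h]
    exact hw j

/-- Two letters of the same variable: the value is zero or the second one can be replaced by `e`. -/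
theorem two_letters {e : V} (h : RelZ f C l e) (v : Fin n → V) {a b i : Fin n} {t t' : Fin 3}
    (hab : a ≠ b) (ha : v a = l i t) (hb : v b = l i t') :
    f v = 0 ∨ f v = f (update v b e) ∨ f v = f (update v a e) := by
  fin_cases t <;> fin_cases t'
  · exact Or.inl (f.map_eq_zero_of_eq v (ha.trans hb.symm) hab)
  · exact Or.inl (h.r01 v a b i hab ha hb)
  · exact Or.inl (h.r02 v a b i hab ha hb)
  · exact Or.inl (h.r01 v b a i hab.symm hb ha)
  · exact Or.inl (f.map_eq_zero_of_eq v (ha.trans hb.symm) hab)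
  · exact Or.inr (Or.inl (h.r12 v a b i hab ha hb))
  · exact Or.inl (h.r02 v b a i hab.symm hb ha)
  · exact Or.inr (Or.inr (h.r12 v b a i hab.symm hb ha))
  · exact Or.inl (f.map_eq_zero_of_eq v (ha.trans hb.symm) hab)

/-- Case (a). -/
theorem mem_of_C {e : V} (h : RelZ f C l e) (w : Fin n → V) (hw : ∀ i, Sp C l (w i)) {s₀ : Fin n}
    (h0 : w s₀ ∈ C) : f w ∈ HZ f C l := by
  classical
  by_cases hex : ∃ a, a ≠ s₀ ∧ w a ∈ C
  · obtain ⟨a, ha, hac⟩ := hex
    rw [h.cc w a s₀ ha hac h0]
    exact zero_mem _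
  push Not at hex
  have hB : ∀ a, ∃ i t, a ≠ s₀ → w a = l i t := fun a => by
    by_cases ha : a = s₀
    · exact ⟨s₀, 0, fun h' => absurd ha h'⟩
    · rcases hw a with h1 | ⟨i, t, h1⟩
      · exact absurd h1 (hex a ha)
      · exact ⟨i, t, fun _ => h1⟩
  choose i t hi using hB
  by_cases hinj : ∀ a b, a ≠ s₀ → b ≠ s₀ → i a = i b → a = b
  · -- the missing variable
    have hs : ∃ s, ∀ a, a ≠ s₀ → i a ≠ s := by
      by_contra hcon
      push Not at hcon
      have h1 : Finset.univ ⊆ (Finset.univ.erase s₀).image i := by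
        intro s _
        obtain ⟨a, ha, has⟩ := hcon s
        exact Finset.mem_image.2 ⟨a, Finset.mem_erase.2 ⟨ha, Finset.mem_univ a⟩, has⟩
      have h2 := (Finset.card_le_card h1).trans Finset.card_image_le
      rw [Finset.card_erase_of_mem (Finset.mem_univ s₀), Finset.card_univ, Fintype.card_fin] at h2
      have h3 : 0 < n := s₀.pos
      omega
    obtain ⟨s, hs⟩ := hs
    set σ : Fin n → Fin n := update i s₀ s with hσ
    have hσ0 : σ s₀ = s := by rw [hσ, update_self]
    have hσ1 : ∀ a, a ≠ s₀ → σ a = i a := fun a ha => by rw [hσ, update_of_ne ha]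
    have hσi : Injective σ := by
      intro a b hab
      by_cases ha : a = s₀
      · by_cases hb : b = s₀
        · rw [ha, hb]
        · rw [ha, hσ0, hσ1 b hb] at hab
          exact absurd hab.symm (hs b hb)
      · by_cases hb : b = s₀
        · rw [hb, hσ0, hσ1 a ha] at hab
          exact absurd hab (hs a ha)
        · rw [hσ1 a ha, hσ1 b hb] at hab
          exact hinj a b ha hb hab
    have hσb : Bijective σ := Finite.injective_iff_bijective.1 hσi
    have ht' : ∀ j : Fin n, ∃ t' : Fin 3, (j = s → t' = 2) ∧ ∀ a, a ≠ s₀ → i a = j → w a = l j t' := by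
      intro j
      by_cases hj : ∃ a, a ≠ s₀ ∧ i a = j
      · obtain ⟨a, ha, rfl⟩ := hj
        refine ⟨t a, fun h' => absurd h' (hs a ha), fun b hb hba => ?_⟩
        rw [hinj b a hb ha hba]
        exact hi a ha
      · exact ⟨2, fun _ => rfl, fun a ha haj => absurd ⟨a, ha, haj⟩ hj⟩
    choose t' ht2 ht' using ht'
    have e1 : w = (update (wd l t') s (w s₀)) ∘ Equiv.ofBijective σ hσb := by
      funext a
      rw [Function.comp_apply, Equiv.ofBijective_apply]
      by_cases ha : a = s₀
      · rw [ha, hσ0, update_self]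
      · rw [hσ1 a ha, update_of_ne (hs a ha)]
        exact ht' (i a) a ha rfl
    rw [e1]
    refine P4a177y.SpnYAux.perm_mem f (HZ f C l) (Equiv.ofBijective σ hσb) _ ?_
    exact AddSubgroup.subset_closure (Or.inr ⟨s, t', w s₀, ht2 s rfl, h0, rfl⟩)
  · push Not at hinj
    obtain ⟨a, b, ha, hb, hab, hne⟩ := hinj
    have hb' : w b = l (i a) (t b) := by
      rw [hab]
      exact hi b hb
    rcases two_letters f C l h w hne (hi a ha) hb' with h1 | h1 | h1
    · rw [h1]
      exact zero_mem _
    · rw [h1, h.cc (update w b e) b s₀ hb (by rw [update_self]; exact h.he)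
        (by rw [update_of_ne hb.symm]; exact h0)]
      exact zero_mem _
    · rw [h1, h.cc (update w a e) a s₀ ha (by rw [update_self]; exact h.he)
        (by rw [update_of_ne ha.symm]; exact h0)]
      exact zero_mem _

/-- Case (b). -/
theorem mem_of_two {e : V} (h : RelZ f C l e) (w : Fin n → V) (hw : ∀ i, Sp C l (w i))
    {a b i : Fin n} {t t' : Fin 3} (hab : a ≠ b) (ha : w a = l i t) (hb : w b = l i t') :
    f w ∈ HZ f C l := by
  rcases two_letters f C l h w hab ha hb with h1 | h1 | h1
  · rw [h1]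
    exact zero_mem _
  · rw [h1]
    refine mem_of_C f C l h (update w b e) (sp_update C l hw b (Or.inl h.he)) (s₀ := b) ?_
    rw [update_self]
    exact h.he
  · rw [h1]
    refine mem_of_C f C l h (update w a e) (sp_update C l hw a (Or.inl h.he)) (s₀ := a) ?_
    rw [update_self]
    exact h.he

/-- Case (c). -/
theorem wd_mem {e : V} (h : RelZ f C l e) (t : Fin n → Fin 3) : f (wd l t) ∈ HZ f C l := by
  classical
  have hw : ∀ i, Sp C l (wd l t i) := fun i => Or.inr ⟨i, t i, rfl⟩
  by_cases hex : ∃ s, t s = 2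
  · obtain ⟨s, hs⟩ := hex
    have e0 : wd l t = update (wd l t) s (l s 2) := by
      have h1 : wd l t s = l s 2 := by
        show l s (t s) = l s 2
        rw [hs]
      rw [← h1, update_eq_self]
    have e1 : l s 2 = ∑ i, l i 2 - ∑ i ∈ Finset.univ.erase s, l i 2 := by
      rw [← Finset.add_sum_erase Finset.univ (fun i => l i 2) (Finset.mem_univ s),
        add_sub_cancel_right]
    rw [e0, e1, f.map_update_sub]
    refine sub_mem ?_ ?_
    · exact AddSubgroup.subset_closure (Or.inr ⟨s, t, _, hs, h.sum, rfl⟩)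
    · rw [f.map_update_sum]
      refine sum_mem fun i hi => ?_
      have his : i ≠ s := Finset.ne_of_mem_erase hi
      refine mem_of_two f C l h _ (sp_update C l hw s (Or.inr ⟨i, 2, rfl⟩)) (a := i) (b := s)
        (i := i) (t := t i) (t' := 2) his ?_ ?_
      · rw [update_of_ne his]
        rfl
      · rw [update_self]
  · push Not at hex
    exact AddSubgroup.subset_closure (Or.inl ⟨t, hex, rfl⟩)

/-- All tuples of letters and constants. -/
theorem sp_mem {e : V} (h : RelZ f C l e) (w : Fin n → V) (hw : ∀ i, Sp C l (w i)) :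
    f w ∈ HZ f C l := by
  classical
  by_cases hex : ∃ i, w i ∈ C
  · obtain ⟨i, hi⟩ := hex
    exact mem_of_C f C l h w hw hi
  push Not at hex
  have hB : ∀ a, ∃ i t, w a = l i t := fun a => by
    rcases hw a with h1 | h1
    · exact absurd h1 (hex a)
    · exact h1
  choose i t hi using hB
  by_cases hinj : Injective i
  · have hσb : Bijective i := Finite.injective_iff_bijective.1 hinj
    have ht' : ∀ j : Fin n, ∃ t' : Fin 3, ∀ a, i a = j → w a = l j t' := by
      intro j
      obtain ⟨a, rfl⟩ := hσb.2 j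
      refine ⟨t a, fun b hb => ?_⟩
      rw [hinj hb]
      exact hi a
    choose t' ht' using ht'
    have e1 : w = (wd l t') ∘ Equiv.ofBijective i hσb := by
      funext a
      exact ht' (i a) a rfl
    rw [e1]
    exact P4a177y.SpnYAux.perm_mem f (HZ f C l) (Equiv.ofBijective i hσb) _ (wd_mem f C l h t')
  · simp only [Injective, not_forall] at hinj
    obtain ⟨a, b, hab, hne⟩ := hinj
    have hb' : w b = l (i a) (t b) := by
      rw [hab]
      exact hi b
    exact mem_of_two f C l h w hw hne (hi a) hb'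

end SpnZAux

open SpnZAux

theorem span_mem {n : ℕ} {V G : Type*} [AddCommGroup V] [AddCommGroup G]
    (f : V [⋀^Fin n]→ₗ[ℤ] G) (C : AddSubgroup V) (l : Fin n → Fin 3 → V) {e : V}
    (h : RelZ f C l e) (K : ℕ)
    (hg : ∀ w : V, ∃ κ : Fin n → Fin 3 → ℤ, K • w - ∑ i, ∑ t, κ i t • l i t ∈ C)
    (v : Fin n → V) : K ^ n • f v ∈ HZ f C l := by
  classical
  have hmain : ∀ w : Fin n → V, (∀ i, w i ∈ {x | Sp C l x}) →
      f.toMultilinearMap w ∈ HZ f C l := fun w hw => sp_mem f C l h w hw
  have hcl : ∀ i, (K : ℤ) • v i ∈ AddSubgroup.closure {x | Sp C l x} := by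
    intro i
    obtain ⟨κ, hκ⟩ := hg (v i)
    have e1 : (K : ℤ) • v i = (K • v i - ∑ s, ∑ i, κ s i • l s i) +
        ∑ s, ∑ i, κ s i • l s i := by
      rw [sub_add_cancel, natCast_zsmul]
    rw [e1]
    have hS : ∀ x, Sp C l x → x ∈ AddSubgroup.closure {x | Sp C l x} := fun x hx =>
      AddSubgroup.subset_closure hx
    have h2 : ∀ s i, Sp C l (l s i) := fun s i => Or.inr ⟨s, i, rfl⟩
    exact add_mem (hS _ (Or.inl hκ)) (sum_mem fun s _ =>
      sum_mem fun i _ => AddSubgroup.zsmul_mem _ (hS _ (h2 s i)) _)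
  have h3 := P4a177y.SpnYAux.ml_closure f.toMultilinearMap (fun _ => {x | Sp C l x}) (HZ f C l)
    hmain (fun i => (K : ℤ) • v i) hcl
  have e2 : f.toMultilinearMap (fun i => (K : ℤ) • v i) = (K ^ n) • f v := by
    have h1 := f.toMultilinearMap.map_smul_univ (fun _ => (K : ℤ)) v
    simp only [Finset.prod_const, Finset.card_univ, Fintype.card_fin] at h1
    rw [h1, ← Nat.cast_pow, natCast_zsmul]
    rfl
  rw [e2] at h3
  exact h3

end P4a177z
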