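import Pool.Agent.Lib.P4a177z.DefZ
import Pool.Agent.Lib.P4a177t.Irr
import Pool.Agent.Lib.P4a177x.DomX
import Pool.Agent.Lib.P4a177y.InjY

/-!
# MODULE P4a177z.InjZ: the coordinate ring is a domain; homomorphisms to fields which are injective on the polynomials in all the coordinates but one

PROOFS. `isDomainZ`: `P4a177t.geomIrreducible hm hu` says that the equation is irreducible over `ℂ`; so `eqn m u` is irreducible over `ℚ` (`P4a177x.DomXAux.irreducible_of_map`), prime, `AffRing m u` is a domain
(`Ideal.Quotient.isDomain_iff_prime`, `Ideal.span_singleton_prime`), and `CoordRing m u` is its localisation at the powers of `prodX m u`, which is `≠ 0` (`IsLocalization.isDomain_of_le_nonZeroDivisors` or `isDomain_localization`): `prodX m u ≠ 0`, otherwise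
`eqn m u ∣ ∏ X_i`, so it would divide some `X_j` (prime), impossible: evaluate at `X_j = 0` and the others such that .. (at the point `X = 0` the polynomial `eqn` has the value `± 1`, while a divisor of
`X_j` vanishing at .. : from `X_j = eqn * q` evaluate at `0`: `0 = ± q(0)`; better: compare the degrees in another variable `X_i`, `degreeOf i (eqn) = 2 > 0`; or evaluate at all the points with `X_j = 0`: `∏_{i ≠ j} (y_i ^ 2 - 1) * (-1) * q (y) = 0`, so `q` vanishes for
`X_j = 0`, so `X_j ∣ q`, `X_j = eqn * X_j * q'`, `eqn` would be a unit). Any argument is fine. `injZ`: `φ` is injective if `CoordRing m u` is algebraic over `MvPolynomial (Fin m) ℚ` via `jz m u k`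
(`P4a177y.InjYAux.alg_inj`; for the set up with `letI alg := (jz m u k).toRingHom.toAlgebra` and the subalgebra of the algebraic elements, and the way to get that all elements are algebraic, see the proof of `P4a177y.injY` in
`Lib/P4a177y/InjY.lean`). `x_k` is a root of the nonzero polynomial `P * T ^ 2 - u Q * T - P`, `P = ∏ a (X a ^ 2 - 1)`, `Q = ∏ a, X a` (`x_on`, `Fin.prod_univ_succAbove _ k`); the inverses of the `x_i` are algebraic (inverse of an
algebraic unit: reverse of the polynomial, or `IsAlgebraic.inv`-like after passing to the fraction field; or: every element is `p * (∏ x_i ^ N)⁻¹` by `exists_mul_pow`, so `f * x ^ N` is algebraic, and it is enough to show injectivity on elements of the form `mk m u p`: if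
`φ f = 0` then `φ (f * (∏ x) ^ N) = 0`, and `f * (∏ x) ^ N = 0` implies `f = 0`). `φ (jz m u k H) = eval₂ ι (..) H ≠ 0` is the hypothesis (all the homomorphisms from `ℚ` are equal).
-/

set_option autoImplicit false

namespace P4a177z

open P4a177h P4a177t P4a177x Function MvPolynomial

namespace InjZAux

theorem irr {m : ℕ} (hm : 2 ≤ m) {u : ℤ} (hu : u ≠ 0) : Irreducible (eqn m u) :=
  P4a177x.DomXAux.irreducible_of_map _ (P4a177t.geomIrreducible hm hu)

theorem isDomainAff {m : ℕ} (hm : 2 ≤ m) {u : ℤ} (hu : u ≠ 0) : IsDomain (AffRing m u) := by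
  have h1 := irr hm hu
  show IsDomain (MvPolynomial (Fin (m + 1)) ℚ ⧸ Ideal.span {eqn m u})
  rw [Ideal.Quotient.isDomain_iff_prime, Ideal.span_singleton_prime h1.ne_zero]
  exact h1.prime

/-- a complex point with nonzero coordinates -/
theorem exists_point (m : ℕ) (u : ℤ) : ∃ y : Fin (m + 1) → ℂ, On u y ∧ ∏ i, y i ≠ 0 := by
  have hA : (3 : ℂ) ^ m ≠ 0 := pow_ne_zero _ (by norm_num)
  obtain ⟨s, hs⟩ := IsAlgClosed.exists_pow_nat_eq
    (discrim ((3 : ℂ) ^ m) (-((u : ℂ) * 2 ^ m)) (-(3 : ℂ) ^ m)) (n := 2) (by norm_num)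
  obtain ⟨r, hr⟩ := exists_quadratic_eq_zero (a := (3 : ℂ) ^ m) (b := -((u : ℂ) * 2 ^ m))
    (c := -(3 : ℂ) ^ m) hA ⟨s, by rw [← hs, sq]⟩
  have hr0 : r ≠ 0 := by
    rintro rfl
    rw [mul_zero, mul_zero, mul_zero, zero_add, zero_add, neg_eq_zero] at hr
    exact hA hr
  refine ⟨Fin.cons r fun _ => 2, ?_, ?_⟩
  · unfold On
    rw [Fin.prod_univ_succ, Fin.prod_univ_succ]
    simp only [Fin.cons_zero, Fin.cons_succ, Finset.prod_const, Finset.card_univ,
      Fintype.card_fin]
    have h8 : ((2 : ℂ) ^ 2 - 1) = 3 := by norm_num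
    rw [h8]
    linear_combination hr
  · rw [Fin.prod_univ_succ]
    simp only [Fin.cons_zero, Fin.cons_succ, Finset.prod_const, Finset.card_univ,
      Fintype.card_fin]
    exact mul_ne_zero hr0 (pow_ne_zero _ (by norm_num))

theorem prodX_ne_zero (m : ℕ) (u : ℤ) : prodX m u ≠ 0 := by
  intro h
  obtain ⟨y, hy, hy0⟩ := exists_point m u
  apply hy0
  have h1 : AffRing.lift y hy (prodX m u) = ∏ i, y i := by
    unfold prodX
    rw [map_prod]
    exact Finset.prod_congr rfl fun i _ => by rw [AffRing.lift_mk, MvPolynomial.aeval_X]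
  rw [← h1, h, map_zero]

end InjZAux

theorem isDomainZ {m : ℕ} (hm : 2 ≤ m) {u : ℤ} (hu : u ≠ 0) : IsDomain (CoordRing m u) := by
  have := InjZAux.isDomainAff hm hu
  exact IsLocalization.isDomain_of_le_nonZeroDivisors (CoordRing m u)
    (M := Submonoid.powers (prodX m u)) (powers_le_nonZeroDivisors_of_noZeroDivisors (InjZAux.prodX_ne_zero m u))

theorem injZ {m : ℕ} (hm : 2 ≤ m) {u : ℤ} (hu : u ≠ 0) (k : Fin (m + 1)) {K : Type} [Field K]
    (φ : CoordRing m u →+* K) (ι : ℚ →+* K)
    (h : ∀ H : MvPolynomial (Fin m) ℚ, H ≠ 0 →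
      eval₂ ι (fun a => φ (x m u (k.succAbove a) : CoordRing m u)) H ≠ 0) :
    Injective φ := by
  classical
  have hdom : IsDomain (CoordRing m u) := isDomainZ hm hu
  let alg : Algebra (MvPolynomial (Fin m) ℚ) (CoordRing m u) := (jz m u k).toRingHom.toAlgebra
  have hmap : ∀ H, algebraMap (MvPolynomial (Fin m) ℚ) (CoordRing m u) H = jz m u k H :=
    fun _ => rfl
  set 𝔸 := Subalgebra.algebraicClosure (MvPolynomial (Fin m) ℚ) (CoordRing m u) with h𝔸
  have hxs : ∀ a, (x m u (k.succAbove a) : CoordRing m u) ∈ 𝔸 := by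
    intro a
    rw [← jz_X k a, ← hmap]
    exact 𝔸.algebraMap_mem _
  -- the remaining coordinate is algebraic
  have hxk : (x m u k : CoordRing m u) ∈ 𝔸 := by
    set P : MvPolynomial (Fin m) ℚ := ∏ a, (X a ^ 2 - 1) with hP
    set Q : MvPolynomial (Fin m) ℚ := ∏ a, X a with hQ
    have hP0 : P ≠ 0 := by
      intro h0
      have h1 := congrArg (MvPolynomial.eval (fun _ => (0 : ℚ))) h0
      rw [hP, map_prod, map_zero, Finset.prod_eq_zero_iff] at h1
      obtain ⟨a, _, ha⟩ := h1
      simp at ha
    refine ⟨Polynomial.C P * Polynomial.X ^ 2 - Polynomial.C ((u : MvPolynomial (Fin m) ℚ) * Q) *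
      Polynomial.X - Polynomial.C P, ?_, ?_⟩
    · intro h0
      have h1 := congrArg (Polynomial.eval 0) h0
      simp at h1
      exact hP0 h1
    · have h1 := x_on m u
      unfold On at h1
      rw [Fin.prod_univ_succAbove _ k, Fin.prod_univ_succAbove _ k] at h1
      have hjP : jz m u k P = ∏ a, ((x m u (k.succAbove a) : CoordRing m u) ^ 2 - 1) := by
        rw [hP, map_prod]
        exact Finset.prod_congr rfl fun a _ => by rw [map_sub, map_pow, map_one, jz_X]
      have hjQ : jz m u k Q = ∏ a, (x m u (k.succAbove a) : CoordRing m u) := by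
        rw [hQ, map_prod]
        exact Finset.prod_congr rfl fun a _ => by rw [jz_X]
      simp only [map_sub, map_mul, map_pow, Polynomial.aeval_C, Polynomial.aeval_X, hmap,
        map_intCast]
      rw [hjP, hjQ]
      linear_combination h1
  have hall : ∀ i, (x m u i : CoordRing m u) ∈ 𝔸 := by
    intro i
    by_cases hi : i = k
    · rw [hi]
      exact hxk
    · obtain ⟨a, rfl⟩ := Fin.exists_succAbove_eq hi
      exact hxs a
  have hmk : ∀ p : MvPolynomial (Fin (m + 1)) ℚ, mk m u p ∈ 𝔸 := by
    intro p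
    induction p using MvPolynomial.induction_on with
    | C c =>
      have h1 : mk m u (C c) = algebraMap (MvPolynomial (Fin m) ℚ) (CoordRing m u) (C c) :=
        RingHom.congr_fun (RingHom.ext_rat ((mk m u).comp C)
          ((algebraMap (MvPolynomial (Fin m) ℚ) (CoordRing m u)).comp C)) c
      rw [h1]
      exact 𝔸.algebraMap_mem _
    | add p q hp hq =>
      rw [map_add]
      exact 𝔸.add_mem hp hq
    | mul_X p j hp =>
      rw [map_mul, ← x_val]
      exact 𝔸.mul_mem hp (hall j)
  -- the polynomials in the coordinates but one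
  have hφ : ∀ H : MvPolynomial (Fin m) ℚ, H ≠ 0 → φ (jz m u k H) ≠ 0 := by
    intro H hH
    have h1 : (φ.comp (jz m u k).toRingHom) =
        eval₂Hom ι (fun a => φ (x m u (k.succAbove a) : CoordRing m u)) := by
      apply MvPolynomial.ringHom_ext
      · intro c
        exact RingHom.congr_fun (RingHom.ext_rat ((φ.comp (jz m u k).toRingHom).comp C)
          ((eval₂Hom ι (fun a => φ (x m u (k.succAbove a) : CoordRing m u))).comp C)) c
      · intro a
        rw [coe_eval₂Hom, eval₂_X]
        exact congrArg φ (jz_X k a)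
    have h2 : φ (jz m u k H) =
        eval₂ ι (fun a => φ (x m u (k.succAbove a) : CoordRing m u)) H :=
      RingHom.congr_fun h1 H
    rw [h2]
    exact h H hH
  have key : ∀ r : CoordRing m u, r ∈ 𝔸 → φ r = 0 → r = 0 := by
    intro r hr hr0
    by_contra hne
    refine Ideal.comap_ne_bot_of_algebraic_mem (I := RingHom.ker φ) hne
      ((RingHom.mem_ker).2 hr0) hr ?_
    rw [eq_bot_iff]
    intro s hs
    rw [Ideal.mem_comap, RingHom.mem_ker] at hs
    by_contra hs0
    exact hφ s hs0 hs
  rw [injective_iff_map_eq_zero]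
  intro f hf
  obtain ⟨p, N, hp⟩ := exists_mul_pow f
  have h1 : mk m u p = 0 := by
    apply key _ (hmk p)
    rw [← hp, map_mul, hf, zero_mul]
  rw [h1] at hp
  have h2 : IsUnit (mk m u (∏ i, MvPolynomial.X i) ^ N) := by
    refine IsUnit.pow N ?_
    rw [map_prod]
    have h3 : ∏ i, mk m u (MvPolynomial.X i) = ((∏ i, x m u i : (CoordRing m u)ˣ) :
        CoordRing m u) := by
      rw [Units.coe_prod]
      exact Finset.prod_congr rfl fun i _ => (x_val i).symm
    rw [h3]
    exact Units.isUnit _
  exact (h2.mul_left_eq_zero).1 hp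

end P4a177z
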