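import Pool.Agent.Lib.P4a177z.DefZ

/-!
# MODULE P4a177z.IndZ: independence of the coordinates at the place

PROOF. Let `F = KZ (m + 1)`, `G : Fin m → F`, `G a = if b (i₀.succAbove ..)`...: precisely put `g v = if b v = true then 1 + 2 * zz v else zz v` for `v : Fin (m + 1)`. (1) Polynomials in one variable: let
`Y a : Polynomial F`, `Y a = if j₀.succAbove a = i₀ then X else C (g (j₀.succAbove a))`. The ring homomorphism `F[X] → LaurentSeries F` (`Polynomial.coeToPowerSeries.ringHom`, then `HahnSeries.ofPowerSeries ℤ F`) is injective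
(`Polynomial.coe_injective`, `HahnSeries.ofPowerSeries_injective`) and maps `Y a` to `y (j₀.succAbove a)` (`HahnSeries.ofPowerSeries_X`, `HahnSeries.ofPowerSeries_C`), so it maps `eval₂ κ Y H` to the element in question (`MvPolynomial.eval₂_comp_left` or
`map_eval₂Hom`; all the homomorphisms `ℚ →+* _` are equal, `Subsingleton.elim` / `RingHom.ext_rat`). So it suffices: `eval₂ κ Y H ≠ 0` in `F[X]`. (2) Evaluate at `X = zz i₀`: the value is `eval₂ (algebraMap ℚ F) (fun a => g' (j₀.succAbove a)) H`,
`g' v = if v = i₀ then zz i₀ else g v`, i.e. the image under `algebraMap (MvPolynomial (Fin (m + 1)) ℚ) F` (injective) of `aeval (fun a => if j₀.succAbove a = i₀ ∨ b .. = false then X .. else 1 + 2 * X ..) H`. (3) This polynomial is `≠ 0`: it is the image of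
`rename j₀.succAbove H ≠ 0` (`rename_injective`, `Fin.succAbove_right_injective`) under the endomorphism of the polynomial ring which maps the variables `v` with `b v = true`, `v ≠ i₀` to `1 + 2 X v` and fixes the others; it has
the left inverse `X v ↦ (X v - 1) / 2 = C (1/2) * (X v - 1)` (compare `shift_ne_zero` in `Lib/P4a177y/InjY.lean`).
-/

set_option autoImplicit false

namespace P4a177z

open P4a177h P4a177t P4a177x Function MvPolynomial

namespace IndZAux

/-- the affine substitution is injective -/
lemma aff_ne_zero {r : ℕ} (A : Fin r → Prop) [DecidablePred A] (H : MvPolynomial (Fin r) ℚ)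
    (hH : H ≠ 0) :
    aeval (fun v => if A v then (X v : MvPolynomial (Fin r) ℚ) else 1 + 2 * X v) H ≠ 0 := by
  set τ : MvPolynomial (Fin r) ℚ →ₐ[ℚ] MvPolynomial (Fin r) ℚ :=
    aeval (fun v => if A v then (X v : MvPolynomial (Fin r) ℚ) else 1 + 2 * X v) with hτ
  set σ : MvPolynomial (Fin r) ℚ →ₐ[ℚ] MvPolynomial (Fin r) ℚ :=
    aeval (fun v => if A v then (X v : MvPolynomial (Fin r) ℚ) else C (1 / 2) * (X v - 1)) with hσ
  have hστ : ∀ G, σ (τ G) = G := by
    intro G
    have h : σ.comp τ = AlgHom.id ℚ _ := by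
      apply MvPolynomial.algHom_ext
      intro v
      rw [AlgHom.comp_apply, AlgHom.id_apply, hτ, aeval_X]
      by_cases hv : A v
      · rw [if_pos hv, hσ, aeval_X, if_pos hv]
      · rw [if_neg hv, map_add, map_one, map_mul, map_ofNat, hσ, aeval_X, if_neg hv,
          ← mul_assoc]
        have h2 : (2 : MvPolynomial (Fin r) ℚ) * C (1 / 2) = 1 := by
          have h3 : (2 : MvPolynomial (Fin r) ℚ) = C 2 := (map_ofNat C 2).symm
          rw [h3, ← C_mul]
          norm_num
        rw [h2]
        ring
    exact DFunLike.congr_fun h G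
  intro h
  apply hH
  rw [← hστ H, h, map_zero]

end IndZAux

open IndZAux in
theorem indZ {m : ℕ} (b : Fin (m + 1) → Bool) (i₀ j₀ : Fin (m + 1)) (hij : i₀ ≠ j₀)
    (y : Fin (m + 1) → LaurentSeries (KZ (m + 1)))
    (hy : ∀ a, a ≠ j₀ → y a = if a = i₀ then HahnSeries.single (1 : ℤ) 1 else
      HahnSeries.C (if b a = true then 1 + 2 * zz a else zz a))
    (ι : ℚ →+* LaurentSeries (KZ (m + 1))) (H : MvPolynomial (Fin m) ℚ) (hH : H ≠ 0) :
    eval₂ ι (fun a => y (j₀.succAbove a)) H ≠ 0 := by
  classical
  set F := KZ (m + 1) with hF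
  -- the letters as polynomials
  set g : Fin (m + 1) → MvPolynomial (Fin (m + 1)) ℚ :=
    fun v => if (v = i₀ ∨ b v ≠ true) then X v else 1 + 2 * X v with hg
  set Y : Fin (m + 1) → Polynomial F := fun v => if v = i₀ then Polynomial.X else
    Polynomial.C (algebraMap (MvPolynomial (Fin (m + 1)) ℚ) F (g v)) with hY
  set κ : ℚ →+* Polynomial F := Polynomial.C.comp (algebraMap ℚ F) with hκ
  set Θ : Polynomial F →+* LaurentSeries F :=
    (HahnSeries.ofPowerSeries ℤ F).comp Polynomial.coeToPowerSeries.ringHom with hΘ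
  have hΘinj : Injective Θ := by
    intro p q hpq
    apply Polynomial.coe_injective F
    exact HahnSeries.ofPowerSeries_injective hpq
  have hΘY : ∀ v, v ≠ j₀ → Θ (Y v) = y v := by
    intro v hv
    rw [hy v hv, hY]
    dsimp only
    by_cases h : v = i₀
    · rw [if_pos h, if_pos h, hΘ, RingHom.comp_apply, Polynomial.coeToPowerSeries.ringHom_apply,
        Polynomial.coe_X, HahnSeries.ofPowerSeries_X]
    · rw [if_neg h, if_neg h, hΘ, RingHom.comp_apply, Polynomial.coeToPowerSeries.ringHom_apply,
        Polynomial.coe_C, HahnSeries.ofPowerSeries_C]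
      congr 1
      rw [hg]
      dsimp only
      by_cases hb : b v = true
      · rw [if_neg (by simp [h, hb]), if_pos hb, map_add, map_one, map_mul, map_ofNat]
        rfl
      · rw [if_pos (Or.inr hb), if_neg hb]
        rfl
  have h1 : eval₂ ι (fun a => y (j₀.succAbove a)) H =
      Θ (eval₂ κ (fun a => Y (j₀.succAbove a)) H) := by
    have h : eval₂Hom ι (fun a => y (j₀.succAbove a)) =
        Θ.comp (eval₂Hom κ (fun a => Y (j₀.succAbove a))) := by
      apply MvPolynomial.ringHom_ext
      · intro c
        exact RingHom.congr_fun (Subsingleton.elim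
          ((eval₂Hom ι (fun a => y (j₀.succAbove a))).comp C)
          ((Θ.comp (eval₂Hom κ (fun a => Y (j₀.succAbove a)))).comp C)) c
      · intro a
        rw [RingHom.comp_apply, eval₂Hom_X', eval₂Hom_X', hΘY _ (Fin.succAbove_ne j₀ a)]
    exact RingHom.congr_fun h H
  -- the value at `zz i₀`
  have h2 : Polynomial.evalRingHom (zz i₀ : F) (eval₂ κ (fun a => Y (j₀.succAbove a)) H) =
      algebraMap (MvPolynomial (Fin (m + 1)) ℚ) F
        (aeval g (rename j₀.succAbove H)) := by
    have h : (Polynomial.evalRingHom (zz i₀ : F)).comp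
        (eval₂Hom κ (fun a => Y (j₀.succAbove a))) =
        ((algebraMap (MvPolynomial (Fin (m + 1)) ℚ) F).comp (aeval g).toRingHom).comp
          (rename j₀.succAbove : MvPolynomial (Fin m) ℚ →ₐ[ℚ] _).toRingHom := by
      apply MvPolynomial.ringHom_ext
      · intro c
        exact RingHom.congr_fun (Subsingleton.elim
          (((Polynomial.evalRingHom (zz i₀ : F)).comp
            (eval₂Hom κ (fun a => Y (j₀.succAbove a)))).comp C)
          ((((algebraMap (MvPolynomial (Fin (m + 1)) ℚ) F).comp (aeval g).toRingHom).comp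
            (rename j₀.succAbove : MvPolynomial (Fin m) ℚ →ₐ[ℚ] _).toRingHom).comp C)) c
      · intro a
        rw [RingHom.comp_apply, eval₂Hom_X', RingHom.comp_apply, RingHom.comp_apply]
        have h3 : (rename j₀.succAbove : MvPolynomial (Fin m) ℚ →ₐ[ℚ] _).toRingHom (X a) =
            X (j₀.succAbove a) := rename_X _ _
        have h4 : (aeval (R := ℚ) g).toRingHom (X (j₀.succAbove a)) = g (j₀.succAbove a) :=
          aeval_X _ _
        rw [h3, h4, hY]
        dsimp only
        by_cases h5 : j₀.succAbove a = i₀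
        · rw [if_pos h5, Polynomial.coe_evalRingHom, Polynomial.eval_X, hg]
          dsimp only
          rw [if_pos (Or.inl h5), h5]
          rfl
        · rw [if_neg h5, Polynomial.coe_evalRingHom, Polynomial.eval_C]
    exact RingHom.congr_fun h H
  rw [h1]
  intro h0
  have h3 : eval₂ κ (fun a => Y (j₀.succAbove a)) H = 0 := by
    apply hΘinj
    rw [h0, map_zero]
  rw [h3, map_zero] at h2
  have h4 : aeval (R := ℚ) g (rename j₀.succAbove H) = 0 := by
    apply IsFractionRing.injective (MvPolynomial (Fin (m + 1)) ℚ) F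
    rw [← h2, map_zero]
  refine aff_ne_zero (fun v => v = i₀ ∨ b v ≠ true) (rename j₀.succAbove H) ?_ h4
  intro h5
  apply hH
  apply rename_injective j₀.succAbove (Fin.succAbove_right_injective)
  rw [h5, map_zero]

end P4a177z
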