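import Pool.Agent.Lib.P4a177z.PntZ
import Pool.Agent.Lib.P4a177z.IndZ
import Pool.Agent.Lib.P4a177z.FldZ

/-!
# MODULE P4a177z.NrmB: the coordinates `x_i`, `i ≠ k`, are algebraically independent

PROOF. Take `i₀ ≠ k` (`m ≥ 1`), `b i = decide (i ≠ i₀)`, `Λ` from `exists_goodLead`, `y` from `exists_pointZ hu b i₀ k`, `φ = lift y` (`P4a177t.lift`, `lift_x`). `φ (jz m u k H) = eval₂ ι (fun a => y (k.succAbove a)) H` for any `ι : ℚ →+* _` (`MvPolynomial` homomorphism extensionality; `jz_X`), which is `≠ 0` for `H ≠ 0` by `indZ`.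
-/

set_option autoImplicit false

namespace P4a177z

open P4a177h P4a177t P4a177x Function MvPolynomial

theorem jz_injective {m : ℕ} (hm : 1 ≤ m) {u : ℤ} (hu : u ≠ 0) (k : Fin (m + 1)) :
    Injective (jz m u k) := by
  classical
  obtain ⟨i₀, hi₀⟩ : ∃ i₀ : Fin (m + 1), i₀ ≠ k := by
    have : Nontrivial (Fin (m + 1)) := Fin.nontrivial_iff_two_le.2 (by omega)
    exact exists_ne k
  obtain ⟨b, hb⟩ : ∃ b : Fin (m + 1) → Bool, b = fun i => decide (i ≠ i₀) := ⟨_, rfl⟩
  have hbi : b i₀ = false := by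
    rw [hb]
    exact decide_eq_false (not_not_intro rfl)
  have hbk : b k = true := by
    rw [hb]
    exact decide_eq_true hi₀.symm
  obtain ⟨Λ, hΛ⟩ := exists_goodLead (m + 1)
  obtain ⟨y, U, c, hon, hya, -⟩ := exists_pointZ hu b i₀ k hbi hbk Λ hΛ
  rw [injective_iff_map_eq_zero]
  intro H hH
  by_contra hne
  refine indZ b i₀ k hi₀ (fun i => (y i : LaurentSeries (KZ (m + 1)))) hya (algebraMap ℚ _) H hne ?_
  have h1 : (lift y hon).comp (jz m u k).toRingHom =
      eval₂Hom (algebraMap ℚ (LaurentSeries (KZ (m + 1))))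
        (fun a => (y (k.succAbove a) : LaurentSeries (KZ (m + 1)))) := by
    apply MvPolynomial.ringHom_ext
    · intro q
      exact RingHom.congr_fun (Subsingleton.elim
        (((lift y hon).comp (jz m u k).toRingHom).comp C)
        ((eval₂Hom (algebraMap ℚ (LaurentSeries (KZ (m + 1))))
          (fun a => (y (k.succAbove a) : LaurentSeries (KZ (m + 1))))).comp C)) q
    · intro a
      rw [eval₂Hom_X', RingHom.comp_apply]
      show lift y hon (jz m u k (X a)) = _
      rw [jz_X, lift_x]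
  have h2 := RingHom.congr_fun h1 H
  rw [coe_eval₂Hom] at h2
  rw [← h2, RingHom.comp_apply]
  show lift y hon (jz m u k H) = 0
  rw [hH, map_zero]

end P4a177z
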