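import Pool.Agent.Lib.P4a177z.DefZ

/-!
# MODULE P4a177z.PelA: the solutions of the Pell equation have no poles

PROOF. Let `F = KZ m`, `T = single 1 1` in `LaurentSeries F`. For an index `j : Fin m` and a series `g` let `Φ : KZ m →+* LaurentSeries F` be the homomorphism with `zz a ↦ C (zz a)` for `a ≠ j` and `zz j ↦ g` (given). Let `k ≠ j` (exists by `2 ≤ m`); `τ k` acts on `LaurentSeries F` through the coefficients
(`HahnSeries.map`), `Φ (τ k f) = σ (Φ f)`. The leading coefficient of `R = Φ (rhoZ m u) ^ 2 + 4` is a square `r ^ 2` with `r ∈ F`, `τ k r = r`. Suppose `Φ s` has order `- e < 0` with leading coefficient `s₀`. Then `Φ s ^ 2 - 4` has the leading coefficient `s₀ ^ 2`, and it is equal to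
`Φ q ^ 2 * R`: `s₀ ^ 2 = q₀ ^ 2 r ^ 2` with the leading coefficient `q₀` of `Φ q`. `σ (Φ s) = Φ s` and `σ (Φ q) = - Φ q`, so `τ k s₀ = s₀`, `τ k q₀ = - q₀`. From `s₀ = ± q₀ r`: apply `τ k`: `s₀ = ∓ q₀ r = - s₀`, so `s₀ = 0`, contradiction.
-/

set_option autoImplicit false

namespace P4a177z

open P4a177h P4a177t P4a177x Function MvPolynomial

namespace PelAAux

open HahnSeries

section General

variable {F : Type*} [Field F]

/-- the action on the coefficients -/
noncomputable def sg (t : F →+* F) : LaurentSeries F →+* LaurentSeries F where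
  toFun x := HahnSeries.map x t
  map_one' := by
    ext n
    rw [HahnSeries.map_coeff, HahnSeries.coeff_one]
    split_ifs <;> simp
  map_mul' x y := HahnSeries.map_mul (t : F →ₙ+* F)
  map_zero' := by
    ext n
    simp
  map_add' x y := by
    ext n
    simp

theorem sg_coeff (t : F →+* F) (x : LaurentSeries F) (n : ℤ) :
    (sg t x).coeff n = t (x.coeff n) := rfl

theorem sg_order (t : F →+* F) (x : LaurentSeries F) : (sg t x).order = x.order := by
  by_cases hx : x = 0
  · rw [hx, map_zero]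
  · have h1 : (sg t x).coeff x.order ≠ 0 := by
      rw [sg_coeff]
      intro h
      exact (HahnSeries.leadingCoeff_ne_zero.2 hx) (by
        rw [HahnSeries.leadingCoeff_eq]
        exact (map_eq_zero t).1 h)
    have h2 : sg t x ≠ 0 := HahnSeries.ne_zero_of_coeff_ne_zero h1
    apply le_antisymm
    · exact HahnSeries.order_le_of_coeff_ne_zero h1
    · apply HahnSeries.order_le_of_coeff_ne_zero
      intro h3
      apply HahnSeries.leadingCoeff_ne_zero.2 h2
      rw [HahnSeries.leadingCoeff_eq, sg_coeff, h3, map_zero]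

theorem sg_lead (t : F →+* F) (x : LaurentSeries F) :
    (sg t x).leadingCoeff = t x.leadingCoeff := by
  rw [HahnSeries.leadingCoeff_eq, HahnSeries.leadingCoeff_eq, sg_order, sg_coeff]

theorem sg_single (t : F →+* F) (n : ℤ) (a : F) :
    sg t (HahnSeries.single n a) = HahnSeries.single n (t a) := by
  ext i
  rw [sg_coeff]
  by_cases h : i = n
  · rw [h, HahnSeries.coeff_single_same, HahnSeries.coeff_single_same]
  · rw [HahnSeries.coeff_single_of_ne h, HahnSeries.coeff_single_of_ne h, map_zero]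

/-- the sum of a series and a series of larger order -/
theorem add_lead (x y : LaurentSeries F) (hx : x ≠ 0) (h : y = 0 ∨ x.order < y.order) :
    x + y ≠ 0 ∧ (x + y).order = x.order ∧ (x + y).leadingCoeff = x.leadingCoeff := by
  have h1 : x.orderTop < y.orderTop := by
    by_cases hy : y = 0
    · rw [hy, HahnSeries.orderTop_zero, lt_top_iff_ne_top]
      exact HahnSeries.orderTop_ne_top.2 hx
    · rcases h with h | h
      · exact absurd h hy
      · rw [← HahnSeries.order_eq_orderTop_of_ne_zero hx,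
          ← HahnSeries.order_eq_orderTop_of_ne_zero hy]
        exact WithTop.coe_lt_coe.2 h
  have h2 : (x + y).leadingCoeff = x.leadingCoeff := HahnSeries.leadingCoeff_add_eq_left h1
  have h3 : x + y ≠ 0 := by
    rw [← HahnSeries.leadingCoeff_ne_zero, h2]
    exact HahnSeries.leadingCoeff_ne_zero.2 hx
  refine ⟨h3, ?_, h2⟩
  have h4 : (x + y).orderTop = x.orderTop := HahnSeries.orderTop_add_eq_left h1
  rw [← HahnSeries.order_eq_orderTop_of_ne_zero hx,
    ← HahnSeries.order_eq_orderTop_of_ne_zero h3] at h4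
  exact WithTop.coe_injective h4

theorem C_ne {a : F} (ha : a ≠ 0) : (HahnSeries.C a : LaurentSeries F) ≠ 0 :=
  HahnSeries.single_ne_zero ha

theorem C_lead (a : F) : (HahnSeries.C a : LaurentSeries F).leadingCoeff = a :=
  HahnSeries.leadingCoeff_of_single

/-- the four cases -/
theorem four [CharZero F] {g : LaurentSeries F}
    (hg : g = HahnSeries.single (1 : ℤ) 1 ∨ g = HahnSeries.single (-1 : ℤ) 1 ∨
      g = 1 + HahnSeries.single (1 : ℤ) 1 ∨ g = -1 + HahnSeries.single (1 : ℤ) 1) :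
    g ≠ 0 ∧ g ^ 2 - 1 ≠ 0 ∧ ((g / (g ^ 2 - 1)).order = 1 ∨
      ((g / (g ^ 2 - 1)).order = -1 ∧ (g / (g ^ 2 - 1)).leadingCoeff = 1 / 2)) := by
  have hT : (HahnSeries.single (1 : ℤ) (1 : F)) ≠ 0 := HahnSeries.single_ne_zero one_ne_zero
  have hTo : (HahnSeries.single (1 : ℤ) (1 : F)).order = 1 := HahnSeries.order_single one_ne_zero
  have hTl : (HahnSeries.single (1 : ℤ) (1 : F)).leadingCoeff = 1 :=
    HahnSeries.leadingCoeff_of_single
  have key : ∀ (g d : LaurentSeries F), g ≠ 0 → d ≠ 0 →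
      (g / d).order = g.order - d.order ∧ (g / d).leadingCoeff = g.leadingCoeff / d.leadingCoeff := by
    intro g d hg hd
    have h1 : g / d * d = g := div_mul_cancel₀ g hd
    have h2 : g / d ≠ 0 := div_ne_zero hg hd
    constructor
    · have h3 := HahnSeries.order_mul h2 hd
      rw [h1] at h3
      omega
    · have h3 := HahnSeries.leadingCoeff_mul (g / d) d
      rw [h1] at h3
      rw [h3, mul_div_cancel_right₀]
      exact HahnSeries.leadingCoeff_ne_zero.2 hd
  have one_o : (1 : LaurentSeries F).order = 0 := HahnSeries.order_one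
  have m1 : (-1 : LaurentSeries F) ≠ 0 := neg_ne_zero.2 one_ne_zero
  have m1o : (-1 : LaurentSeries F).order = 0 := by rw [HahnSeries.order_neg, one_o]
  rcases hg with rfl | rfl | rfl | rfl
  · -- `T`
    have h1 : (HahnSeries.single (1 : ℤ) (1 : F)) ^ 2 - 1 =
        -1 + (HahnSeries.single (1 : ℤ) (1 : F)) ^ 2 := by ring
    obtain ⟨h2, h3, h4⟩ := add_lead (-1 : LaurentSeries F)
      ((HahnSeries.single (1 : ℤ) (1 : F)) ^ 2) m1 (Or.inr (by
        rw [m1o, HahnSeries.order_pow, hTo]; norm_num))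
    rw [h1]
    refine ⟨hT, h2, Or.inl ?_⟩
    rw [(key _ _ hT h2).1, h3, m1o, hTo, sub_zero]
  · -- `T⁻¹`
    have hI : (HahnSeries.single (-1 : ℤ) (1 : F)) ≠ 0 := HahnSeries.single_ne_zero one_ne_zero
    have hIo : (HahnSeries.single (-1 : ℤ) (1 : F)).order = -1 :=
      HahnSeries.order_single one_ne_zero
    obtain ⟨h2, h3, h4⟩ := add_lead ((HahnSeries.single (-1 : ℤ) (1 : F)) ^ 2) (-1)
      (pow_ne_zero 2 hI) (Or.inr (by rw [m1o, HahnSeries.order_pow, hIo]; norm_num))
    rw [sub_eq_add_neg]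
    refine ⟨hI, h2, Or.inl ?_⟩
    rw [(key _ _ hI h2).1, h3, HahnSeries.order_pow, hIo]
    norm_num
  · -- `1 + T`
    have h2o : (HahnSeries.C (2 : F) : LaurentSeries F).order = 0 := HahnSeries.order_C
    have h2n : (HahnSeries.C (2 : F) : LaurentSeries F) ≠ 0 := C_ne two_ne_zero
    obtain ⟨g2, g3, g4⟩ := add_lead (1 : LaurentSeries F) (HahnSeries.single (1 : ℤ) (1 : F))
      one_ne_zero (Or.inr (by rw [one_o, hTo]; norm_num))
    obtain ⟨h2, h3, h4⟩ := add_lead (HahnSeries.C (2 : F) : LaurentSeries F)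
      (HahnSeries.single (1 : ℤ) (1 : F)) h2n (Or.inr (by rw [h2o, hTo]; norm_num))
    have h1 : ((1 : LaurentSeries F) + HahnSeries.single (1 : ℤ) (1 : F)) ^ 2 - 1 =
        HahnSeries.single (1 : ℤ) (1 : F) * (HahnSeries.C (2 : F) + HahnSeries.single (1 : ℤ) (1 : F)) := by
      rw [map_ofNat]
      ring
    rw [h1]
    have h5 := mul_ne_zero hT h2
    refine ⟨g2, h5, Or.inr ⟨?_, ?_⟩⟩
    · rw [(key _ _ g2 h5).1, g3, HahnSeries.order_mul hT h2, h3, h2o, one_o, hTo]
      norm_num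
    · rw [(key _ _ g2 h5).2, g4, HahnSeries.leadingCoeff_mul, h4, C_lead, hTl, HahnSeries.leadingCoeff_one,
        one_mul]
  · -- `-1 + T`
    have h2o : (HahnSeries.C (-2 : F) : LaurentSeries F).order = 0 := HahnSeries.order_C
    have h2n : (HahnSeries.C (-2 : F) : LaurentSeries F) ≠ 0 := C_ne (neg_ne_zero.2 two_ne_zero)
    obtain ⟨g2, g3, g4⟩ := add_lead (-1 : LaurentSeries F) (HahnSeries.single (1 : ℤ) (1 : F))
      m1 (Or.inr (by rw [m1o, hTo]; norm_num))
    obtain ⟨h2, h3, h4⟩ := add_lead (HahnSeries.C (-2 : F) : LaurentSeries F)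
      (HahnSeries.single (1 : ℤ) (1 : F)) h2n (Or.inr (by rw [h2o, hTo]; norm_num))
    have h1 : ((-1 : LaurentSeries F) + HahnSeries.single (1 : ℤ) (1 : F)) ^ 2 - 1 =
        HahnSeries.single (1 : ℤ) (1 : F) * (HahnSeries.C (-2 : F) + HahnSeries.single (1 : ℤ) (1 : F)) := by
      rw [map_neg, map_ofNat]
      ring
    rw [h1]
    have h5 := mul_ne_zero hT h2
    refine ⟨g2, h5, Or.inr ⟨?_, ?_⟩⟩
    · rw [(key _ _ g2 h5).1, g3, HahnSeries.order_mul hT h2, h3, h2o, m1o, hTo]
      norm_num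
    · rw [(key _ _ g2 h5).2, g4, HahnSeries.leadingCoeff_mul, h4, C_lead, hTl,
        HahnSeries.leadingCoeff_neg, HahnSeries.leadingCoeff_one, one_mul, neg_div_neg_eq]

end General

theorem zz_ne {m : ℕ} (a : Fin m) : (zz a : KZ m) ≠ 0 := by
  unfold zz
  rw [Ne, FaithfulSMul.algebraMap_eq_zero_iff]
  exact MvPolynomial.X_ne_zero a

theorem zz_sq_ne {m : ℕ} (a : Fin m) : (zz a : KZ m) ^ 2 - 1 ≠ 0 := by
  have h1 : (zz a : KZ m) ^ 2 - 1 = algebraMap (MvPolynomial (Fin m) ℚ) (KZ m) (X a ^ 2 - 1) := by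
    unfold zz
    rw [map_sub, map_pow, map_one]
  rw [h1, Ne, FaithfulSMul.algebraMap_eq_zero_iff]
  intro h2
  have h3 := congrArg (MvPolynomial.eval fun _ => (0 : ℚ)) h2
  simp at h3

/-- the homomorphisms commute with the expansion -/
theorem comm {m : ℕ} (τ : Fin m → (KZ m →+* KZ m))
    (hτ : ∀ k a, τ k (zz a) = if a = k then -(zz a)⁻¹ else zz a) (j k : Fin m) (hk : k ≠ j)
    (g : LaurentSeries (KZ m))
    (hg : g = HahnSeries.single (1 : ℤ) 1 ∨ g = HahnSeries.single (-1 : ℤ) 1 ∨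
      g = 1 + HahnSeries.single (1 : ℤ) 1 ∨ g = -1 + HahnSeries.single (1 : ℤ) 1)
    (Φ : KZ m →+* LaurentSeries (KZ m)) (hΦ : ∀ a, a ≠ j → Φ (zz a) = HahnSeries.C (zz a))
    (hΦj : Φ (zz j) = g) (f : KZ m) : Φ (τ k f) = sg (τ k) (Φ f) := by
  have h : Φ.comp (τ k) = (sg (τ k)).comp Φ := by
    apply IsLocalization.ringHom_ext (nonZeroDivisors (MvPolynomial (Fin m) ℚ))
    apply MvPolynomial.ringHom_ext
    · intro r
      have h1 : ∀ (e : ℚ →+* LaurentSeries (KZ m)) (e' : ℚ →+* LaurentSeries (KZ m)), e = e' :=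
        fun e e' => Subsingleton.elim _ _
      exact congrArg (fun e : ℚ →+* LaurentSeries (KZ m) => e r)
        (h1 (((Φ.comp (τ k)).comp (algebraMap (MvPolynomial (Fin m) ℚ) (KZ m))).comp MvPolynomial.C)
          ((((sg (τ k)).comp Φ).comp (algebraMap (MvPolynomial (Fin m) ℚ) (KZ m))).comp
            MvPolynomial.C))
    · intro a
      change Φ (τ k (zz a)) = sg (τ k) (Φ (zz a))
      rw [hτ]
      by_cases ha : a = j
      · subst ha
        rw [if_neg (fun h => hk h.symm), hΦj]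
        rcases hg with rfl | rfl | rfl | rfl
        · rw [sg_single, RingHom.map_one]
        · rw [sg_single, RingHom.map_one]
        · rw [RingHom.map_add, sg_single, RingHom.map_one, RingHom.map_one]
        · rw [RingHom.map_add, RingHom.map_neg, sg_single, RingHom.map_one, RingHom.map_one]
      · rw [hΦ a ha]
        have h2 : sg (τ k) (HahnSeries.C (zz a)) = HahnSeries.C (τ k (zz a)) := sg_single _ _ _
        rw [h2, hτ]
        split_ifs with h3
        · rw [map_neg, map_inv₀, hΦ a ha, map_neg, map_inv₀]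
        · exact hΦ a ha
  exact congrArg (fun e : KZ m →+* LaurentSeries (KZ m) => e f) h

end PelAAux

open PelAAux in
theorem pell_polesZ {m : ℕ} (hm : 2 ≤ m) {u : ℤ} (hu : u ≠ 0) (τ : Fin m → (KZ m →+* KZ m))
    (hτ : ∀ k a, τ k (zz a) = if a = k then -(zz a)⁻¹ else zz a) (s q : KZ m)
    (h1 : ∀ k, τ k s = s) (h2 : ∀ k, τ k q = -q)
    (h3 : s ^ 2 - 4 = q ^ 2 * (rhoZ m u ^ 2 + 4)) (j : Fin m)
    (g : LaurentSeries (KZ m))
    (hg : g = HahnSeries.single (1 : ℤ) 1 ∨ g = HahnSeries.single (-1 : ℤ) 1 ∨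
      g = 1 + HahnSeries.single (1 : ℤ) 1 ∨ g = -1 + HahnSeries.single (1 : ℤ) 1)
    (Φ : KZ m →+* LaurentSeries (KZ m)) (hΦ : ∀ a, a ≠ j → Φ (zz a) = HahnSeries.C (zz a))
    (hΦj : Φ (zz j) = g) : 0 ≤ (Φ s).order := by
  classical
  obtain ⟨k, hk⟩ : ∃ k : Fin m, k ≠ j := by
    have _ : Nontrivial (Fin m) := Fin.nontrivial_iff_two_le.2 hm
    exact exists_ne j
  have hcomm := comm τ hτ j k hk g hg Φ hΦ hΦj
  have _ : CharZero (KZ m) := inferInstance
  obtain ⟨hg0, hd0, hcase⟩ := four hg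
  -- the constant
  set c : KZ m := (u : KZ m) * ∏ a ∈ Finset.univ.erase j, (zz a / (zz a ^ 2 - 1)) with hc
  have hc0 : c ≠ 0 := by
    rw [hc]
    apply mul_ne_zero
    · exact_mod_cast hu
    · rw [Finset.prod_ne_zero_iff]
      intro a _
      exact div_ne_zero (zz_ne a) (zz_sq_ne a)
  have hcτ : τ k c = c := by
    rw [hc, map_mul, map_intCast, map_prod]
    congr 1
    apply Finset.prod_congr rfl
    intro a _
    rw [map_div₀, map_sub, map_pow, map_one, hτ]
    split_ifs with ha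
    · have e1 := zz_ne a
      have e2 := zz_sq_ne a
      have e3 : (-(zz a : KZ m)⁻¹) ^ 2 - 1 ≠ 0 := by
        intro h
        apply e2
        field_simp at h
        linear_combination -h
      rw [div_eq_div_iff e3 e2]
      field_simp
      ring
    · rfl
  have hA : Φ (rhoZ m u) = HahnSeries.C c * (g / (g ^ 2 - 1)) := by
    have e1 : rhoZ m u = c * (zz j / (zz j ^ 2 - 1)) := by
      have e0 : rhoZ m u = (u : KZ m) * ((∏ a, zz a) / ∏ a, (zz a ^ 2 - 1)) := by
        unfold rhoZ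
        rw [mul_div_assoc]
      rw [e0, hc, mul_assoc, Finset.prod_erase_mul _ _ (Finset.mem_univ j), Finset.prod_div_distrib]
    have e2 : Φ c = HahnSeries.C c := by
      rw [hc, map_mul, map_mul, map_intCast, map_intCast, map_prod, map_prod]
      congr 1
      apply Finset.prod_congr rfl
      intro a ha
      rw [map_div₀, map_sub, map_pow, map_one, hΦ a (Finset.ne_of_mem_erase ha), map_div₀, map_sub,
        map_pow, map_one]
    rw [e1, map_mul, e2, map_div₀, map_sub, map_pow, map_one, hΦj]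
  have hh0 : g / (g ^ 2 - 1) ≠ 0 := div_ne_zero hg0 hd0
  have hA0 : Φ (rhoZ m u) ≠ 0 := by
    rw [hA]
    exact mul_ne_zero (C_ne hc0) hh0
  have hAo : (Φ (rhoZ m u)).order = (g / (g ^ 2 - 1)).order := by
    rw [hA, HahnSeries.order_mul (C_ne hc0) hh0, HahnSeries.order_C, zero_add]
  have h4o : (HahnSeries.C (4 : KZ m) : LaurentSeries (KZ m)).order = 0 := HahnSeries.order_C
  have h4n : (HahnSeries.C (4 : KZ m) : LaurentSeries (KZ m)) ≠ 0 := C_ne (by norm_num)
  have h4e : (HahnSeries.C (4 : KZ m) : LaurentSeries (KZ m)) = 4 := map_ofNat _ _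
  -- the leading coefficient of `R`
  obtain ⟨r, hr1, hr2⟩ : ∃ r : KZ m, τ k r = r ∧
      (Φ (rhoZ m u) ^ 2 + 4).leadingCoeff = r ^ 2 := by
    rcases hcase with ho | ⟨ho, hl⟩
    · refine ⟨2, map_ofNat _ _, ?_⟩
      rw [add_comm, ← h4e]
      rw [(add_lead _ (Φ (rhoZ m u) ^ 2) h4n (Or.inr (by
        rw [h4o, HahnSeries.order_pow, hAo, ho]; norm_num))).2.2, C_lead]
      norm_num
    · refine ⟨c * (1 / 2), ?_, ?_⟩
      · rw [map_mul, hcτ, map_div₀, map_one, map_ofNat]
      · rw [← h4e, (add_lead (Φ (rhoZ m u) ^ 2) _ (pow_ne_zero 2 hA0) (Or.inr (by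
          rw [h4o, HahnSeries.order_pow, hAo, ho]; norm_num))).2.2, sq, HahnSeries.leadingCoeff_mul,
          hA, HahnSeries.leadingCoeff_mul, C_lead, hl, sq]
  -- the argument
  by_contra hneg
  push Not at hneg
  have hs0 : Φ s ≠ 0 := by
    intro h
    rw [h, HahnSeries.order_zero] at hneg
    exact lt_irrefl _ hneg
  have e1 : (Φ s ^ 2 - 4).leadingCoeff = (Φ s).leadingCoeff ^ 2 := by
    rw [sub_eq_add_neg, ← h4e, (add_lead (Φ s ^ 2) _ (pow_ne_zero 2 hs0) (Or.inr (by
      rw [HahnSeries.order_neg, h4o, HahnSeries.order_pow]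
      rw [two_nsmul]
      omega))).2.2, sq, HahnSeries.leadingCoeff_mul, sq]
  have e2 : Φ s ^ 2 - 4 = Φ q ^ 2 * (Φ (rhoZ m u) ^ 2 + 4) := by
    have := congrArg Φ h3
    rw [map_sub, map_pow, map_ofNat, map_mul, map_pow, map_add, map_pow, map_ofNat] at this
    exact this
  have e3 : (Φ s).leadingCoeff ^ 2 = ((Φ q).leadingCoeff * r) ^ 2 := by
    rw [← e1, e2, HahnSeries.leadingCoeff_mul, hr2, sq (Φ q), HahnSeries.leadingCoeff_mul]
    ring
  have e4 : τ k (Φ s).leadingCoeff = (Φ s).leadingCoeff := by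
    rw [← sg_lead, ← hcomm, h1]
  have e5 : τ k (Φ q).leadingCoeff = -(Φ q).leadingCoeff := by
    rw [← sg_lead, ← hcomm, h2, map_neg, HahnSeries.leadingCoeff_neg]
  have e6 : (Φ s).leadingCoeff = 0 := by
    rcases sq_eq_sq_iff_eq_or_eq_neg.1 e3 with h | h
    · have h7 := congrArg (τ k) h
      rw [e4, map_mul, e5, hr1, neg_mul, ← h] at h7
      exact self_eq_neg.1 h7
    · have h7 := congrArg (τ k) h
      rw [e4, map_neg, map_mul, e5, hr1, neg_mul, neg_neg] at h7
      have h8 : (Φ s).leadingCoeff = -(Φ s).leadingCoeff := by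
        nth_rewrite 2 [h]
        rw [neg_neg]
        exact h7
      exact self_eq_neg.1 h8
  exact hs0 (HahnSeries.leadingCoeff_eq_zero.1 e6)

end P4a177z
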