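import Pool.Agent.Lib.P4a177z.DefZ

/-!
# A rational function without poles is constant

Let `s` be a rational function in `m` variables whose denominator divides a power of
`∏ X_a (X_a ^ 2 - 1)`, and suppose that the expansions of `s` at `X_j = 0, 1, -1, ∞` have nonnegative order,
for all `j`. The linear factors of the denominator are cancelled one after the other, so `s` is a
polynomial, and its degree in every variable is `0`.
-/

set_option autoImplicit false

namespace P4a177z

open P4a177h P4a177t P4a177x Function MvPolynomial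

namespace PelB

variable {m : ℕ}

/-! ### Polynomials in one variable evaluated at a power of `T` -/

section One

variable {L : Type*} [Field L]

theorem eval₂_monomial_single (e : ℤ) (k : ℕ) (a : L) :
    (Polynomial.monomial k a).eval₂ (HahnSeries.C : L →+* LaurentSeries L)
      (HahnSeries.single e 1) = HahnSeries.single ((k : ℤ) * e) a := by
  rw [Polynomial.eval₂_monomial, HahnSeries.single_pow, one_pow, HahnSeries.C_apply,
    HahnSeries.single_mul_single, zero_add, mul_one, nsmul_eq_mul]

theorem coeff_mul (e : ℤ) (he : e ≠ 0) (q : Polynomial L) (n : ℕ) :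
    (q.eval₂ (HahnSeries.C : L →+* LaurentSeries L) (HahnSeries.single e 1)).coeff ((n : ℤ) * e) =
      q.coeff n := by
  induction q using Polynomial.induction_on' with
  | add p q hp hq => rw [Polynomial.eval₂_add, HahnSeries.coeff_add, hp, hq, Polynomial.coeff_add]
  | monomial k a =>
    rw [eval₂_monomial_single, Polynomial.coeff_monomial]
    by_cases hk : k = n
    · rw [if_pos hk, hk, HahnSeries.coeff_single_same]
    · rw [if_neg hk, HahnSeries.coeff_single_of_ne]
      intro h
      exact hk (by exact_mod_cast (mul_right_cancel₀ he h).symm)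

theorem coeff_neg (q : Polynomial L) (k : ℤ) (hk : k < 0) :
    (q.eval₂ (HahnSeries.C : L →+* LaurentSeries L) (HahnSeries.single (1 : ℤ) 1)).coeff k = 0 := by
  induction q using Polynomial.induction_on' with
  | add p q hp hq => rw [Polynomial.eval₂_add, HahnSeries.coeff_add, hp, hq, add_zero]
  | monomial n a =>
    rw [eval₂_monomial_single, HahnSeries.coeff_single_of_ne]
    omega

theorem order_nonneg (q : Polynomial L) :
    0 ≤ (q.eval₂ (HahnSeries.C : L →+* LaurentSeries L) (HahnSeries.single (1 : ℤ) 1)).order := by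
  by_contra h
  rw [not_le] at h
  by_cases h0 : q.eval₂ (HahnSeries.C : L →+* LaurentSeries L) (HahnSeries.single (1 : ℤ) 1) = 0
  · rw [h0, HahnSeries.order_zero] at h
    exact lt_irrefl _ h
  · exact h0 (HahnSeries.coeff_order_eq_zero.mp (coeff_neg q _ h))

theorem injective_eval₂ (e : ℤ) (he : e ≠ 0) :
    Injective (Polynomial.eval₂RingHom (HahnSeries.C : L →+* LaurentSeries L)
      (HahnSeries.single e 1)) := by
  rw [injective_iff_map_eq_zero]
  intro q hq
  rw [Polynomial.coe_eval₂RingHom] at hq
  ext n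
  rw [← coeff_mul e he, hq, HahnSeries.coeff_zero, Polynomial.coeff_zero]

end One

/-! ### The homomorphisms -/

/-- `X_j ↦ X + c` and `X_a ↦ z_a` for `a ≠ j`. -/
noncomputable def th (j : Fin m) (c : ℚ) : MvPolynomial (Fin m) ℚ →+* Polynomial (KZ m) :=
  eval₂Hom (Polynomial.C.comp (algebraMap ℚ (KZ m))) fun a =>
    if a = j then Polynomial.X + Polynomial.C (algebraMap ℚ (KZ m) c) else Polynomial.C (zz a)

theorem th_X (j : Fin m) (c : ℚ) (a : Fin m) : th j c (X a) =
    if a = j then Polynomial.X + Polynomial.C (algebraMap ℚ (KZ m) c) else Polynomial.C (zz a) := by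
  unfold th
  rw [coe_eval₂Hom, eval₂_X]

theorem th_C (j : Fin m) (c q : ℚ) :
    th j c (C q) = Polynomial.C (algebraMap ℚ (KZ m) q) := by
  unfold th
  rw [coe_eval₂Hom, eval₂_C, RingHom.comp_apply]

theorem algebraMap_C (q : ℚ) :
    algebraMap (MvPolynomial (Fin m) ℚ) (KZ m) (C q) = algebraMap ℚ (KZ m) q := by
  rw [IsScalarTower.algebraMap_apply ℚ (MvPolynomial (Fin m) ℚ) (KZ m), MvPolynomial.algebraMap_eq]

theorem eval_th (j : Fin m) (c : ℚ) (P : MvPolynomial (Fin m) ℚ) :
    (th j c P).eval (zz j - algebraMap ℚ (KZ m) c) =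
      algebraMap (MvPolynomial (Fin m) ℚ) (KZ m) P := by
  have h : (Polynomial.evalRingHom (zz j - algebraMap ℚ (KZ m) c)).comp (th j c) =
      algebraMap (MvPolynomial (Fin m) ℚ) (KZ m) := by
    apply MvPolynomial.ringHom_ext
    · intro q
      rw [RingHom.comp_apply, th_C, Polynomial.coe_evalRingHom, Polynomial.eval_C, algebraMap_C]
    · intro a
      rw [RingHom.comp_apply, th_X, Polynomial.coe_evalRingHom]
      split_ifs with ha
      · subst ha
        rw [Polynomial.eval_add, Polynomial.eval_X, Polynomial.eval_C, sub_add_cancel]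
        rfl
      · rw [Polynomial.eval_C]
        rfl
  exact RingHom.congr_fun h P

/-- `X_j ↦ c`. -/
noncomputable def sb (j : Fin m) (c : ℚ) : MvPolynomial (Fin m) ℚ →ₐ[ℚ] MvPolynomial (Fin m) ℚ :=
  aeval fun a => if a = j then C c else X a

theorem coeff_th (j : Fin m) (c : ℚ) (P : MvPolynomial (Fin m) ℚ) :
    (th j c P).coeff 0 = algebraMap (MvPolynomial (Fin m) ℚ) (KZ m) (sb j c P) := by
  have h : (Polynomial.evalRingHom (0 : KZ m)).comp (th j c) =
      (algebraMap (MvPolynomial (Fin m) ℚ) (KZ m)).comp (sb j c).toRingHom := by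
    apply MvPolynomial.ringHom_ext
    · intro q
      rw [RingHom.comp_apply, th_C, Polynomial.coe_evalRingHom, Polynomial.eval_C,
        RingHom.comp_apply]
      have : (sb j c).toRingHom (C q) = C q := (sb j c).commutes q
      rw [this, algebraMap_C]
    · intro a
      rw [RingHom.comp_apply, th_X, Polynomial.coe_evalRingHom, RingHom.comp_apply]
      have : (sb j c).toRingHom (X a) = if a = j then C c else X a := by
        change aeval _ (X a) = _
        rw [aeval_X]
      rw [this]
      split_ifs with ha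
      · rw [Polynomial.eval_add, Polynomial.eval_X, Polynomial.eval_C, zero_add, algebraMap_C]
      · rw [Polynomial.eval_C]
        rfl
  rw [Polynomial.coeff_zero_eq_eval_zero]
  exact RingHom.congr_fun h P

theorem th_injective (j : Fin m) (c : ℚ) : Injective (th j c) := by
  rw [injective_iff_map_eq_zero]
  intro P hP
  have h := eval_th j c P
  rw [hP, Polynomial.eval_zero] at h
  exact (IsFractionRing.injective (MvPolynomial (Fin m) ℚ) (KZ m)) (by rw [← h, map_zero])

theorem dvd_of_sb (j : Fin m) (c : ℚ) (P : MvPolynomial (Fin m) ℚ) (h : sb j c P = 0) :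
    X j - C c ∣ P := by
  rw [← Ideal.mem_span_singleton, ← Ideal.Quotient.eq_zero_iff_mem]
  have h1 : (Ideal.Quotient.mk (Ideal.span {(X j - C c : MvPolynomial (Fin m) ℚ)})).comp
      (sb j c).toRingHom = Ideal.Quotient.mk (Ideal.span {(X j - C c : MvPolynomial (Fin m) ℚ)}) := by
    apply MvPolynomial.ringHom_ext
    · intro q
      rw [RingHom.comp_apply]
      have : (sb j c).toRingHom (C q) = C q := (sb j c).commutes q
      rw [this]
    · intro a
      rw [RingHom.comp_apply]
      have : (sb j c).toRingHom (X a) = if a = j then C c else X a := by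
        change aeval _ (X a) = _
        rw [aeval_X]
      rw [this]
      split_ifs with ha
      · subst ha
        symm
        rw [Ideal.Quotient.eq]
        exact Ideal.mem_span_singleton_self _
      · rfl
  rw [← RingHom.congr_fun h1 P, RingHom.comp_apply]
  change Ideal.Quotient.mk _ (sb j c P) = 0
  rw [h, map_zero]

/-- The composition `X_j ↦ c + T ^ e`. -/
noncomputable def Ps (j : Fin m) (c : ℚ) (e : ℤ) :
    MvPolynomial (Fin m) ℚ →+* LaurentSeries (KZ m) :=
  (Polynomial.eval₂RingHom (HahnSeries.C : KZ m →+* LaurentSeries (KZ m))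
    (HahnSeries.single e 1)).comp (th j c)

theorem Ps_injective (j : Fin m) (c : ℚ) (e : ℤ) (he : e ≠ 0) : Injective (Ps j c e) :=
  (injective_eval₂ e he).comp (th_injective j c)

/-- The homomorphism on the field. -/
noncomputable def Ph (j : Fin m) (c : ℚ) (e : ℤ) (he : e ≠ 0) : KZ m →+* LaurentSeries (KZ m) :=
  IsFractionRing.lift (Ps_injective j c e he)

theorem Ph_algebraMap (j : Fin m) (c : ℚ) (e : ℤ) (he : e ≠ 0) (P : MvPolynomial (Fin m) ℚ) :
    Ph j c e he (algebraMap (MvPolynomial (Fin m) ℚ) (KZ m) P) =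
      (th j c P).eval₂ (HahnSeries.C : KZ m →+* LaurentSeries (KZ m)) (HahnSeries.single e 1) := by
  unfold Ph
  rw [IsFractionRing.lift_algebraMap]
  rfl

theorem Ph_ne (j : Fin m) (c : ℚ) (e : ℤ) (he : e ≠ 0) (a : Fin m) (ha : a ≠ j) :
    Ph j c e he (zz a) = HahnSeries.C (zz a) := by
  unfold zz
  rw [Ph_algebraMap, th_X, if_neg ha, Polynomial.eval₂_C]
  rfl

theorem Ph_self (j : Fin m) (c : ℚ) (e : ℤ) (he : e ≠ 0) :
    Ph j c e he (zz j) = HahnSeries.single e 1 + HahnSeries.C (algebraMap ℚ (KZ m) c) := by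
  unfold zz
  rw [Ph_algebraMap, th_X, if_pos rfl, Polynomial.eval₂_add, Polynomial.eval₂_X,
    Polynomial.eval₂_C]

/-! ### The cancellation of the linear factors -/

/-- The linear factors. -/
noncomputable def li (p : Fin m × ℚ) : MvPolynomial (Fin m) ℚ := X p.1 - C p.2

theorem li_ne (p : Fin m × ℚ) : li p ≠ 0 := by
  intro h
  have h1 := congrArg (fun P => aeval (fun _ : Fin m => p.2 + 1) P) h
  simp only [li, map_sub, aeval_X, aeval_C, map_zero, Algebra.algebraMap_self, RingHom.id_apply,
    add_sub_cancel_left] at h1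
  exact one_ne_zero h1

theorem cancel (s : KZ m)
    (h : ∀ (j : Fin m) (c : ℚ), (c = 0 ∨ c = 1 ∨ c = -1) →
      0 ≤ (Ph j c 1 one_ne_zero s).order)
    (l : List (Fin m × ℚ)) (hl : ∀ p ∈ l, p.2 = 0 ∨ p.2 = 1 ∨ p.2 = -1) :
    ∀ P : MvPolynomial (Fin m) ℚ,
      s * algebraMap (MvPolynomial (Fin m) ℚ) (KZ m) (l.map li).prod =
        algebraMap (MvPolynomial (Fin m) ℚ) (KZ m) P →
      ∃ S : MvPolynomial (Fin m) ℚ, s = algebraMap (MvPolynomial (Fin m) ℚ) (KZ m) S := by
  induction l with
  | nil =>
    intro P hP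
    rw [List.map_nil, List.prod_nil, map_one, mul_one] at hP
    exact ⟨P, hP⟩
  | cons p l ih =>
    intro P hP
    rw [List.map_cons, List.prod_cons] at hP
    obtain ⟨j, c⟩ := p
    have hc := hl (j, c) (List.mem_cons_self ..)
    have hord := h j c hc
    have h1 := congrArg (Ph j c 1 one_ne_zero) hP
    have h2 : Ph j c 1 one_ne_zero (algebraMap (MvPolynomial (Fin m) ℚ) (KZ m) (li (j, c))) =
        HahnSeries.single (1 : ℤ) 1 := by
      rw [Ph_algebraMap]
      unfold li
      rw [map_sub, th_X, if_pos rfl, th_C, add_sub_cancel_right, Polynomial.eval₂_X]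
    rw [map_mul, map_mul, map_mul, h2, mul_left_comm] at h1
    have h3 : (Ph j c 1 one_ne_zero (algebraMap (MvPolynomial (Fin m) ℚ) (KZ m) P)).coeff 0 =
        0 := by
      rw [← h1]
      have h4 := HahnSeries.coeff_single_mul_add (R := KZ m) (r := 1)
        (x := Ph j c 1 one_ne_zero s *
          Ph j c 1 one_ne_zero (algebraMap (MvPolynomial (Fin m) ℚ) (KZ m) (l.map li).prod))
        (a := (-1 : ℤ)) (b := (1 : ℤ))
      rw [neg_add_cancel, one_mul] at h4
      rw [h4]
      by_cases h0 : Ph j c 1 one_ne_zero s *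
          Ph j c 1 one_ne_zero (algebraMap (MvPolynomial (Fin m) ℚ) (KZ m) (l.map li).prod) = 0
      · rw [h0, HahnSeries.coeff_zero]
      · apply HahnSeries.coeff_eq_zero_of_lt_order
        rw [HahnSeries.order_mul (left_ne_zero_of_mul h0) (right_ne_zero_of_mul h0)]
        have h5 : 0 ≤ (Ph j c 1 one_ne_zero
            (algebraMap (MvPolynomial (Fin m) ℚ) (KZ m) (l.map li).prod)).order := by
          rw [Ph_algebraMap]
          exact order_nonneg _
        omega
    rw [Ph_algebraMap] at h3
    have h6 := coeff_mul 1 one_ne_zero (th j c P) 0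
    rw [Nat.cast_zero, zero_mul, h3, coeff_th] at h6
    have h7 : sb j c P = 0 :=
      (IsFractionRing.injective (MvPolynomial (Fin m) ℚ) (KZ m)) (by rw [← h6, map_zero])
    obtain ⟨P', hP'⟩ := dvd_of_sb j c P h7
    refine ih (fun p hp => hl p (List.mem_cons_of_mem _ hp)) P' ?_
    have h8 : algebraMap (MvPolynomial (Fin m) ℚ) (KZ m) (li (j, c)) ≠ 0 := by
      intro h9
      exact li_ne (j, c)
        ((IsFractionRing.injective (MvPolynomial (Fin m) ℚ) (KZ m)) (by rw [h9, map_zero]))
    apply mul_left_cancel₀ h8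
    rw [mul_left_comm, ← map_mul, hP, hP', map_mul]
    rfl

theorem DZ_list (m M : ℕ) : ∃ l : List (Fin m × ℚ),
    (∀ p ∈ l, p.2 = 0 ∨ p.2 = 1 ∨ p.2 = -1) ∧ (l.map li).prod = DZ m ^ M := by
  classical
  have h1 : ∃ l : List (Fin m × ℚ),
      (∀ p ∈ l, p.2 = 0 ∨ p.2 = 1 ∨ p.2 = -1) ∧ (l.map li).prod = DZ m := by
    refine ⟨(List.finRange m).flatMap fun a => [(a, 0), (a, 1), (a, -1)], ?_, ?_⟩
    · intro p hp
      rw [List.mem_flatMap] at hp
      obtain ⟨a, _, ha⟩ := hp
      simp only [List.mem_cons, List.not_mem_nil, or_false] at ha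
      rcases ha with rfl | rfl | rfl
      · exact Or.inl rfl
      · exact Or.inr (Or.inl rfl)
      · exact Or.inr (Or.inr rfl)
    · unfold DZ
      rw [Fin.prod_univ_def]
      induction List.finRange m with
      | nil => rfl
      | cons a t ih =>
        rw [List.flatMap_cons, List.map_append, List.prod_append, ih, List.map_cons, List.prod_cons]
        congr 1
        simp only [List.map_cons, List.map_nil, List.prod_cons, List.prod_nil, li, map_zero, sub_zero,
          map_one, map_neg, mul_one]
        ring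
  obtain ⟨l, hl, hp⟩ := h1
  refine ⟨(List.replicate M l).flatten, ?_, ?_⟩
  · intro p hp
    rw [List.mem_flatten] at hp
    obtain ⟨l', hl', hp'⟩ := hp
    rw [List.eq_of_mem_replicate hl'] at hp'
    exact hl p hp'
  · rw [List.map_flatten, List.prod_flatten, List.map_map, List.map_replicate, List.prod_replicate]
    rw [Function.comp_apply, hp]

/-! ### Polynomials -/

theorem const_of_sb (S : MvPolynomial (Fin m) ℚ) (h : ∀ j, sb j 0 S = S) :
    ∃ c : ℚ, S = C c := by
  classical
  have h1 : ∀ A : Finset (Fin m), aeval (fun a => if a ∈ A then (0 : MvPolynomial (Fin m) ℚ) else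
      X a) S = S := by
    intro A
    induction A using Finset.induction_on with
    | empty =>
      simp only [Finset.notMem_empty, if_false]
      exact aeval_X_left_apply S
    | insert j A hj ih =>
      have h2 : (aeval (fun a => if a ∈ insert j A then (0 : MvPolynomial (Fin m) ℚ) else X a)) =
          (sb j 0).comp (aeval (R := ℚ) (fun a => if a ∈ A then (0 : MvPolynomial (Fin m) ℚ) else
            X a)) := by
        apply MvPolynomial.algHom_ext
        intro a
        rw [AlgHom.comp_apply, aeval_X, aeval_X]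
        by_cases ha : a = j
        · subst ha
          rw [if_pos (Finset.mem_insert_self _ _), if_neg hj]
          unfold sb
          rw [aeval_X, if_pos rfl, C_0]
        · by_cases hA : a ∈ A
          · rw [if_pos (Finset.mem_insert_of_mem hA), if_pos hA, map_zero]
          · rw [if_neg, if_neg hA]
            · unfold sb
              rw [aeval_X, if_neg ha]
            · rw [Finset.mem_insert, not_or]
              exact ⟨ha, hA⟩
      rw [h2, AlgHom.comp_apply, ih, h]
  have h3 := h1 Finset.univ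
  simp only [Finset.mem_univ, if_true] at h3
  refine ⟨constantCoeff S, ?_⟩
  rw [← h3]
  have h4 : aeval (fun _ : Fin m => (0 : MvPolynomial (Fin m) ℚ)) S =
      algebraMap ℚ (MvPolynomial (Fin m) ℚ) (constantCoeff S) := aeval_zero' S
  rw [h4, MvPolynomial.algebraMap_eq, constantCoeff_C]

theorem sb_of_order (S : MvPolynomial (Fin m) ℚ) (j : Fin m)
    (h : 0 ≤ (Ph j 0 (-1) (by norm_num)
      (algebraMap (MvPolynomial (Fin m) ℚ) (KZ m) S)).order) : sb j 0 S = S := by
  rw [Ph_algebraMap] at h
  have h1 : ∀ n : ℕ, n ≠ 0 → (th j 0 S).coeff n = 0 := by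
    intro n hn
    rw [← coeff_mul (-1) (by norm_num)]
    apply HahnSeries.coeff_eq_zero_of_lt_order
    have : (0 : ℤ) < n := by exact_mod_cast Nat.pos_of_ne_zero hn
    omega
  have h2 : th j 0 S = Polynomial.C ((th j 0 S).coeff 0) := by
    ext n
    rw [Polynomial.coeff_C]
    split_ifs with hn
    · rw [hn]
    · exact h1 n hn
  apply IsFractionRing.injective (MvPolynomial (Fin m) ℚ) (KZ m)
  rw [← coeff_th, ← eval_th j 0 S]
  conv_rhs => rw [h2]
  rw [Polynomial.eval_C]

end PelB

open PelB in
theorem no_polesZ {m : ℕ} (s : KZ m)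
    (hs : ∃ (P : MvPolynomial (Fin m) ℚ) (M : ℕ),
      s * algebraMap (MvPolynomial (Fin m) ℚ) (KZ m) (DZ m ^ M) =
        algebraMap (MvPolynomial (Fin m) ℚ) (KZ m) P)
    (h : ∀ (j : Fin m) (g : LaurentSeries (KZ m)),
      (g = HahnSeries.single (1 : ℤ) 1 ∨ g = HahnSeries.single (-1 : ℤ) 1 ∨
        g = 1 + HahnSeries.single (1 : ℤ) 1 ∨ g = -1 + HahnSeries.single (1 : ℤ) 1) →
      ∀ Φ : KZ m →+* LaurentSeries (KZ m), (∀ a, a ≠ j → Φ (zz a) = HahnSeries.C (zz a)) →
        Φ (zz j) = g → 0 ≤ (Φ s).order) :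
    ∃ c : ℚ, s = algebraMap ℚ (KZ m) c := by
  obtain ⟨P, M, hP⟩ := hs
  obtain ⟨l, hl, hlD⟩ := DZ_list m M
  rw [← hlD] at hP
  obtain ⟨S, hS⟩ := cancel s (fun j c hc => by
    refine h j _ ?_ (Ph j c 1 one_ne_zero) (fun a ha => Ph_ne j c 1 one_ne_zero a ha)
      (Ph_self j c 1 one_ne_zero)
    rcases hc with rfl | rfl | rfl
    · left
      rw [map_zero, map_zero, add_zero]
    · right; right; left
      rw [map_one (algebraMap ℚ (KZ m)), map_one (HahnSeries.C : KZ m →+* LaurentSeries (KZ m)),
        add_comm]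
    · right; right; right
      rw [map_neg, map_one (algebraMap ℚ (KZ m)), map_neg,
        map_one (HahnSeries.C : KZ m →+* LaurentSeries (KZ m)), add_comm]) l hl P hP
  obtain ⟨c, hc⟩ := const_of_sb S fun j => by
    apply sb_of_order
    rw [← hS]
    refine h j _ (Or.inr (Or.inl ?_)) (Ph j 0 (-1) (by norm_num))
      (fun a ha => Ph_ne j 0 (-1) _ a ha) (Ph_self j 0 (-1) _)
    rw [map_zero, map_zero, add_zero]
  exact ⟨c, by rw [hS, hc, algebraMap_C]⟩

end P4a177z
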