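import Pool.Agent.Lib.P4a177z.DefZ

/-!
# MODULE P4a177z.QuaZ: a rational quadratic polynomial with a root in the Laurent series over `ℚ(z)` has a rational root

The root is integral over the power series, so it is a power series; its constant coefficient is
integral over the polynomials, so it is a polynomial; evaluate at `0`.
-/

set_option autoImplicit false

namespace P4a177z

open P4a177h P4a177t P4a177x Function MvPolynomial

namespace QuaZAux

/-- A root in the fraction field of `w ^ 2 - s w + 1` comes from an integrally closed ring. -/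
theorem descend {A K : Type*} [CommRing A] [IsDomain A] [IsIntegrallyClosed A] [Field K]
    [Algebra A K] [IsFractionRing A K] (s : A) (f : K)
    (h : f ^ 2 - algebraMap A K s * f + 1 = 0) :
    ∃ g : A, algebraMap A K g = f ∧ g ^ 2 - s * g + 1 = 0 := by
  have hint : IsIntegral A f := by
    refine ⟨Polynomial.X ^ 2 - Polynomial.C s * Polynomial.X + 1, ?_, ?_⟩
    · have : (Polynomial.X ^ 2 - Polynomial.C s * Polynomial.X + 1 : Polynomial A)
          = Polynomial.X ^ 2 + (Polynomial.C (-s) * Polynomial.X + Polynomial.C 1) := by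
        rw [Polynomial.C_neg, Polynomial.C_1]
        ring
      rw [this]
      refine Polynomial.monic_X_pow_add (lt_of_le_of_lt Polynomial.degree_linear_le ?_)
      norm_num
    · simpa using h
  obtain ⟨g, hg⟩ := IsIntegrallyClosed.isIntegral_iff.1 hint
  refine ⟨g, hg, ?_⟩
  have hinj : Function.Injective (algebraMap A K) := IsFractionRing.injective A K
  apply hinj
  rw [map_add, map_sub, map_mul, map_pow, map_one, map_zero, hg]
  exact h

end QuaZAux

theorem quadZ {R : Type} [CommRing R] [Algebra ℚ R] {r : ℕ} (φ : R →+* LaurentSeries (KZ r))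
    (w : R) (s : ℚ) (h : w ^ 2 - algebraMap ℚ R s * w + 1 = 0) :
    ∃ c : ℚ, c ^ 2 - s * c + 1 = 0 := by
  have h1 : (φ w) ^ 2 - φ (algebraMap ℚ R s) * φ w + 1 = 0 := by
    have := congrArg φ h
    rwa [map_add, map_sub, map_mul, map_pow, map_one, map_zero] at this
  have h2 : φ (algebraMap ℚ R s)
      = algebraMap (PowerSeries (KZ r)) (LaurentSeries (KZ r)) (algebraMap ℚ (PowerSeries (KZ r)) s) := by
    have e : (φ.comp (algebraMap ℚ R)) =
        (algebraMap (PowerSeries (KZ r)) (LaurentSeries (KZ r))).comp
          (algebraMap ℚ (PowerSeries (KZ r))) := Subsingleton.elim _ _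
    exact DFunLike.congr_fun e s
  rw [h2] at h1
  obtain ⟨g, -, hg⟩ := QuaZAux.descend (A := PowerSeries (KZ r)) (K := LaurentSeries (KZ r)) _ _ h1
  have h3 := congrArg (PowerSeries.constantCoeff (R := KZ r)) hg
  rw [map_add, map_sub, map_mul, map_pow, map_one, map_zero] at h3
  have h4 : PowerSeries.constantCoeff (R := KZ r) (algebraMap ℚ (PowerSeries (KZ r)) s)
      = algebraMap (MvPolynomial (Fin r) ℚ) (KZ r) (C s) := by
    have e : ((PowerSeries.constantCoeff (R := KZ r)).comp (algebraMap ℚ (PowerSeries (KZ r)))) =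
        (algebraMap (MvPolynomial (Fin r) ℚ) (KZ r)).comp C := Subsingleton.elim _ _
    exact DFunLike.congr_fun e s
  rw [h4] at h3
  obtain ⟨p, -, hp⟩ := QuaZAux.descend (A := MvPolynomial (Fin r) ℚ) (K := KZ r) _ _ h3
  refine ⟨MvPolynomial.constantCoeff p, ?_⟩
  have h5 := congrArg (MvPolynomial.constantCoeff (σ := Fin r) (R := ℚ)) hp
  rwa [map_add, map_sub, map_mul, map_pow, map_one, map_zero, MvPolynomial.constantCoeff_C] at h5

end P4a177z
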