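import Pool.Agent.Lib.P4a177z.DefZ

/-!
# MODULE P4a177z.TauZ: the involutions and the sign changes on the letters
-/

set_option autoImplicit false

namespace P4a177z

open P4a177h P4a177t P4a177x Function MvPolynomial

variable {m : ℕ} {u : ℤ}

namespace TauZAux

theorem map_x (S : Finset (Fin (m + 1))) (i : Fin (m + 1)) :
    Units.map (tau m u S : CoordRing m u →* CoordRing m u) (x m u i) = flp m u S i :=
  Units.ext (tau_x S i)

theorem map_xs (a : Fin m) (i : Fin (m + 1)) :
    Units.map (sig m u a : CoordRing m u →* CoordRing m u) (x m u i) = sgc m u a i :=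
  Units.ext (sig_x a i)

theorem map_flp (S S' : Finset (Fin (m + 1))) (i : Fin (m + 1)) :
    Units.map (tau m u S : CoordRing m u →* CoordRing m u) (flp m u S' i) =
      if i ∈ S' then -(flp m u S i)⁻¹ else flp m u S i := by
  by_cases h : i ∈ S'
  · rw [if_pos h]
    unfold flp
    rw [if_pos h]
    have h1 := map_x (u := u) S i
    rw [Units.map_neg, map_inv, h1]
    rfl
  · rw [if_neg h]
    conv_lhs => rw [flp, if_neg h]
    exact map_x S i

theorem tau_flp (S S' : Finset (Fin (m + 1))) (i : Fin (m + 1)) :
    tau m u S (tau m u S' (x m u i : CoordRing m u)) =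
      ((if i ∈ S' then -(flp m u S i)⁻¹ else flp m u S i : (CoordRing m u)ˣ) :
        CoordRing m u) := by
  rw [tau_x, ← map_flp]
  rfl

end TauZAux

open TauZAux

theorem tau_tau (S : Finset (Fin (m + 1))) (r : CoordRing m u) : tau m u S (tau m u S r) = r := by
  have h : (tau m u S).comp (tau m u S) = RingHom.id (CoordRing m u) := by
    refine hom_ext fun i => ?_
    rw [RingHom.comp_apply, RingHom.id_apply, tau_flp]
    unfold flp
    split_ifs
    · rw [inv_neg, inv_inv, neg_neg]
    · rfl
  exact congrArg (fun f : CoordRing m u →+* CoordRing m u => f r) h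

theorem tau_comm (S S' : Finset (Fin (m + 1))) (r : CoordRing m u) :
    tau m u S (tau m u S' r) = tau m u S' (tau m u S r) := by
  have h : (tau m u S).comp (tau m u S') = (tau m u S').comp (tau m u S) := by
    refine hom_ext fun i => ?_
    rw [RingHom.comp_apply, RingHom.comp_apply, tau_flp, tau_flp]
    unfold flp
    split_ifs <;> simp
  exact congrArg (fun f : CoordRing m u →+* CoordRing m u => f r) h

theorem tau_let (hu : u ≠ 0) (S : Finset (Fin (m + 1))) (v : Fin (m + 1)) (t : Fin 3) :
    Units.map (tau m u S : CoordRing m u →* CoordRing m u) (let3 m hu v t) =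
      if v ∈ S ∧ t ≠ 2 then -(let3 m hu v t)⁻¹ else let3 m hu v t := by
  have hx := tau_x (m := m) (u := u) S v
  fin_cases t
  · show Units.map (tau m u S : CoordRing m u →* CoordRing m u) (x m u v) =
      if v ∈ S ∧ (0 : Fin 3) ≠ 2 then -(x m u v)⁻¹ else x m u v
    rw [map_x]
    unfold flp
    by_cases h : v ∈ S
    · rw [if_pos h, if_pos ⟨h, by decide⟩]
    · rw [if_neg h, if_neg fun h' => h h'.1]
  · show Units.map (tau m u S : CoordRing m u →* CoordRing m u) (w m hu v) =
      if v ∈ S ∧ (1 : Fin 3) ≠ 2 then -(w m hu v)⁻¹ else w m hu v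
    have h1 : (w m hu v : CoordRing m u) * ((x m u v : CoordRing m u) + 1) =
        (x m u v : CoordRing m u) - 1 := mob_spec hu (x m u) (x_on m u) v
    have h2 := congrArg (tau m u S) h1
    rw [map_mul, map_add, map_sub, map_one, hx] at h2
    by_cases h : v ∈ S
    · rw [if_pos ⟨h, by decide⟩]
      have h3 : (flp m u S v : CoordRing m u) = -((x m u v)⁻¹ : (CoordRing m u)ˣ) := by
        unfold flp
        rw [if_pos h, Units.val_neg]
      rw [h3] at h2
      have h4 : (x m u v : CoordRing m u) * ((x m u v)⁻¹ : (CoordRing m u)ˣ) = 1 :=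
        Units.mul_inv _
      have h5 : (w m hu v : CoordRing m u) * ((w m hu v)⁻¹ : (CoordRing m u)ˣ) = 1 :=
        Units.mul_inv _
      refine Units.ext ?_
      show tau m u S (w m hu v : CoordRing m u) = ((-(w m hu v)⁻¹ : (CoordRing m u)ˣ) :
        CoordRing m u)
      rw [Units.val_neg]
      have h6 := isUnit_sub_one hu (x m u) (x_on m u) v
      refine h6.mul_right_cancel ?_
      generalize tau m u S (w m hu v : CoordRing m u) = T at h2 ⊢
      generalize (((w m hu v)⁻¹ : (CoordRing m u)ˣ) : CoordRing m u) = V at h5 ⊢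
      linear_combination (x m u v : CoordRing m u) * h2 + (T - 1) * h4 - V * h1 +
        ((x m u v : CoordRing m u) + 1) * h5
    · rw [if_neg fun h' => h h'.1]
      have h3 : (flp m u S v : CoordRing m u) = x m u v := by
        unfold flp
        rw [if_neg h]
      rw [h3, ← h1] at h2
      refine Units.ext ?_
      show tau m u S (w m hu v : CoordRing m u) = w m hu v
      exact (isUnit_add_one hu (x m u) (x_on m u) v).mul_right_cancel h2
  · show Units.map (tau m u S : CoordRing m u →* CoordRing m u) (gam m hu v) =
      if v ∈ S ∧ (2 : Fin 3) ≠ 2 then -(gam m hu v)⁻¹ else gam m hu v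
    rw [if_neg fun h' => h'.2 rfl]
    have h1 := gam_spec (m := m) hu v
    have h2 := congrArg (tau m u S) h1
    rw [map_mul, map_sub, map_pow, map_one, hx] at h2
    refine Units.ext ?_
    show tau m u S (gam m hu v : CoordRing m u) = gam m hu v
    refine (Units.isUnit (x m u v)).mul_right_cancel ?_
    rw [h1]
    have h4 : (x m u v : CoordRing m u) * ((x m u v)⁻¹ : (CoordRing m u)ˣ) = 1 :=
      Units.mul_inv _
    generalize tau m u S (gam m hu v : CoordRing m u) = T at h2 ⊢
    by_cases h : v ∈ S
    · have h3 : (flp m u S v : CoordRing m u) = -((x m u v)⁻¹ : (CoordRing m u)ˣ) := by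
        unfold flp
        rw [if_pos h, Units.val_neg]
      rw [h3] at h2
      generalize (x m u v : CoordRing m u) = X at *
      generalize (((x m u v)⁻¹ : (CoordRing m u)ˣ) : CoordRing m u) = Y at *
      linear_combination (-X ^ 2) * h2 - (T * X + X * Y + 1) * h4
    · have h3 : (flp m u S v : CoordRing m u) = x m u v := by
        unfold flp
        rw [if_neg h]
      rw [h3] at h2
      exact h2

theorem sig_let (hu : u ≠ 0) (a : Fin m) (v : Fin (m + 1)) (t : Fin 3) :
    Units.map (sig m u a : CoordRing m u →* CoordRing m u) (let3 m hu v t) =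
      if v = a.castSucc ∨ v = a.succ then
        (if t = 1 then (let3 m hu v t)⁻¹ else -(let3 m hu v t)) else let3 m hu v t := by
  have hx := sig_x (m := m) (u := u) a v
  fin_cases t
  · show Units.map (sig m u a : CoordRing m u →* CoordRing m u) (x m u v) =
      if v = a.castSucc ∨ v = a.succ then
        (if (0 : Fin 3) = 1 then (x m u v)⁻¹ else -(x m u v)) else x m u v
    rw [map_xs, if_neg (by decide : ¬ (0 : Fin 3) = 1)]
    rfl
  · show Units.map (sig m u a : CoordRing m u →* CoordRing m u) (w m hu v) =
      if v = a.castSucc ∨ v = a.succ then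
        (if (1 : Fin 3) = 1 then (w m hu v)⁻¹ else -(w m hu v)) else w m hu v
    rw [if_pos rfl]
    have h1 : (w m hu v : CoordRing m u) * ((x m u v : CoordRing m u) + 1) =
        (x m u v : CoordRing m u) - 1 := mob_spec hu (x m u) (x_on m u) v
    have h2 := congrArg (sig m u a) h1
    rw [map_mul, map_add, map_sub, map_one, hx] at h2
    unfold sgc at h2
    split_ifs at h2 ⊢ with h
    · rw [Units.val_neg] at h2
      refine Units.ext ?_
      show sig m u a (w m hu v : CoordRing m u) = ((w m hu v)⁻¹ : (CoordRing m u)ˣ)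
      have h5 : (w m hu v : CoordRing m u) * ((w m hu v)⁻¹ : (CoordRing m u)ˣ) = 1 :=
        Units.mul_inv _
      have h6 := isUnit_sub_one hu (x m u) (x_on m u) v
      refine h6.mul_right_cancel ?_
      generalize sig m u a (w m hu v : CoordRing m u) = T at h2 ⊢
      generalize (((w m hu v)⁻¹ : (CoordRing m u)ˣ) : CoordRing m u) = V at h5 ⊢
      linear_combination (-1 : CoordRing m u) * h2 + V * h1 -
        ((x m u v : CoordRing m u) + 1) * h5
    · refine Units.ext ?_
      show sig m u a (w m hu v : CoordRing m u) = w m hu v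
      rw [← h1] at h2
      exact (isUnit_add_one hu (x m u) (x_on m u) v).mul_right_cancel h2
  · show Units.map (sig m u a : CoordRing m u →* CoordRing m u) (gam m hu v) =
      if v = a.castSucc ∨ v = a.succ then
        (if (2 : Fin 3) = 1 then (gam m hu v)⁻¹ else -(gam m hu v)) else gam m hu v
    rw [if_neg (by decide : ¬ (2 : Fin 3) = 1)]
    have h1 := gam_spec (m := m) hu v
    have h2 := congrArg (sig m u a) h1
    rw [map_mul, map_sub, map_pow, map_one, hx] at h2
    unfold sgc at h2
    split_ifs at h2 ⊢ with h
    · refine Units.ext ?_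
      show sig m u a (gam m hu v : CoordRing m u) = ((-(gam m hu v) : (CoordRing m u)ˣ) :
        CoordRing m u)
      rw [Units.val_neg] at h2 ⊢
      refine (Units.isUnit (x m u v)).mul_right_cancel ?_
      linear_combination (-1 : CoordRing m u) * h2 + h1
    · refine Units.ext ?_
      show sig m u a (gam m hu v : CoordRing m u) = gam m hu v
      rw [← h1] at h2
      exact (Units.isUnit (x m u v)).mul_right_cancel h2

theorem tau_cs (S : Finset (Fin (m + 1))) (c : ℚˣ) :
    Units.map (tau m u S : CoordRing m u →* CoordRing m u) (P4a177w.cs (CoordRing m u) c) =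
      P4a177w.cs (CoordRing m u) c := by
  have h : (tau m u S).comp (algebraMap ℚ (CoordRing m u)) = algebraMap ℚ (CoordRing m u) :=
    RingHom.ext_rat _ _
  exact Units.ext (congrArg (fun f : ℚ →+* CoordRing m u => f c) h)

theorem tau_jz (k : Fin (m + 1)) (p : MvPolynomial (Fin m) ℚ) :
    tau m u {k} (jz m u k p) = jz m u k p := by
  have h : (tau m u {k}).comp (jz m u k : MvPolynomial (Fin m) ℚ →+* CoordRing m u) =
      (jz m u k : MvPolynomial (Fin m) ℚ →+* CoordRing m u) := by
    refine MvPolynomial.ringHom_ext' (RingHom.ext_rat _ _) fun a => ?_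
    show tau m u {k} (jz m u k (X a)) = jz m u k (X a)
    rw [jz_X, tau_x]
    unfold flp
    rw [if_neg]
    rw [Finset.mem_singleton]
    exact Fin.succAbove_ne k a
  exact congrArg (fun f : MvPolynomial (Fin m) ℚ →+* CoordRing m u => f p) h

end P4a177z
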