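import Pool.Agent.Lib.P4a177z.NrmA
import Pool.Agent.Lib.P4a177z.NrmB
import Pool.Agent.Lib.P4a177z.TauZ
import Pool.Agent.Lib.P4a177z.InjZ
import Pool.Agent.Lib.P4a177z.PelA
import Pool.Agent.Lib.P4a177z.PelB
import Pool.Agent.Lib.P4a177z.QuaZ

/-!
# MODULE P4a177z.UniA: the units which are inverted by all the involutions are constant

PROOF. Let `k = 0`, `x = x m u 0`, `j = jz m u 0`, `K = FractionRing (CoordRing m u)` (a field by `isDomainZ`), `ι = algebraMap (CoordRing m u) K` (injective). `ψ : KZ m →+* K` extends `ι ∘ j` (`jz_injective`, `IsFractionRing.lift`). `s = w + w⁻¹`, `δ = w - w⁻¹` in the coordinate ring; `tau {i} s = s`, `tau {i} δ = - δ` for every `i` (the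
hypothesis and `tau_tau`). `τ₀ = tau m u {0}`, `τ₀ x = - x⁻¹ = ρ - x`, `ρ = x - x⁻¹`; `2 x - ρ = x + x⁻¹`, `(x + x⁻¹) ^ 2 = ρ ^ 2 + 4`. By `exists_mulZ`: `s * j D ^ M = j α + j β x`; apply `τ₀` (`tau_jz`) and subtract: `j β (x + x⁻¹) = 0`, so `j β = 0` (`x + x⁻¹ ≠ 0`: otherwise `x ^ 2 = - 1`, `x` would be algebraic; or `ρ ^ 2 = - 4`
with `ρ = ψ (rhoZ m u)` by `gam_mulZ`, `rhoZ ^ 2 = - 4` in `KZ m`, impossible as `-4` is not a square in `KZ m`: e.g. it embeds into an iterated Laurent series field or evaluate; simplest: `quadZ` with `R = CoordRing m u`, `w = x`, `s = 0`, `c ^ 2 + 1 = 0` has no rational solution, where `φ` is any homomorphism `CoordRing m u →+* LaurentSeries (KZ (m + 1))`,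
for instance `lift y` with `y` from `exists_pointZ`, imported by `NrmB`). So `s * j D ^ M = j α` and `ι s = ψ s₀`, `s₀ = α / D ^ M`. `δ * j D ^ N = j α' + j β' x`; `τ₀` and addition: `2 j α' + j β' ρ = 0`, so `2 δ * j D ^ N = j β' (x + x⁻¹)`, and with `q₀ = β' / (2 D ^ N) ∈ KZ m`: `ι δ = ψ q₀ * (x + x⁻¹)`, so
`s ^ 2 - 4 = δ ^ 2` gives `s₀ ^ 2 - 4 = q₀ ^ 2 * (rhoZ m u ^ 2 + 4)` (`ψ` injective, `ψ (rhoZ m u) = ι ρ` by `gam_mulZ`). The involutions `τ a : KZ m →+* KZ m`, `zz a ↦ - (zz a)⁻¹`, exist: `eval₂Hom` to `KZ m` with these values is injective on polynomials (it becomes the identity when applied twice, after extension..; or define it as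
`IsFractionRing.lift` with injectivity shown by: the homomorphism `t : MvPolynomial → KZ m`; if `t p = 0` then apply `ψ`: `ψ (t p) = tauK (ι (j p))` where `tauK` is the injective endomorphism `tau {a.succ}`, so `j p = 0`), and `ψ ∘ τ a = tauK ∘ ψ`, where `tauK : K →+* K` extends `ι ∘ tau m u {(0 : Fin (m + 1)).succAbove a}`. As `ψ` is injective:
`τ a s₀ = s₀`, `τ a q₀ = - q₀` (`x + x⁻¹` is fixed by `tau {i}`, `i ≠ 0`, and is `≠ 0`). `pell_polesZ` and `no_polesZ`: `s₀ = c ∈ ℚ`, so `s = algebraMap c`, `w ^ 2 - c w + 1 = 0`; `quadZ` gives a rational root `d`, and then `(w - d) (w - (c - d)) = 0`, so `w` is `d` or `c - d` (domain), which is `≠ 0` as `w` is a unit: `ofMul w ∈ CC`.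
-/

set_option autoImplicit false

namespace P4a177z

open P4a177h P4a177t P4a177x Function MvPolynomial

namespace UniAAux

variable {m : ℕ} {u : ℤ}

/-- There is a homomorphism from the coordinate ring to the Laurent series. -/
theorem exists_lau (hm : 1 ≤ m) (hu : u ≠ 0) :
    Nonempty (CoordRing m u →+* LaurentSeries (KZ (m + 1))) := by
  obtain ⟨Λ, hΛ⟩ := exists_goodLead (m + 1)
  have h0 : (Fin.last m) ≠ 0 := by
    intro h
    have := congrArg Fin.val h
    simp at this
    omega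
  obtain ⟨y, U, c, hy, -⟩ := exists_pointZ hu (fun i => decide (i ≠ 0)) 0 (Fin.last m)
    (by simp) (by simpa using h0) Λ hΛ
  exact ⟨lift y hy⟩

theorem add_inv_ne (hm : 1 ≤ m) (hu : u ≠ 0) (i : Fin (m + 1)) :
    (x m u i : CoordRing m u) + ((x m u i)⁻¹ : (CoordRing m u)ˣ) ≠ 0 := by
  intro h
  obtain ⟨φ⟩ := exists_lau hm hu
  have h1 : (x m u i : CoordRing m u) ^ 2 - algebraMap ℚ (CoordRing m u) 0 * x m u i + 1 = 0 := by
    rw [map_zero, zero_mul, sub_zero]
    have h2 := Units.mul_inv (x m u i)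
    linear_combination (x m u i : CoordRing m u) * h - h2
  obtain ⟨c, hc⟩ := quadZ φ _ 0 h1
  nlinarith [sq_nonneg c]

theorem tau_X (k : Fin (m + 1)) : tau m u {k} (x m u k : CoordRing m u) =
    -(((x m u k)⁻¹ : (CoordRing m u)ˣ) : CoordRing m u) := by
  rw [tau_x]
  unfold flp
  rw [if_pos (Finset.mem_singleton_self k), Units.val_neg]

theorem tau_Xne {k i : Fin (m + 1)} (h : i ≠ k) : tau m u {k} (x m u i : CoordRing m u) =
    x m u i := by
  rw [tau_x]
  unfold flp
  rw [if_neg]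
  rw [Finset.mem_singleton]
  exact h

theorem tau_Y (k : Fin (m + 1)) : tau m u {k} (((x m u k)⁻¹ : (CoordRing m u)ˣ) : CoordRing m u) =
    -(x m u k : CoordRing m u) := by
  have h := tau_tau {k} (x m u k : CoordRing m u)
  rw [tau_X, map_neg] at h
  rw [← h, neg_neg]

theorem tau_Yne {k i : Fin (m + 1)} (h : i ≠ k) :
    tau m u {k} (((x m u i)⁻¹ : (CoordRing m u)ˣ) : CoordRing m u) =
      (((x m u i)⁻¹ : (CoordRing m u)ˣ) : CoordRing m u) := by
  have h1 : tau m u {k} (x m u i : CoordRing m u) *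
      tau m u {k} (((x m u i)⁻¹ : (CoordRing m u)ˣ) : CoordRing m u) = 1 := by
    rw [← map_mul, Units.mul_inv, map_one]
  rw [tau_Xne h] at h1
  have h2 := Units.inv_mul (x m u i)
  linear_combination (((x m u i)⁻¹ : (CoordRing m u)ˣ) : CoordRing m u) * h1 -
    tau m u {k} (((x m u i)⁻¹ : (CoordRing m u)ˣ) : CoordRing m u) * h2

theorem fixed [IsDomain (CoordRing m u)] (k : Fin (m + 1))
    (hne : (x m u k : CoordRing m u) + ((x m u k)⁻¹ : (CoordRing m u)ˣ) ≠ 0)
    (s : CoordRing m u) (hs : tau m u {k} s = s) :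
    ∃ (M : ℕ) (α : MvPolynomial (Fin m) ℚ), s * jz m u k (DZ m ^ M) = jz m u k α := by
  obtain ⟨M, α, β, h⟩ := exists_mulZ k s
  have h' := congrArg (tau m u {k}) h
  rw [map_mul, map_add, map_mul, tau_jz, tau_jz, tau_jz, hs, tau_X] at h'
  have h2 : jz m u k β * ((x m u k : CoordRing m u) + ((x m u k)⁻¹ : (CoordRing m u)ˣ)) = 0 := by
    linear_combination h' - h
  have h3 : jz m u k β = 0 := (mul_eq_zero.1 h2).resolve_right hne
  refine ⟨M, α, ?_⟩
  rw [h, h3, zero_mul, add_zero]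

theorem anti (k : Fin (m + 1)) (s : CoordRing m u) (hs : tau m u {k} s = -s) :
    ∃ (M : ℕ) (β : MvPolynomial (Fin m) ℚ), 2 * (s * jz m u k (DZ m ^ M)) =
      jz m u k β * ((x m u k : CoordRing m u) + ((x m u k)⁻¹ : (CoordRing m u)ˣ)) := by
  obtain ⟨M, α, β, h⟩ := exists_mulZ k s
  have h' := congrArg (tau m u {k}) h
  rw [map_mul, map_add, map_mul, tau_jz, tau_jz, tau_jz, hs, tau_X] at h'
  exact ⟨M, β, by linear_combination h - h'⟩

theorem DZ_ne (m : ℕ) : DZ m ≠ 0 := by
  unfold DZ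
  rw [Finset.prod_ne_zero_iff]
  intro a _
  refine mul_ne_zero (X_ne_zero a) fun h => ?_
  have h1 := congrArg (MvPolynomial.eval (0 : Fin m → ℚ)) h
  rw [map_sub, map_pow, eval_X, map_one, map_zero] at h1
  norm_num at h1

theorem alg_ne {m : ℕ} (p : MvPolynomial (Fin m) ℚ) (hp : p ≠ 0) :
    algebraMap (MvPolynomial (Fin m) ℚ) (KZ m) p ≠ 0 := by
  intro h
  exact hp ((IsFractionRing.injective (MvPolynomial (Fin m) ℚ) (KZ m)) (by rw [h, map_zero]))

/-- The field of fractions of the polynomials in the field of fractions of the coordinate ring. -/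
theorem exists_psi (k : Fin (m + 1)) (hj : Injective (jz m u k)) [IsDomain (CoordRing m u)] :
    ∃ ψ : KZ m →+* FractionRing (CoordRing m u), ∀ p : MvPolynomial (Fin m) ℚ,
      ψ (algebraMap (MvPolynomial (Fin m) ℚ) (KZ m) p) =
        algebraMap (CoordRing m u) (FractionRing (CoordRing m u)) (jz m u k p) := by
  have hg : Injective ((algebraMap (CoordRing m u) (FractionRing (CoordRing m u))).comp
      (jz m u k : MvPolynomial (Fin m) ℚ →+* CoordRing m u)) :=
    (IsFractionRing.injective (CoordRing m u) (FractionRing (CoordRing m u))).comp hj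
  exact ⟨IsFractionRing.lift hg, fun p => IsFractionRing.lift_algebraMap hg p⟩

theorem map_inv_unit {R K : Type*} [CommRing R] [Field K] (f : R →+* K) (x : Rˣ) :
    f ((x⁻¹ : Rˣ) : R) = (f x)⁻¹ := by
  apply eq_inv_of_mul_eq_one_left
  rw [← map_mul, Units.inv_mul, map_one]

/-- The involutions of the field of rational functions. -/
theorem exists_tau (k : Fin (m + 1)) [IsDomain (CoordRing m u)]
    (ψ : KZ m →+* FractionRing (CoordRing m u))
    (hψ : ∀ p : MvPolynomial (Fin m) ℚ, ψ (algebraMap (MvPolynomial (Fin m) ℚ) (KZ m) p) =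
        algebraMap (CoordRing m u) (FractionRing (CoordRing m u)) (jz m u k p))
    (hj : Injective (jz m u k)) (a : Fin m) :
    ∃ (τ : KZ m →+* KZ m) (T : FractionRing (CoordRing m u) →+* FractionRing (CoordRing m u)),
      (∀ b, τ (zz b) = if b = a then -(zz b)⁻¹ else zz b) ∧
      (∀ r, T (algebraMap (CoordRing m u) (FractionRing (CoordRing m u)) r) =
        algebraMap (CoordRing m u) (FractionRing (CoordRing m u)) (tau m u {k.succAbove a} r)) ∧
      ∀ f, ψ (τ f) = T (ψ f) := by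
  have hψz : ∀ b : Fin m, ψ (zz b) = algebraMap (CoordRing m u) (FractionRing (CoordRing m u))
      (x m u (k.succAbove b) : CoordRing m u) := by
    intro b
    unfold zz
    rw [hψ, jz_X]
  obtain ⟨t, ht⟩ : ∃ t : MvPolynomial (Fin m) ℚ →+* KZ m,
      ∀ b, t (X b) = if b = a then -(zz b)⁻¹ else zz b :=
    ⟨eval₂Hom (algebraMap ℚ (KZ m)) (fun b => if b = a then -(zz b)⁻¹ else zz b),
      fun b => by rw [coe_eval₂Hom, eval₂_X]⟩
  have hcomp : ψ.comp t = ((algebraMap (CoordRing m u) (FractionRing (CoordRing m u))).comp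
      (tau m u {k.succAbove a})).comp (jz m u k : MvPolynomial (Fin m) ℚ →+* CoordRing m u) := by
    refine MvPolynomial.ringHom_ext' (RingHom.ext_rat _ _) fun b => ?_
    rw [RingHom.comp_apply, ht b]
    show _ = algebraMap (CoordRing m u) (FractionRing (CoordRing m u))
      (tau m u {k.succAbove a} (jz m u k (X b)))
    rw [jz_X]
    by_cases hb : b = a
    · rw [if_pos hb, map_neg, map_inv₀, hψz, hb, tau_X, map_neg, map_inv_unit]
    · rw [if_neg hb, hψz, tau_Xne]
      intro h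
      exact hb (Fin.succAbove_right_injective h)
  have hcomp' : ∀ p, ψ (t p) = algebraMap (CoordRing m u) (FractionRing (CoordRing m u))
      (tau m u {k.succAbove a} (jz m u k p)) := fun p => congrArg
        (fun f : MvPolynomial (Fin m) ℚ →+* FractionRing (CoordRing m u) => f p) hcomp
  have hι : Injective (algebraMap (CoordRing m u) (FractionRing (CoordRing m u))) :=
    IsFractionRing.injective (CoordRing m u) (FractionRing (CoordRing m u))
  have htau : Injective (tau m u {k.succAbove a}) := by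
    intro r r' h
    rw [← tau_tau {k.succAbove a} r, h, tau_tau]
  have hT : Injective ((algebraMap (CoordRing m u) (FractionRing (CoordRing m u))).comp
      (tau m u {k.succAbove a})) := hι.comp htau
  have htinj : Injective t := by
    have h1 : Injective (ψ.comp t) := by
      rw [hcomp]
      exact hT.comp hj
    exact Injective.of_comp h1
  refine ⟨IsFractionRing.lift htinj, IsFractionRing.lift hT, ?_, ?_, ?_⟩
  · intro b
    rw [← ht b]
    exact IsFractionRing.lift_algebraMap htinj (X b)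
  · intro r
    exact IsFractionRing.lift_algebraMap hT r
  · have hh : ψ.comp (IsFractionRing.lift htinj) =
        (IsFractionRing.lift hT).comp ψ := by
      refine IsLocalization.ringHom_ext (nonZeroDivisors (MvPolynomial (Fin m) ℚ)) ?_
      refine RingHom.ext fun p => ?_
      rw [RingHom.comp_apply, RingHom.comp_apply, RingHom.comp_apply, RingHom.comp_apply,
        IsFractionRing.lift_algebraMap, hψ, IsFractionRing.lift_algebraMap]
      exact hcomp' p
    exact fun f => congrArg (fun f' : KZ m →+* FractionRing (CoordRing m u) => f' f) hh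

theorem psi_rho (k : Fin (m + 1)) [IsDomain (CoordRing m u)]
    (ψ : KZ m →+* FractionRing (CoordRing m u))
    (hψ : ∀ p : MvPolynomial (Fin m) ℚ, ψ (algebraMap (MvPolynomial (Fin m) ℚ) (KZ m) p) =
        algebraMap (CoordRing m u) (FractionRing (CoordRing m u)) (jz m u k p)) :
    ψ (rhoZ m u) = algebraMap (CoordRing m u) (FractionRing (CoordRing m u))
      ((x m u k : CoordRing m u) - ((x m u k)⁻¹ : (CoordRing m u)ˣ)) := by
  have h1 : (∏ a : Fin m, (zz a ^ 2 - 1) : KZ m) =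
      algebraMap (MvPolynomial (Fin m) ℚ) (KZ m) (∏ a, (X a ^ 2 - 1)) := by
    rw [map_prod]
    exact Finset.prod_congr rfl fun a _ => by rw [map_sub, map_pow, map_one]; rfl
  have h2 : ((u : KZ m) * ∏ a : Fin m, zz a) =
      algebraMap (MvPolynomial (Fin m) ℚ) (KZ m) (C (u : ℚ) * ∏ a, X a) := by
    rw [map_mul, map_prod]
    congr 1
    have h3 : (algebraMap (MvPolynomial (Fin m) ℚ) (KZ m)).comp C = algebraMap ℚ (KZ m) :=
      RingHom.ext_rat _ _
    have h4 := congrArg (fun f : ℚ →+* KZ m => f (u : ℚ)) h3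
    have h5 : algebraMap (MvPolynomial (Fin m) ℚ) (KZ m) (C (u : ℚ)) = algebraMap ℚ (KZ m) (u : ℚ) :=
      h4
    rw [h5, map_intCast]
  have h0 : algebraMap (MvPolynomial (Fin m) ℚ) (KZ m) (∏ a, (X a ^ 2 - 1)) ≠ 0 := by
    refine alg_ne _ ?_
    rw [Finset.prod_ne_zero_iff]
    intro a _ h
    have h1 := congrArg (MvPolynomial.eval (0 : Fin m → ℚ)) h
    rw [map_sub, map_pow, eval_X, map_one, map_zero] at h1
    norm_num at h1
  have h0' : ψ (algebraMap (MvPolynomial (Fin m) ℚ) (KZ m) (∏ a, (X a ^ 2 - 1))) ≠ 0 := by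
    intro h
    exact h0 ((map_eq_zero ψ).1 h)
  unfold rhoZ
  rw [h1, h2, map_div₀, div_eq_iff h0', hψ, hψ, ← map_mul]
  rw [gam_mulZ k]

end UniAAux

open UniAAux

theorem antiZ {m : ℕ} (hm : 2 ≤ m) {u : ℤ} (hu : u ≠ 0) (w : (CoordRing m u)ˣ)
    (h : ∀ k, Units.map (tau m u {k} : CoordRing m u →* CoordRing m u) w = w⁻¹) :
    Additive.ofMul w ∈ CC (CoordRing m u) := by
  have hm1 : 1 ≤ m := by omega
  have hdom : IsDomain (CoordRing m u) := isDomainZ hm hu
  -- the involutions on w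
  have hw : ∀ k, tau m u {k} (w : CoordRing m u) = ((w⁻¹ : (CoordRing m u)ˣ) : CoordRing m u) :=
    fun k => congrArg Units.val (h k)
  have hw' : ∀ k, tau m u {k} ((w⁻¹ : (CoordRing m u)ˣ) : CoordRing m u) = (w : CoordRing m u) := by
    intro k
    rw [← hw k, tau_tau]
  obtain ⟨s, hs⟩ : ∃ s : CoordRing m u, s = (w : CoordRing m u) +
    ((w⁻¹ : (CoordRing m u)ˣ) : CoordRing m u) := ⟨_, rfl⟩
  obtain ⟨δ, hδ⟩ : ∃ δ : CoordRing m u, δ = (w : CoordRing m u) -
    ((w⁻¹ : (CoordRing m u)ˣ) : CoordRing m u) := ⟨_, rfl⟩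
  have hws := Units.mul_inv w
  have hsδ : s ^ 2 - 4 = δ ^ 2 := by
    rw [hs, hδ]
    linear_combination 4 * hws
  have hts : ∀ k, tau m u {k} s = s := by
    intro k
    rw [hs, map_add, hw, hw', add_comm]
  have htδ : ∀ k, tau m u {k} δ = -δ := by
    intro k
    rw [hδ, map_sub, hw, hw', neg_sub]
  -- the quadratic twist
  have hne := add_inv_ne hm1 hu (0 : Fin (m + 1))
  obtain ⟨M, α, hα⟩ := fixed 0 hne s (hts 0)
  obtain ⟨N, β, hβ⟩ := anti 0 δ (htδ 0)
  have hj := jz_injective hm1 hu (0 : Fin (m + 1))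
  obtain ⟨ψ, hψ⟩ := exists_psi (0 : Fin (m + 1)) hj
  have hι : Injective (algebraMap (CoordRing m u) (FractionRing (CoordRing m u))) :=
    IsFractionRing.injective (CoordRing m u) (FractionRing (CoordRing m u))
  choose τ T hτ hT hψτ using fun a : Fin m => exists_tau (0 : Fin (m + 1)) ψ hψ hj a
  have hρ := psi_rho (0 : Fin (m + 1)) ψ hψ
  have hιne : algebraMap (CoordRing m u) (FractionRing (CoordRing m u))
      ((x m u 0 : CoordRing m u) + ((x m u 0)⁻¹ : (CoordRing m u)ˣ)) ≠ 0 := by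
    intro h0
    exact hne (hι (by rw [h0, map_zero]))
  have hsq : algebraMap (CoordRing m u) (FractionRing (CoordRing m u))
      ((x m u 0 : CoordRing m u) + ((x m u 0)⁻¹ : (CoordRing m u)ˣ)) ^ 2 =
      algebraMap (CoordRing m u) (FractionRing (CoordRing m u))
      ((x m u 0 : CoordRing m u) - ((x m u 0)⁻¹ : (CoordRing m u)ˣ)) ^ 2 + 4 := by
    have h4 : (4 : FractionRing (CoordRing m u)) =
        algebraMap (CoordRing m u) (FractionRing (CoordRing m u)) 4 := by rw [map_ofNat]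
    rw [h4, ← map_pow, ← map_pow, ← map_add]
    congr 1
    linear_combination 4 * Units.mul_inv (x m u 0)
  have hDM : ∀ n, algebraMap (MvPolynomial (Fin m) ℚ) (KZ m) (DZ m ^ n) ≠ 0 := fun n =>
    alg_ne _ (pow_ne_zero _ (DZ_ne m))
  have hjD : ∀ n, algebraMap (CoordRing m u) (FractionRing (CoordRing m u))
      (jz m u 0 (DZ m ^ n)) ≠ 0 := by
    intro n
    rw [← hψ]
    intro h0
    exact hDM n ((map_eq_zero ψ).1 h0)
  have h2ne : (2 : FractionRing (CoordRing m u)) ≠ 0 := by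
    have h20 : (2 : KZ m) ≠ 0 := two_ne_zero
    intro h0
    apply h20
    apply (map_eq_zero ψ).1
    rw [map_ofNat, h0]
  obtain ⟨s₀, hs₀⟩ : ∃ s₀ : KZ m, s₀ = algebraMap (MvPolynomial (Fin m) ℚ) (KZ m) α /
    algebraMap (MvPolynomial (Fin m) ℚ) (KZ m) (DZ m ^ M) := ⟨_, rfl⟩
  obtain ⟨q₀, hq₀⟩ : ∃ q₀ : KZ m, q₀ = algebraMap (MvPolynomial (Fin m) ℚ) (KZ m) β /
    (2 * algebraMap (MvPolynomial (Fin m) ℚ) (KZ m) (DZ m ^ N)) := ⟨_, rfl⟩
  have hψs : ψ s₀ = algebraMap (CoordRing m u) (FractionRing (CoordRing m u)) s := by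
    rw [hs₀, map_div₀, hψ, hψ, div_eq_iff (hjD M), ← map_mul, hα]
  have hψq : ψ q₀ * algebraMap (CoordRing m u) (FractionRing (CoordRing m u))
      ((x m u 0 : CoordRing m u) + ((x m u 0)⁻¹ : (CoordRing m u)ˣ)) =
      algebraMap (CoordRing m u) (FractionRing (CoordRing m u)) δ := by
    rw [hq₀, map_div₀, map_mul, hψ, hψ, map_ofNat, div_mul_eq_mul_div,
      div_eq_iff (mul_ne_zero h2ne (hjD N)), ← map_mul, ← hβ, map_mul, map_mul, map_ofNat]
    ring
  have hψinj : Injective ψ := ψ.injective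
  have e3 : s₀ ^ 2 - 4 = q₀ ^ 2 * (rhoZ m u ^ 2 + 4) := by
    apply hψinj
    rw [map_sub, map_pow, map_ofNat, map_mul, map_pow, map_add, map_pow, map_ofNat, hρ, hψs,
      ← hsq, ← mul_pow, hψq, ← map_pow, ← map_pow, ← hsδ, map_sub, map_ofNat]
  have e1 : ∀ a, τ a s₀ = s₀ := by
    intro a
    apply hψinj
    rw [hψτ, hψs, hT, hts]
  have e2 : ∀ a, τ a q₀ = -q₀ := by
    intro a
    apply hψinj
    apply mul_right_cancel₀ hιne
    have hfix : T a (algebraMap (CoordRing m u) (FractionRing (CoordRing m u))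
        ((x m u 0 : CoordRing m u) + ((x m u 0)⁻¹ : (CoordRing m u)ˣ))) =
        algebraMap (CoordRing m u) (FractionRing (CoordRing m u))
        ((x m u 0 : CoordRing m u) + ((x m u 0)⁻¹ : (CoordRing m u)ˣ)) := by
      rw [hT, map_add (tau m u {(0 : Fin (m + 1)).succAbove a}), tau_Xne (Fin.succAbove_ne 0 a).symm,
        tau_Yne (Fin.succAbove_ne 0 a).symm]
    rw [hψτ]
    conv_lhs => rw [← hfix]
    rw [← map_mul, hψq, hT, htδ, map_neg, map_neg, neg_mul, hψq]
  obtain ⟨c, hc⟩ := no_polesZ s₀ ⟨α, M, by rw [hs₀, div_mul_cancel₀ _ (hDM M)]⟩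
    (fun j g hg Φ hΦ hΦj => pell_polesZ hm hu τ hτ s₀ q₀ e1 e2 e3 j g hg Φ hΦ hΦj)
  have hsc : s = algebraMap ℚ (CoordRing m u) c := by
    apply hι
    rw [← hψs, hc]
    have h3 : ψ.comp (algebraMap ℚ (KZ m)) =
        (algebraMap (CoordRing m u) (FractionRing (CoordRing m u))).comp
          (algebraMap ℚ (CoordRing m u)) := RingHom.ext_rat _ _
    exact congrArg (fun f : ℚ →+* FractionRing (CoordRing m u) => f c) h3
  have hquad : (w : CoordRing m u) ^ 2 - algebraMap ℚ (CoordRing m u) c * (w : CoordRing m u) + 1 =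
      0 := by
    rw [← hsc, hs]
    linear_combination (-1 : CoordRing m u) * hws
  obtain ⟨φ⟩ := exists_lau hm1 hu
  obtain ⟨d, hd⟩ := quadZ φ _ c hquad
  have hd0 : d ≠ 0 := by
    rintro rfl
    norm_num at hd
  have hd1 : c - d ≠ 0 := by
    intro h0
    have h1 : c = d := by linarith
    rw [h1] at hd
    have : d ^ 2 - d * d + 1 = 1 := by ring
    rw [this] at hd
    norm_num at hd
  have hprod : ((w : CoordRing m u) - algebraMap ℚ (CoordRing m u) d) *
      ((w : CoordRing m u) - algebraMap ℚ (CoordRing m u) (c - d)) = 0 := by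
    have h5 := congrArg (algebraMap ℚ (CoordRing m u)) hd
    rw [map_add, map_sub, map_mul, map_pow, map_one, map_zero] at h5
    rw [map_sub]
    linear_combination hquad - h5
  have hfin : ∀ e : ℚ, e ≠ 0 → (w : CoordRing m u) = algebraMap ℚ (CoordRing m u) e →
      Additive.ofMul w ∈ CC (CoordRing m u) := by
    intro e he hwe
    refine ⟨Additive.ofMul (Units.mk0 e he), ?_⟩
    show Additive.ofMul (P4a177w.cs (CoordRing m u) (Units.mk0 e he)) = Additive.ofMul w
    congr 1
    exact Units.ext hwe.symm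
  rcases mul_eq_zero.1 hprod with h6 | h6
  · exact hfin d hd0 (sub_eq_zero.1 h6)
  · exact hfin (c - d) hd1 (sub_eq_zero.1 h6)

end P4a177z
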