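import Pool.Agent.Lib.P4a177z.NrmC
import Pool.Agent.Lib.P4a177z.UniA

/-!
# MODULE P4a177z.UniB: the units of the coordinate ring

PROOF. Let `T k : Additive (CoordRing m u)ˣ →+ Additive (CoordRing m u)ˣ` be induced by `Units.map (tau m u {k})`; `T k (T k a) = a`, `T k (T l a) = T l (T k a)` (`tau_tau`, `tau_comm`). Let `Λ` be the subgroup of the `a` with `2 • a - ∑ κ i t • lA m hu i t ∈ CC` for some `κ`. `norm_unitZ`: `a + T k a ∈ Λ`. Define `W 0 = w`,
`W (j + 1) = W j - T j (W j)` for `j = 0, …, m` (`T j` for the index `j : Fin (m + 1)`; recursion over `ℕ` with `Fin.ofNat`, or over a list/`Finset.univ.toList` of the indices). Then `2 ^ j • w - W j ∈ Λ` (`W (j + 1) = 2 • W j - (W j + T j (W j))`), and `T i (W j) = - W j` for `i < j` (induction, the `T` commute). For `j = m + 1`: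
`W ∈ CC` by `antiZ`. So `2 ^ (m + 1) • w ∈ Λ + CC = Λ` and `2 ^ (m + 2) • w - ∑ κ i t • lA m hu i t ∈ CC`.
-/

set_option autoImplicit false

namespace P4a177z

open P4a177h P4a177t P4a177x Function MvPolynomial

namespace UniBAux

variable {m : ℕ} {u : ℤ}

/-- The combinations of the letters modulo constants, up to the factor `2`. -/
def LamB (m : ℕ) {u : ℤ} (hu : u ≠ 0) : AddSubgroup (Additive (CoordRing m u)ˣ) where
  carrier := {a | ∃ κ : Fin (m + 1) → Fin 3 → ℤ, 2 • a - ∑ i, ∑ t, κ i t • lA m hu i t ∈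
    CC (CoordRing m u)}
  zero_mem' := by
    refine ⟨0, ?_⟩
    simp only [Pi.zero_apply, zero_smul, Finset.sum_const_zero, smul_zero, sub_zero]
    exact (CC (CoordRing m u)).zero_mem
  add_mem' := by
    rintro a b ⟨κ, h⟩ ⟨κ', h'⟩
    refine ⟨κ + κ', ?_⟩
    have h2 := (CC (CoordRing m u)).add_mem h h'
    have h3 : 2 • (a + b) - ∑ i, ∑ t, (κ + κ') i t • lA m hu i t =
        (2 • a - ∑ i, ∑ t, κ i t • lA m hu i t) + (2 • b - ∑ i, ∑ t, κ' i t • lA m hu i t) := by
      have h4 : ∀ i t, (κ + κ') i t • lA m hu i t = κ i t • lA m hu i t + κ' i t • lA m hu i t :=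
        fun i t => add_zsmul _ _ _
      simp only [h4, Finset.sum_add_distrib]
      abel
    rw [h3]
    exact h2
  neg_mem' := by
    rintro a ⟨κ, h⟩
    refine ⟨-κ, ?_⟩
    have h2 := (CC (CoordRing m u)).neg_mem h
    have h3 : 2 • (-a) - ∑ i, ∑ t, (-κ) i t • lA m hu i t =
        -(2 • a - ∑ i, ∑ t, κ i t • lA m hu i t) := by
      simp only [Pi.neg_apply, neg_smul, Finset.sum_neg_distrib]
      abel
    rw [h3]
    exact h2

theorem CC_le (hu : u ≠ 0) {a : Additive (CoordRing m u)ˣ} (ha : a ∈ CC (CoordRing m u)) :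
    a ∈ LamB m hu := by
  refine ⟨0, ?_⟩
  simp only [Pi.zero_apply, zero_smul, Finset.sum_const_zero, sub_zero]
  exact (CC (CoordRing m u)).nsmul_mem ha 2

/-- The involution of the units, written additively. -/
noncomputable def TB (m : ℕ) (u : ℤ) (k : Fin (m + 1)) :
    Additive (CoordRing m u)ˣ →+ Additive (CoordRing m u)ˣ :=
  MonoidHom.toAdditive (Units.map (tau m u {k} : CoordRing m u →* CoordRing m u))

theorem TB_apply (k : Fin (m + 1)) (w : (CoordRing m u)ˣ) :
    TB m u k (Additive.ofMul w) =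
      Additive.ofMul (Units.map (tau m u {k} : CoordRing m u →* CoordRing m u) w) := rfl

theorem TB_TB (k : Fin (m + 1)) (a : Additive (CoordRing m u)ˣ) : TB m u k (TB m u k a) = a := by
  induction a using Additive.rec with
  | ofMul w =>
    rw [TB_apply, TB_apply]
    congr 1
    apply Units.ext
    simp only [Units.coe_map, MonoidHom.coe_coe]
    exact tau_tau _ _

theorem TB_comm (k l : Fin (m + 1)) (a : Additive (CoordRing m u)ˣ) :
    TB m u k (TB m u l a) = TB m u l (TB m u k a) := by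
  induction a using Additive.rec with
  | ofMul w =>
    rw [TB_apply, TB_apply, TB_apply, TB_apply]
    congr 1
    apply Units.ext
    simp only [Units.coe_map, MonoidHom.coe_coe]
    exact tau_comm _ _ _

theorem stepB (hm : 2 ≤ m) (hu : u ≠ 0) (w : Additive (CoordRing m u)ˣ) (n : ℕ) (hn : n ≤ m + 1) :
    ∃ W : Additive (CoordRing m u)ˣ, 2 ^ n • w - W ∈ LamB m hu ∧
      ∀ i : Fin (m + 1), (i : ℕ) < n → TB m u i W = -W := by
  induction n with
  | zero =>
    refine ⟨w, ?_, fun i hi => absurd hi (Nat.not_lt_zero _)⟩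
    rw [pow_zero, one_smul, sub_self]
    exact (LamB m hu).zero_mem
  | succ n ih =>
    obtain ⟨W, h1, h2⟩ := ih (by omega)
    set k : Fin (m + 1) := ⟨n, by omega⟩ with hk
    refine ⟨W - TB m u k W, ?_, ?_⟩
    · have h3 : W + TB m u k W ∈ LamB m hu := by
        obtain ⟨κ, hκ⟩ := norm_unitZ hm hu k (Additive.toMul W)
        exact ⟨κ, hκ⟩
      have h4 : 2 ^ (n + 1) • w - (W - TB m u k W) = 2 • (2 ^ n • w - W) + (W + TB m u k W) := by
        have h5 : (2 : ℕ) ^ (n + 1) • w = 2 • (2 ^ n • w) := by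
          rw [pow_succ, mul_comm, mul_smul]
        rw [h5]
        abel
      rw [h4]
      exact (LamB m hu).add_mem ((LamB m hu).nsmul_mem h1 2) h3
    · intro i hi
      rcases Nat.lt_succ_iff_lt_or_eq.1 hi with h | h
      · rw [map_sub, TB_comm, h2 i h, map_neg]
        abel
      · have hik : i = k := Fin.ext h
        rw [hik, map_sub, TB_TB]
        abel

end UniBAux

open UniBAux in
theorem unitsZ {m : ℕ} (hm : 2 ≤ m) {u : ℤ} (hu : u ≠ 0) (w : Additive (CoordRing m u)ˣ) :
    ∃ κ : Fin (m + 1) → Fin 3 → ℤ, 2 ^ (m + 2) • w - ∑ i, ∑ t, κ i t • lA m hu i t ∈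
      CC (CoordRing m u) := by
  obtain ⟨W, h1, h2⟩ := stepB hm hu w (m + 1) le_rfl
  have h3 : W ∈ CC (CoordRing m u) := by
    have h4 := antiZ hm hu (Additive.toMul W) (fun k => by
      have h5 := h2 k k.isLt
      have h6 := congrArg Additive.toMul h5
      exact h6)
    exact h4
  have h7 : 2 ^ (m + 1) • w ∈ LamB m hu := by
    have h8 := (LamB m hu).add_mem h1 (CC_le hu h3)
    rwa [sub_add_cancel] at h8
  obtain ⟨κ, hκ⟩ := h7
  refine ⟨κ, ?_⟩
  rw [show 2 ^ (m + 2) • w = 2 • (2 ^ (m + 1) • w) by rw [← mul_smul, ← pow_succ']]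
  exact hκ

end P4a177z
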