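import Pool.Agent.Lib.P4a177z.SteinZ
import Pool.Agent.Lib.P4a177z.SpnZ
import Pool.Agent.Lib.P4a177z.ExpZ
import Pool.Agent.Lib.P4a177z.KilZ
import Pool.Agent.Lib.P4a177z.UniB
import Pool.Agent.Lib.P4a177z.FunZ
import Pool.Agent.Lib.P4a177z.InvZ
import Pool.Agent.Lib.P4a177u.Span

/-!
# The unramified elements of `K_n` of the coordinate ring of the hypersurfaces `∏ (x_i - 1 / x_i) = u`
are combinations of two symbols, up to torsion
-/

set_option autoImplicit false

namespace P4a177z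

open P4a177h P4a177t P4a177x Function MvPolynomial
open P4a177y (neg_all neg_entry csA csA_mem ordA)

noncomputable section

variable {m : ℕ} {u : ℤ}

/-! ### Step 1: the classes modulo torsion -/

theorem in_HZ (hm : 2 ≤ m) (hu : u ≠ 0) {G : Type} [AddCommGroup G]
    (π : MilnorK (m + 1) (CoordRing m u) →+ G) (S : Alt (CoordRing m u) (m + 1) G)
    (hS : ∀ a : Fin (m + 1) → (CoordRing m u)ˣ,
      S.f (fun k => Additive.ofMul (a k)) = π (symb a))
    (η : MilnorK (m + 1) (CoordRing m u)) :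
    ((2 ^ (m + 2)) ^ (m + 1)) • π η ∈ HZ S.f (CC (CoordRing m u)) (lA m hu) := by
  have h1 : ∀ a : Fin (m + 1) → (CoordRing m u)ˣ, ((2 ^ (m + 2)) ^ (m + 1)) • π (symb a) ∈
      HZ S.f (CC (CoordRing m u)) (lA m hu) := by
    intro a
    have h := span_mem S.f (CC (CoordRing m u)) (lA m hu) (relZ m hu S) (2 ^ (m + 2))
      (fun w => unitsZ hm hu w) (fun k => Additive.ofMul (a k))
    rw [hS] at h
    exact h
  have h2 : ∀ z : FreeAbelianGroup (Fin (m + 1) → (CoordRing m u)ˣ),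
      ((2 ^ (m + 2)) ^ (m + 1)) • π ((QuotientAddGroup.mk' _) z) ∈
      HZ S.f (CC (CoordRing m u)) (lA m hu) := by
    intro z
    induction z using FreeAbelianGroup.induction_on with
    | zero =>
      rw [map_zero, map_zero, smul_zero]
      exact zero_mem _
    | of a => exact h1 a
    | neg a ih =>
      rw [map_neg, map_neg, smul_neg]
      exact neg_mem (h1 a)
    | add x y hx hy =>
      rw [map_add, map_add, smul_add]
      exact add_mem hx hy
  induction η using QuotientAddGroup.induction_on with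
  | H z => exact h2 z

/-- The symbol of the word. -/
def swd (hu : u ≠ 0) (t : Fin (m + 1) → Fin 3) : MilnorK (m + 1) (CoordRing m u) :=
  symb fun i => let3 m hu i (t i)

/-- The symbol of the word with one letter replaced by a constant. -/
def szz (hu : u ≠ 0) (s : Fin (m + 1)) (t : Fin (m + 1) → Fin 3) (c : ℚˣ) :
    MilnorK (m + 1) (CoordRing m u) :=
  symb (update (fun i => let3 m hu i (t i)) s (P4a177w.cs (CoordRing m u) c))

/-- The sum of the explicit symbols. -/
def zeta (hu : u ≠ 0) (ν : (Fin (m + 1) → Fin 3) → ℤ) (q : (Fin (m + 1) → Fin 3) → ℚˣ) :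
    MilnorK (m + 1) (CoordRing m u) :=
  ∑ t, if Has2 t then szz hu (pos t) t (q t) else ν t • swd hu t

section
variable {G : Type} [AddCommGroup G]
    (π : MilnorK (m + 1) (CoordRing m u) →+ G) (S : Alt (CoordRing m u) (m + 1) G)
    (hS : ∀ a : Fin (m + 1) → (CoordRing m u)ˣ,
      S.f (fun k => Additive.ofMul (a k)) = π (symb a))
include hS

theorem map_swd (hu : u ≠ 0) (t : Fin (m + 1) → Fin 3) :
    π (swd hu t) = S.f (wd (lA m hu) t) := (hS _).symm

theorem map_szz (hu : u ≠ 0) (s : Fin (m + 1)) (t : Fin (m + 1) → Fin 3) (c : ℚˣ) :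
    π (szz hu s t c) =
      ZZ S.f (lA m hu) s t (Additive.ofMul (P4a177w.cs (CoordRing m u) c)) := by
  unfold szz ZZ
  rw [← hS]
  congr 1

/-- The value at a constant `± 1` vanishes. -/
theorem szz_zero (hu : u ≠ 0) (s : Fin (m + 1)) (t : Fin (m + 1) → Fin 3) (c : ℚˣ)
    (hc : c = 1 ∨ c = -1) : π (szz hu s t c) = 0 := by
  rw [map_szz π S hS]
  refine S.tf 2 _ (by norm_num) ?_
  have h1 : ∀ a b : Additive (CoordRing m u)ˣ, ZZ S.f (lA m hu) s t (a + b) =
      ZZ S.f (lA m hu) s t a + ZZ S.f (lA m hu) s t b := fun a b => S.f.map_update_add _ _ _ _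
  have h2 : ZZ S.f (lA m hu) s t 0 = 0 := S.f.map_update_zero _ _
  rw [two_nsmul, ← h1, ← ofMul_mul, ← map_mul]
  have h3 : c * c = 1 := by
    rcases hc with h | h <;> rw [h] <;> simp
  rw [h3, map_one]
  exact h2

end

/-! ### Step 2: the functionals -/

/-- The numbers which are determined by the functionals. -/
def EE (u : ℤ) (p : ℕ) (ν : (Fin (m + 1) → Fin 3) → ℤ) (q : (Fin (m + 1) → Fin 3) → ℚˣ)
    (t : Fin (m + 1) → Fin 3) : ℤ :=
  if Has2 t then padicValRat p (q t : ℚ) else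
    ν t * (padicValRat p (u : ℚ) - (if p = 2 then 2 else 0) *
      ((Finset.univ.filter fun i => t i = 1).card : ℤ))

theorem sum_EE (hm : 2 ≤ m) (hu : u ≠ 0) (η : MilnorK (m + 1) (CoordRing m u))
    (hη : P4a177w.UnramifiedOverQ η) (N : ℕ) (ν : (Fin (m + 1) → Fin 3) → ℤ)
    (q : (Fin (m + 1) → Fin 3) → ℚˣ)
    (h : N • η - zeta hu ν q ∈ Tor (m + 1) (CoordRing m u)) (p : ℕ) [Fact p.Prime]
    (r : Fin (m + 1) → Fin 4) (hr : Mixed r) :
    ∑ t, EE u p ν q t * ∏ l, ev (r l) (t l) = 0 := by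
  have hdom := isDomainZ hm hu
  obtain ⟨v, hv, hT⟩ := exists_funZ hm hu r hr (FractionRing (CoordRing m u))
  obtain ⟨T, hT1, hT2, hT3⟩ := hT p
  have h1 : T (map (algebraMap (CoordRing m u) (FractionRing (CoordRing m u))) η) = 0 :=
    hT1 _ (hη _ v hv)
  obtain ⟨k, hk, hk2⟩ := map_tor (algebraMap (CoordRing m u) (FractionRing (CoordRing m u))) h
  have h2 : T (map (algebraMap (CoordRing m u) (FractionRing (CoordRing m u)))
      (zeta hu ν q)) = 0 := by
    have h5 := congrArg T hk2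
    rw [map_nsmul, map_zero, nsmul_eq_mul, mul_eq_zero] at h5
    rcases h5 with h5 | h5
    · exact absurd (by exact_mod_cast h5) hk.ne'
    · rw [map_sub, map_sub, map_nsmul, map_nsmul, h1, smul_zero, zero_sub, neg_eq_zero] at h5
      exact h5
  rw [← h2]
  unfold zeta
  rw [map_sum, map_sum]
  refine Finset.sum_congr rfl fun t _ => ?_
  unfold EE
  by_cases ht : Has2 t
  · rw [if_pos ht, if_pos ht]
    exact (hT2 (pos t) t (q t) (pos_spec ht)).symm
  · rw [if_neg ht, if_neg ht, map_zsmul, map_zsmul]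
    have h3 := hT3 t (fun i hi => ht ⟨i, hi⟩)
    unfold swd
    rw [h3, smul_eq_mul]
    ring

theorem EE_zero (hm : 2 ≤ m) (hu : u ≠ 0) (η : MilnorK (m + 1) (CoordRing m u))
    (hη : P4a177w.UnramifiedOverQ η) (N : ℕ) (ν : (Fin (m + 1) → Fin 3) → ℤ)
    (q : (Fin (m + 1) → Fin 3) → ℚˣ)
    (h : N • η - zeta hu ν q ∈ Tor (m + 1) (CoordRing m u)) (p : ℕ) [Fact p.Prime]
    (t : Fin (m + 1) → Fin 3) (h0 : ¬ ∀ l, t l = 0) (h1 : ¬ ∀ l, t l = 1) :
    EE u p ν q t = 0 :=
  killZ (by omega) (EE u p ν q) (fun r hr => sum_EE hm hu η hη N ν q h p r hr) t h0 h1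

/-! ### Step 3: the coefficients -/

theorem q_one (hm : 2 ≤ m) (hu : u ≠ 0) (η : MilnorK (m + 1) (CoordRing m u))
    (hη : P4a177w.UnramifiedOverQ η) (N : ℕ) (ν : (Fin (m + 1) → Fin 3) → ℤ)
    (q : (Fin (m + 1) → Fin 3) → ℚˣ)
    (h : N • η - zeta hu ν q ∈ Tor (m + 1) (CoordRing m u)) (t : Fin (m + 1) → Fin 3)
    (ht : Has2 t) : q t = 1 ∨ q t = -1 := by
  apply eq_one_of_padic
  intro p hp
  obtain ⟨s, hs⟩ := ht
  have h1 := EE_zero hm hu η hη N ν q h p t
    (fun h0 => by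
      have := h0 s
      rw [hs] at this
      exact absurd this (by decide))
    (fun h0 => by
      have := h0 s
      rw [hs] at this
      exact absurd this (by decide))
  unfold EE at h1
  rw [if_pos ⟨s, hs⟩] at h1
  exact h1

theorem padic_four (p : ℕ) [hp : Fact p.Prime] :
    padicValRat p (4 : ℚ) = if p = 2 then 2 else 0 := by
  have h4 : (4 : ℚ) = 2 * 2 := by norm_num
  rw [h4, padicValRat.mul (by norm_num) (by norm_num)]
  split_ifs with h
  · subst h
    have : padicValRat 2 (2 : ℚ) = 1 := by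
      have h := padicValRat.self (p := 2) (by norm_num)
      exact_mod_cast h
    rw [this]
    norm_num
  · have h2 : padicValRat p (2 : ℚ) = 0 := by
      have h1 : ((2 : ℕ) : ℚ) = 2 := by norm_num
      rw [← h1, padicValRat.of_nat, Nat.cast_eq_zero]
      apply padicValNat.eq_zero_of_not_dvd
      intro hd
      exact h ((Nat.prime_dvd_prime_iff_eq hp.out Nat.prime_two).1 hd)
    rw [h2]
    norm_num

theorem abs_of_padic (hu : u ≠ 0) (B : ℕ)
    (h : ∀ (p : ℕ) [Fact p.Prime], padicValRat p (u : ℚ) - (if p = 2 then 2 else 0) * (B : ℤ) = 0) :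
    |u| = 4 ^ B := by
  have huQ : (u : ℚ) ≠ 0 := Int.cast_ne_zero.2 hu
  set c : ℚˣ := Units.mk0 ((u : ℚ) / 4 ^ B) (div_ne_zero huQ (by positivity)) with hc
  have h1 : c = 1 ∨ c = -1 := by
    apply eq_one_of_padic
    intro p hp
    rw [hc, Units.val_mk0, padicValRat.div huQ (by positivity), padicValRat.pow,
      padic_four]
    have h2 := h p
    rw [mul_comm] at h2
    exact h2
  have h2 : (u : ℚ) = 4 ^ B ∨ (u : ℚ) = -4 ^ B := by
    rcases h1 with h1 | h1
    · left
      have h3 := congrArg Units.val h1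
      rw [hc, Units.val_mk0, Units.val_one, div_eq_one_iff_eq (by positivity)] at h3
      exact h3
    · right
      have h3 := congrArg Units.val h1
      rw [hc, Units.val_mk0, Units.val_neg, Units.val_one, div_eq_iff (by positivity),
        neg_one_mul] at h3
      exact h3
  have h3 : u = 4 ^ B ∨ u = -4 ^ B := by
    rcases h2 with h2 | h2
    · left
      exact_mod_cast h2
    · right
      exact_mod_cast h2
  rcases h3 with h3 | h3
  · rw [h3, abs_of_pos (by positivity)]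
  · rw [h3, abs_neg, abs_of_pos (by positivity)]

theorem card_range (t : Fin (m + 1) → Fin 3) (ht : ¬ Has2 t) (h0 : ¬ ∀ l, t l = 0)
    (h1 : ¬ ∀ l, t l = 1) : 1 ≤ (Finset.univ.filter fun i => t i = 1).card ∧
      (Finset.univ.filter fun i => t i = 1).card ≤ m := by
  constructor
  · rw [Nat.one_le_iff_ne_zero, Ne, Finset.card_eq_zero, Finset.filter_eq_empty_iff]
    intro h
    apply h0
    intro l
    have h2 := h (Finset.mem_univ l)
    have h3 : t l ≠ 2 := fun h => ht ⟨l, h⟩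
    generalize t l = a at h2 h3
    fin_cases a
    · rfl
    · exact absurd rfl h2
    · exact absurd rfl h3
  · by_contra hcon
    apply h1
    have h2 : (Finset.univ.filter fun i => t i = 1).card = m + 1 := by
      have h3 := Finset.card_filter_le (Finset.univ : Finset (Fin (m + 1))) (fun i => t i = 1)
      rw [Finset.card_univ, Fintype.card_fin] at h3
      omega
    intro l
    have h3 : (Finset.univ.filter fun i => t i = 1) = Finset.univ := by
      apply Finset.eq_univ_of_card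
      rw [h2, Fintype.card_fin]
    have h4 : l ∈ (Finset.univ.filter fun i => t i = 1) := by
      rw [h3]
      exact Finset.mem_univ l
    exact (Finset.mem_filter.1 h4).2

theorem nu_zero (hm : 2 ≤ m) (hu : u ≠ 0) (h4 : ∀ j, 1 ≤ j → j ≤ m → |u| ≠ 4 ^ j)
    (η : MilnorK (m + 1) (CoordRing m u))
    (hη : P4a177w.UnramifiedOverQ η) (N : ℕ) (ν : (Fin (m + 1) → Fin 3) → ℤ)
    (q : (Fin (m + 1) → Fin 3) → ℚˣ)
    (h : N • η - zeta hu ν q ∈ Tor (m + 1) (CoordRing m u)) (t : Fin (m + 1) → Fin 3)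
    (ht : ¬ Has2 t) (h0 : ¬ ∀ l, t l = 0) (h1 : ¬ ∀ l, t l = 1) : ν t = 0 := by
  by_contra hν
  obtain ⟨hB1, hB2⟩ := card_range t ht h0 h1
  refine h4 _ hB1 hB2 (abs_of_padic hu _ fun p hp => ?_)
  have h2 := EE_zero hm hu η hη N ν q h p t h0 h1
  unfold EE at h2
  rw [if_neg ht] at h2
  exact (mul_eq_zero.1 h2).resolve_left hν

/-! ### Step 4: conclusion -/

/-- The two elements. -/
def xiZ (hu : u ≠ 0) : Fin 2 → MilnorK (m + 1) (CoordRing m u) :=
  ![symb fun i => -(x m u i) ^ 2, symb fun i => -(w m hu i) ^ 2]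

theorem map_sq {G : Type} [AddCommGroup G]
    (π : MilnorK (m + 1) (CoordRing m u) →+ G) (S : Alt (CoordRing m u) (m + 1) G)
    (hS : ∀ a : Fin (m + 1) → (CoordRing m u)ˣ,
      S.f (fun k => Additive.ofMul (a k)) = π (symb a)) (a : Fin (m + 1) → (CoordRing m u)ˣ) :
    π (symb fun i => -(a i) ^ 2) = 2 ^ (m + 1) • S.f (fun k => Additive.ofMul (a k)) := by
  rw [← hS]
  have h := neg_all S (fun k => Additive.ofMul ((a k) ^ 2)) Finset.univ
  have h1 : (fun i => Additive.ofMul (-(a i) ^ 2)) = fun i => if i ∈ (Finset.univ : Finset _) then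
      Additive.ofMul ((a i) ^ 2) + Additive.ofMul (-1) else Additive.ofMul ((a i) ^ 2) := by
    funext i
    rw [if_pos (Finset.mem_univ i), ← ofMul_mul, mul_neg_one]
  rw [h1, h]
  have h2 : (fun k => Additive.ofMul ((a k) ^ 2)) =
      fun k => (2 : ℤ) • Additive.ofMul (a k) := by
    funext k
    rw [ofMul_pow]
    exact (natCast_zsmul _ 2).symm
  have h3 := S.f.toMultilinearMap.map_smul_univ (fun _ => (2 : ℤ)) (fun k => Additive.ofMul (a k))
  rw [h2]
  have h4 : S.f (fun k => (2 : ℤ) • Additive.ofMul (a k)) =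
      (∏ _k : Fin (m + 1), (2 : ℤ)) • S.f (fun k => Additive.ofMul (a k)) := h3
  rw [h4, Finset.prod_const, Finset.card_univ, Fintype.card_fin, ← natCast_zsmul]
  norm_cast

/-- The sum over the words has only two terms. -/
theorem sum_two {G : Type} [AddCommGroup G] (ν : (Fin (m + 1) → Fin 3) → ℤ)
    (F : (Fin (m + 1) → Fin 3) → G)
    (hν : ∀ t, ¬ Has2 t → (¬ ∀ l, t l = 0) → (¬ ∀ l, t l = 1) → ν t = 0) :
    (∑ t, if Has2 t then 0 else ν t • F t) =
      ν (fun _ => 0) • F (fun _ => 0) + ν (fun _ => 1) • F (fun _ => 1) := by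
  classical
  have hne : (fun _ => 0 : Fin (m + 1) → Fin 3) ≠ (fun _ => 1) := by
    intro h
    have := congrFun h 0
    exact absurd this (by decide)
  rw [← Finset.sum_subset (Finset.subset_univ {(fun _ => 0 : Fin (m + 1) → Fin 3), fun _ => 1}),
    Finset.sum_pair hne]
  · have h0 : ¬ Has2 (fun _ => 0 : Fin (m + 1) → Fin 3) := by
      rintro ⟨s, hs⟩
      have hs' : (0 : Fin 3) = 2 := hs
      exact absurd hs' (by decide)
    have h1 : ¬ Has2 (fun _ => 1 : Fin (m + 1) → Fin 3) := by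
      rintro ⟨s, hs⟩
      have hs' : (1 : Fin 3) = 2 := hs
      exact absurd hs' (by decide)
    rw [if_neg h0, if_neg h1]
  · intro t _ ht
    rw [Finset.mem_insert, Finset.mem_singleton, not_or] at ht
    split_ifs with h
    · rfl
    · rw [hν t h (fun h' => ht.1 (funext h')) (fun h' => ht.2 (funext h')), zero_smul]

/-- The multiple. -/
def MZ (m : ℕ) : ℕ := 2 ^ (m + 1) * (2 ^ m * (2 ^ (m + 2)) ^ (m + 1))

theorem spansZ (hm : 2 ≤ m) (hu : u ≠ 0) (η : MilnorK (m + 1) (CoordRing m u))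
    (hη : P4a177w.UnramifiedOverQ η)
    (h4 : (∀ j, 1 ≤ j → j ≤ m → |u| ≠ 4 ^ j) ∨ P4a177o.Invariant η) :
    ∃ c : Fin 2 → ℤ, MZ m • η - ∑ i, c i • xiZ hu i ∈ Tor (m + 1) (CoordRing m u) := by
  obtain ⟨S, hS⟩ := exists_uni (m + 1) (CoordRing m u)
  obtain ⟨π, hπ⟩ : ∃ π : MilnorK (m + 1) (CoordRing m u) →+
      MilnorK (m + 1) (CoordRing m u) ⧸ Tor (m + 1) (CoordRing m u),
      π = QuotientAddGroup.mk' (Tor (m + 1) (CoordRing m u)) := ⟨_, rfl⟩
  have hS' : ∀ a : Fin (m + 1) → (CoordRing m u)ˣ,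
      S.f (fun k => Additive.ofMul (a k)) = π (symb a) := by
    rw [hπ]
    exact hS
  have hmem : ∀ y, π y = 0 → y ∈ Tor (m + 1) (CoordRing m u) := by
    rw [hπ]
    exact fun y hy => (QuotientAddGroup.eq_zero_iff y).1 hy
  obtain ⟨N, hN⟩ : ∃ N : ℕ, N = (2 ^ (m + 2)) ^ (m + 1) := ⟨_, rfl⟩
  obtain ⟨ν, c, hc, h1⟩ := explicitZ S.f (CC (CoordRing m u)) (lA m hu) (relZ m hu S)
    (in_HZ hm hu π S hS' η)
  rw [← hN, ← map_nsmul] at h1
  choose q hq using hc
  have hq' : ∀ t, Additive.ofMul (P4a177w.cs (CoordRing m u) (q t).toMul) = c t := hq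
  have h2 : π (zeta hu ν fun t => (q t).toMul) = π (N • η) := by
    rw [h1]
    unfold zeta
    rw [map_sum]
    refine Finset.sum_congr rfl fun t _ => ?_
    split_ifs with ht
    · rw [map_szz π S hS', hq']
    · rw [map_zsmul, map_swd π S hS']
  have h3 : N • η - zeta hu ν (fun t => (q t).toMul) ∈ Tor (m + 1) (CoordRing m u) := by
    apply hmem
    rw [map_sub, h2, sub_self]
  have h5 : π (N • η) = ∑ t, if Has2 t then 0 else ν t • S.f (wd (lA m hu) t) := by
    rw [h1]
    refine Finset.sum_congr rfl fun t _ => ?_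
    by_cases ht : Has2 t
    · rw [if_pos ht, if_pos ht, ← hq', ← map_szz π S hS']
      exact szz_zero π S hS' hu _ t _ (q_one hm hu η hη N ν _ h3 t ht)
    · rw [if_neg ht, if_neg ht]
  have h6 : 2 ^ m • π (N • η) =
      2 ^ m • (ν (fun _ => 0) • S.f (wd (lA m hu) fun _ => 0) +
        ν (fun _ => 1) • S.f (wd (lA m hu) fun _ => 1)) := by
    rcases h4 with h4 | h4
    · rw [h5, sum_two ν _ (fun t ht h0 h1 => nu_zero hm hu h4 η hη N ν _ h3 t ht h0 h1)]
    · rw [hπ] at h5 ⊢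
      exact inv_avgZ (by omega) hu S hS η h4 N ν h5
  refine ⟨![2 ^ m * ν (fun _ => 0), 2 ^ m * ν (fun _ => 1)], hmem _ ?_⟩
  have h7 : π (xiZ hu 0) = 2 ^ (m + 1) • S.f (wd (lA m hu) fun _ => 0) :=
    map_sq π S hS' (x m u)
  have h8 : π (xiZ hu 1) = 2 ^ (m + 1) • S.f (wd (lA m hu) fun _ => 1) :=
    map_sq π S hS' (w m hu)
  have h9 : π (MZ m • η) = 2 ^ (m + 1) • (2 ^ m • π (N • η)) := by
    unfold MZ
    rw [← hN, map_nsmul, map_nsmul, mul_nsmul', mul_nsmul']
  rw [map_sub, h9, h6, Fin.sum_univ_two, map_add, map_zsmul, map_zsmul, h7, h8]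
  simp only [Matrix.cons_val_zero, Matrix.cons_val_one]
  module

/-- **Main theorem.** -/
theorem spannedByZ (hm : 2 ≤ m) (hu : u ≠ 0) {η : MilnorK (m + 1) (CoordRing m u)}
    (hη : P4a177w.UnramifiedOverQ η)
    (h4 : (∀ j, 1 ≤ j → j ≤ m → |u| ≠ 4 ^ j) ∨ P4a177o.Invariant η) :
    P4a177u.SpannedBy (xiZ hu) (MZ m) η := by
  obtain ⟨c, hc⟩ := spansZ hm hu η hη h4
  exact ⟨c, fun K _ _ _ => P4a177u.isOfFinAddOrder_of (map_tor (algebraMap _ K) hc),
    fun γ => reg_tor γ hc⟩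

end

end P4a177z
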