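import Pool.Agent.Lib.P4a177c.TwoEl
import Pool.Agent.Lib.P4a177z.MainZ

/-!
# The determinants of the regulators of the two explicit elements

The proofs of `P4a177c.main_even` and `P4a177o.main` with the explicit elements `xiZ`.
-/

set_option autoImplicit false

namespace P4a177z

open P4a177h P4a177t P4a177o Function MeasureTheory Filter Topology
open scoped Real

noncomputable section

variable {m : ℕ}

theorem det_even (hm : Even m) (hm2 : 2 ≤ m) {u : ℤ} (hu : u ≠ 0) (hdvd : u ∣ 4 ^ (m + 1)) :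
    (∀ p, P4a177s.Admissible (xiZ (m := m) hu p) ∧ P4a177s.UnramifiedEverywhere (xiZ (m := m) hu p) ∧
      Invariant (xiZ (m := m) hu p)) ∧
    ∃ γ : Fin 2 → Torus m (CoordRing m u),
      (P4a177s.regulatorMatrix (xiZ (m := m) hu) γ).det ≠ 0 := by
  obtain ⟨k, hk⟩ := hdvd
  have h4 : (4 : ℤ) ^ (m + 1) ≠ 0 := pow_ne_zero _ (by norm_num)
  have hk0 : k ≠ 0 := by
    rintro rfl
    rw [mul_zero] at hk
    exact h4 hk
  -- the parameter of the isomorphic hypersurface
  obtain ⟨u', hu', huu⟩ : ∃ u' : ℤ, u' ≠ 0 ∧ u * u' = (-4) ^ (m + 1) := by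
    refine ⟨-k, neg_ne_zero.2 hk0, ?_⟩
    rw [(hm.add_one).neg_pow, hk]
    ring
  have huu' : u' * u = (-4) ^ (m + 1) := by rw [mul_comm]; exact huu
  have hm1 : 1 ≤ m := by omega
  set v : ℝ := |(u : ℝ)| / 2 ^ (m + 1) with hv
  set v' : ℝ := |(u' : ℝ)| / 2 ^ (m + 1) with hv'
  have huR : (u : ℝ) ≠ 0 := by exact_mod_cast hu
  have hv0 : 0 < v := by
    rw [hv]
    have := abs_pos.2 huR
    positivity
  have hvv : v' = v⁻¹ := by
    have h1 : |(u : ℝ)| * |(u' : ℝ)| = 4 ^ (m + 1) := by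
      rw [← abs_mul]
      have := congrArg (Int.cast : ℤ → ℝ) huu
      push_cast at this
      rw [this, abs_pow]
      norm_num
    have h2 : v * v' = 1 := by
      rw [hv, hv', div_mul_div_comm, h1, ← mul_pow]
      norm_num
    exact eq_inv_of_mul_eq_one_right h2
  -- the limit of the determinants
  have hdet : MM m v * MM m v' + (-(|(u : ℝ)| / u) * NN m v) * (-(|(u' : ℝ)| / u') * NN m v') ≠ 0 := by
    have h1 := det_pos hm1 hv0
    have h2 := abs_div_mul hm huu
    rw [← hvv] at h1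
    have h3 : MM m v * MM m v' + (-(|(u : ℝ)| / u) * NN m v) * (-(|(u' : ℝ)| / u') * NN m v') =
        MM m v * MM m v' - NN m v * NN m v' := by
      linear_combination (NN m v * NN m v') * h2
    rw [h3]
    exact (sub_pos.2 h1).ne'
  obtain ⟨r0, hr00, hr01, hr0⟩ := good_cc (m := m) hm hu
  obtain ⟨r1, hr10, hr11, hr1⟩ := good_cc (m := m) hm hu'
  have hlim := ((lim_x hm hm1 hu).mul (lim_x hm hm1 hu')).add
    ((tendsto_LL hm hm1 hu).mul (tendsto_LL hm hm1 hu'))
  have hev := hlim.eventually_ne hdet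
  have hmem : Set.Ioo (max r0 r1) 1 ∈ 𝓝[<] (1 : ℝ) := Ioo_mem_nhdsLT (max_lt hr01 hr11)
  obtain ⟨r, hr, hrI⟩ := (hev.and hmem).exists
  have hra : r0 < r := (le_max_left _ _).trans_lt hrI.1
  have hrb : r1 < r := (le_max_right _ _).trans_lt hrI.1
  have hr0' : 0 < r := hr00.trans hra
  have hr1' : r < 1 := hrI.2
  obtain ⟨γ, hγ, hγ0⟩ := exists_torus (m := m) (u := u) hr0' hr1' (hr0 r hra hr1')
  obtain ⟨γ', hγ', hγ0'⟩ := exists_torus (m := m) (u := u') hr0' hr1' (hr1 r hrb hr1')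
  have e1 := reg_x hu hr0' hr1' (hr0 r hra hr1') γ hγ hγ0
  have e2 := reg_w hu hr0' hr1' (hr0 r hra hr1') γ hγ hγ0
  have e3 := reg_x hu' hr0' hr1' (hr1 r hrb hr1') γ' hγ' hγ0'
  have e4 := reg_w hu' hr0' hr1' (hr1 r hrb hr1') γ' hγ' hγ0'
  rw [← e1, ← e2, ← e3, ← e4] at hr
  -- the morphism from the hypersurface `u'` to the hypersurface `u`
  set φ : CoordRing m u →+* CoordRing m u' := swap hu' huu' with hφ
  refine ⟨?_, ![γ, comap φ γ'], ?_⟩
  · intro p
    fin_cases p
    · exact ⟨admissible_sq _ (x_on m u), unramified_sq _ (x_on m u), inv_x⟩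
    · exact ⟨admissible_sq _ (mob_on hu huu _ _), unramified_sq _ (mob_on hu huu _ _), inv_w hu⟩
  · have f1 : reg γ (symb fun i => -(x m u i) ^ 2) = 2 ^ (m + 1) * regFun γ (x m u) := by
      rw [reg_symb, regFun_neg_sq]
    have f2 : reg γ (symb fun i => -(w m hu i) ^ 2) = 2 ^ (m + 1) * regFun γ (w m hu) := by
      rw [reg_symb, regFun_neg_sq]
    have hodd : Odd (m + 1) := hm.add_one
    have g1 : regFun (comap φ γ') (x m u) = regFun γ' (w m hu') := by
      have h := regFun_scale (comap φ γ') γ' (x m u) (w m hu') 1 (fun k θ => ?_) (fun k θ l => ?_)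
      · rwa [one_pow, one_mul] at h
      · rw [one_mul]
        show Real.log ‖γ'.emb θ (φ (x m u k : CoordRing m u))‖ = _
        rw [hφ, swap_x]
      · rw [Complex.ofReal_one, one_mul]
        show -Complex.I * (fderiv ℝ (fun θ => γ'.emb θ (φ (x m u k : CoordRing m u))) θ
          (Pi.single l 1) / γ'.emb θ (φ (x m u k : CoordRing m u))) = _
        rw [hφ, swap_x]
        rfl
    have g2 : regFun (comap φ γ') (w m hu) = -regFun γ' (x m u') := by
      have hw : ∀ k, φ (w m hu k : CoordRing m u) = ((-(x m u' k)⁻¹ : (CoordRing m u')ˣ) :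
          CoordRing m u') := fun k => by
        rw [← (Units.isUnit (x m u' k)).mul_left_inj, swap_w (m := m) hu' hu huu' k,
          Units.val_neg, neg_mul, Units.inv_mul]
      have h := regFun_scale (comap φ γ') γ' (w m hu) (x m u') (-1) (fun k θ => ?_)
        (fun k θ l => ?_)
      · rw [h, hodd.neg_one_pow]
        ring
      · show Real.log ‖γ'.emb θ (φ (w m hu k : CoordRing m u))‖ = _
        rw [hw k, Units.val_neg, map_neg, norm_neg]
        have hne : γ'.emb θ (x m u' k : CoordRing m u') ≠ 0 := emb_ne_zero γ' _ θ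
        have h3 : γ'.emb θ (((x m u' k)⁻¹ : (CoordRing m u')ˣ) : CoordRing m u') =
            (γ'.emb θ (x m u' k : CoordRing m u'))⁻¹ := by
          refine eq_inv_of_mul_eq_one_left ?_
          rw [← map_mul, Units.inv_mul, map_one]
        rw [h3, norm_inv, Real.log_inv]
        ring
      · have h4 : dlogRow (comap φ γ') (w m hu k) θ = dlogRow γ' (-(x m u' k)⁻¹) θ := by
          funext l
          show -Complex.I * (fderiv ℝ (fun θ => γ'.emb θ (φ (w m hu k : CoordRing m u))) θ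
            (Pi.single l 1) / γ'.emb θ (φ (w m hu k : CoordRing m u))) = _
          rw [hw k]
          rfl
        rw [h4, dlogRow_neg, dlogRow_inv']
        simp
    have f3 : reg (comap φ γ') (symb fun i => -(x m u i) ^ 2) =
        2 ^ (m + 1) * regFun γ' (w m hu') := by
      rw [reg_symb, regFun_neg_sq, g1]
    have f4 : reg (comap φ γ') (symb fun i => -(w m hu i) ^ 2) =
        -(2 ^ (m + 1) * regFun γ' (x m u')) := by
      rw [reg_symb, regFun_neg_sq, g2]
      ring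
    rw [Matrix.det_fin_two]
    simp only [xiZ, P4a177s.regulatorMatrix, Matrix.of_apply, Matrix.cons_val_zero, Matrix.cons_val_one]
    rw [f1, f2, f3, f4]
    intro h0
    apply hr
    have h2 : (2 : ℝ) ^ (m + 1) * 2 ^ (m + 1) ≠ 0 := by positivity
    have h3 : (2 : ℝ) ^ (m + 1) * 2 ^ (m + 1) * (regFun γ (x m u) * regFun γ' (x m u') +
        regFun γ (w m hu) * regFun γ' (w m hu')) = 0 := by
      linear_combination -h0
    exact (mul_eq_zero.1 h3).resolve_left h2

theorem det_odd (hm : Odd m) (hm3 : 3 ≤ m) {u : ℤ} (hu : u ≠ 0) (hdvd : u ∣ 4 ^ (m + 1))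
    (hu2 : |u| ≠ 2 ^ (m + 1)) :
    (∀ p, P4a177s.Admissible (xiZ (m := m) hu p) ∧ P4a177s.UnramifiedEverywhere (xiZ (m := m) hu p) ∧
      Invariant (xiZ (m := m) hu p)) ∧
    ∃ γ : Fin 2 → Torus m (CoordRing m u),
      (P4a177s.regulatorMatrix (xiZ (m := m) hu) γ).det ≠ 0 := by
  obtain ⟨k, hk⟩ := hdvd
  have h4 : (4 : ℤ) ^ (m + 1) ≠ 0 := pow_ne_zero _ (by norm_num)
  have hk0 : k ≠ 0 := by
    rintro rfl
    rw [mul_zero] at hk
    exact h4 hk
  -- the parameter of the isomorphic hypersurface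
  obtain ⟨u', hu', huu⟩ : ∃ u' : ℤ, u' ≠ 0 ∧ u * u' = (-4) ^ (m + 1) := by
    refine ⟨k, hk0, ?_⟩
    rw [(hm.add_one).neg_pow, hk]
  have huu' : u' * u = (-4) ^ (m + 1) := by rw [mul_comm]; exact huu
  set v : ℝ := |(u : ℝ)| / 2 ^ (m + 1) with hv
  set v' : ℝ := |(u' : ℝ)| / 2 ^ (m + 1) with hv'
  have huR : (u : ℝ) ≠ 0 := by exact_mod_cast hu
  have hv0 : 0 < v := by
    rw [hv]
    have := abs_pos.2 huR
    positivity
  have hprod : |(u : ℝ)| * |(u' : ℝ)| = 4 ^ (m + 1) := by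
    rw [← abs_mul]
    have := congrArg (Int.cast : ℤ → ℝ) huu
    push_cast at this
    rw [this, abs_pow]
    norm_num
  have hvv : v' = v⁻¹ := by
    have h2 : v * v' = 1 := by
      rw [hv, hv', div_mul_div_comm, hprod, ← mul_pow]
      norm_num
    exact eq_inv_of_mul_eq_one_right h2
  have hu2R : |(u : ℝ)| ≠ 2 ^ (m + 1) := by
    intro h
    apply hu2
    exact_mod_cast h
  have hu2R' : |(u' : ℝ)| ≠ 2 ^ (m + 1) := by
    intro h
    apply hu2R
    rw [h, show (4 : ℝ) ^ (m + 1) = 2 ^ (m + 1) * 2 ^ (m + 1) by rw [← mul_pow]; norm_num] at hprod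
    exact mul_right_cancel₀ (pow_ne_zero _ (by norm_num)) hprod
  -- the limit of the determinants
  have hdet : MMo m v * MMo m v' - (-(|(u : ℝ)| / u) * NNo m v) * (-(|(u' : ℝ)| / u') * NNo m v') ≠
      0 := by
    have h1 := det_poso (m := m) (by omega) hv0
    have h2 := sign_mul hm huu
    rw [← hvv] at h1
    have h3 : MMo m v * MMo m v' - (-(|(u : ℝ)| / u) * NNo m v) * (-(|(u' : ℝ)| / u') * NNo m v') =
        MMo m v * MMo m v' - NNo m v * NNo m v' := by
      linear_combination (-(NNo m v * NNo m v')) * h2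
    rw [h3]
    exact (sub_pos.2 h1).ne'
  obtain ⟨e0, he00, he01, he0⟩ := good_cco (m := m) hm hu hu2R
  obtain ⟨e1, he10, he11, he1⟩ := good_cco (m := m) hm hu' hu2R'
  have hlim := ((tendsto_RX hm hu hu2R).mul (tendsto_RX hm hu' hu2R')).sub
    ((tendsto_w hm hu hu2R).mul (tendsto_w hm hu' hu2R'))
  have hev := hlim.eventually_ne hdet
  have hmem : Set.Ioo 0 (min e0 e1) ∈ 𝓝[>] (0 : ℝ) := Ioo_mem_nhdsGT (lt_min he00 he10)
  obtain ⟨ε, hr, hrI⟩ := (hev.and hmem).exists
  have hε0 : 0 < ε := hrI.1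
  have hea : ε < e0 := hrI.2.trans_le (min_le_left _ _)
  have heb : ε < e1 := hrI.2.trans_le (min_le_right _ _)
  obtain ⟨γ, hγ, hγ0⟩ := exists_toruso (m := m) (u := u) hε0 (he0 ε hε0 hea)
  obtain ⟨γ', hγ', hγ0'⟩ := exists_toruso (m := m) (u := u') hε0 (he1 ε hε0 heb)
  have f1' : regFun γ (x m u) = RX m u ε := reg_xo hu hε0 (he0 ε hε0 hea) γ hγ hγ0
  have f2' : regFun γ (w m hu) = _ := reg_wo hu hε0 (he0 ε hε0 hea) γ hγ hγ0
  have f3' : regFun γ' (x m u') = RX m u' ε := reg_xo hu' hε0 (he1 ε hε0 heb) γ' hγ' hγ0'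
  have f4' : regFun γ' (w m hu') = _ := reg_wo hu' hε0 (he1 ε hε0 heb) γ' hγ' hγ0'
  rw [← f1', ← f2', ← f3', ← f4'] at hr
  -- the morphism from the hypersurface `u'` to the hypersurface `u`
  set φ : CoordRing m u →+* CoordRing m u' := swap hu' huu' with hφ
  refine ⟨?_, ![γ, comap φ γ'], ?_⟩
  · intro p
    fin_cases p
    · exact ⟨admissible_sq _ (x_on m u), unramified_sq _ (x_on m u), inv_x⟩
    · exact ⟨admissible_sq _ (mob_on hu huu _ _), unramified_sq _ (mob_on hu huu _ _), inv_w hu⟩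
  · have f1 : reg γ (symb fun i => -(x m u i) ^ 2) = 2 ^ (m + 1) * regFun γ (x m u) := by
      rw [reg_symb, regFun_neg_sq]
    have f2 : reg γ (symb fun i => -(w m hu i) ^ 2) = 2 ^ (m + 1) * regFun γ (w m hu) := by
      rw [reg_symb, regFun_neg_sq]
    have heven : Even (m + 1) := hm.add_one
    have g1 : regFun (comap φ γ') (x m u) = regFun γ' (w m hu') := by
      have h := regFun_scale (comap φ γ') γ' (x m u) (w m hu') 1 (fun k θ => ?_) (fun k θ l => ?_)
      · rwa [one_pow, one_mul] at h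
      · rw [one_mul]
        show Real.log ‖γ'.emb θ (φ (x m u k : CoordRing m u))‖ = _
        rw [hφ, swap_x]
      · rw [Complex.ofReal_one, one_mul]
        show -Complex.I * (fderiv ℝ (fun θ => γ'.emb θ (φ (x m u k : CoordRing m u))) θ
          (Pi.single l 1) / γ'.emb θ (φ (x m u k : CoordRing m u))) = _
        rw [hφ, swap_x]
        rfl
    have g2 : regFun (comap φ γ') (w m hu) = regFun γ' (x m u') := by
      have hw : ∀ k, φ (w m hu k : CoordRing m u) = ((-(x m u' k)⁻¹ : (CoordRing m u')ˣ) :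
          CoordRing m u') := fun k => by
        rw [← (Units.isUnit (x m u' k)).mul_left_inj, swap_w (m := m) hu' hu huu' k,
          Units.val_neg, neg_mul, Units.inv_mul]
      have h := regFun_scale (comap φ γ') γ' (w m hu) (x m u') (-1) (fun k θ => ?_)
        (fun k θ l => ?_)
      · rw [h, heven.neg_one_pow, one_mul]
      · show Real.log ‖γ'.emb θ (φ (w m hu k : CoordRing m u))‖ = _
        rw [hw k, Units.val_neg, map_neg, norm_neg]
        have hne : γ'.emb θ (x m u' k : CoordRing m u') ≠ 0 := emb_ne_zero γ' _ θ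
        have h3 : γ'.emb θ (((x m u' k)⁻¹ : (CoordRing m u')ˣ) : CoordRing m u') =
            (γ'.emb θ (x m u' k : CoordRing m u'))⁻¹ := by
          refine eq_inv_of_mul_eq_one_left ?_
          rw [← map_mul, Units.inv_mul, map_one]
        rw [h3, norm_inv, Real.log_inv]
        ring
      · have h4 : dlogRow (comap φ γ') (w m hu k) θ = dlogRow γ' (-(x m u' k)⁻¹) θ := by
          funext l
          show -Complex.I * (fderiv ℝ (fun θ => γ'.emb θ (φ (w m hu k : CoordRing m u))) θ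
            (Pi.single l 1) / γ'.emb θ (φ (w m hu k : CoordRing m u))) = _
          rw [hw k]
          rfl
        rw [h4, P4a177t.dlogRow_neg, dlogRow_inv']
        simp
    have f3 : reg (comap φ γ') (symb fun i => -(x m u i) ^ 2) =
        2 ^ (m + 1) * regFun γ' (w m hu') := by
      rw [reg_symb, regFun_neg_sq, g1]
    have f4 : reg (comap φ γ') (symb fun i => -(w m hu i) ^ 2) =
        2 ^ (m + 1) * regFun γ' (x m u') := by
      rw [reg_symb, regFun_neg_sq, g2]
    rw [Matrix.det_fin_two]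
    simp only [xiZ, P4a177s.regulatorMatrix, Matrix.of_apply, Matrix.cons_val_zero, Matrix.cons_val_one]
    rw [f1, f2, f3, f4]
    intro h0
    apply hr
    have h2 : (2 : ℝ) ^ (m + 1) * 2 ^ (m + 1) ≠ 0 := by positivity
    have h3 : (2 : ℝ) ^ (m + 1) * 2 ^ (m + 1) * (regFun γ (x m u) * regFun γ' (x m u') -
        regFun γ (w m hu) * regFun γ' (w m hu')) = 0 := by
      linear_combination h0
    exact (mul_eq_zero.1 h3).resolve_left h2

theorem two_elementsZ (hm : 2 ≤ m) {u : ℤ} (hu0 : u ≠ 0) (hu : u ∣ 4 ^ (m + 1))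
    (hu2 : Odd m → |u| ≠ 2 ^ (m + 1)) :
    (∀ p, P4a177s.Admissible (xiZ (m := m) hu0 p) ∧
      P4a177s.UnramifiedEverywhere (xiZ (m := m) hu0 p) ∧ Invariant (xiZ (m := m) hu0 p)) ∧
    ∃ γ : Fin 2 → Torus m (CoordRing m u),
      (P4a177s.regulatorMatrix (xiZ (m := m) hu0) γ).det ≠ 0 := by
  rcases Nat.even_or_odd m with hev | hodd
  · exact det_even hev hm hu0 hu
  · have hm3 : 3 ≤ m := by
      obtain ⟨k, hk⟩ := hodd
      omega
    exact det_odd hodd hm3 hu0 hu (hu2 hodd)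

theorem MZ_eq (m : ℕ) : MZ m = 2 ^ (m ^ 2 + 5 * m + 3) := by
  unfold MZ
  rw [← pow_mul, ← pow_add, ← pow_add]
  congr 1
  ring

/-- The new theorem: the two elements, the determinant and the exact unramified symbol part. -/
theorem main_exact (hm : 2 ≤ m) {u : ℤ} (hu : u ∣ 4 ^ (m + 1))
    (hu2 : Odd m → |u| ≠ 2 ^ (m + 1)) :
    GeomIrreducible m u ∧ Smooth m u ∧ (m = 2 → SmoothClosure m u) ∧
    ∃ (ξ : Fin 2 → MilnorK (m + 1) (CoordRing m u)) (γ : Fin 2 → Torus m (CoordRing m u)),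
      (∀ p, P4a177s.Admissible (ξ p) ∧ P4a177s.UnramifiedEverywhere (ξ p) ∧ Invariant (ξ p)) ∧
      (P4a177s.regulatorMatrix ξ γ).det ≠ 0 ∧
      ∀ h : MilnorK (m + 1) (CoordRing m u), P4a177w.UnramifiedOverQ h →
        ((∀ j, 1 ≤ j → j ≤ m → |u| ≠ 4 ^ j) ∨ Invariant h) → P4a177u.SpannedBy ξ (2 ^ (m ^ 2 + 5 * m + 3)) h := by
  have hu0 : u ≠ 0 := by
    rintro rfl
    exact pow_ne_zero (m + 1) (by norm_num : (4 : ℤ) ≠ 0) (zero_dvd_iff.1 hu)
  obtain ⟨h1, h2, h3, -⟩ := P4a177c.two_elements hm hu hu2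
  obtain ⟨h4, γ, h5⟩ := two_elementsZ hm hu0 hu hu2
  exact ⟨h1, h2, h3, xiZ hu0, γ, h4, h5, fun h hh hI => by
    rw [← MZ_eq]
    exact spannedByZ hm hu0 hh hI⟩

end

end P4a177z
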