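import Pool.Agent.Lib.P4a177z.DefZ

/-!
# MODULE P4a177z.NrmA: the elements of the coordinate ring as linear polynomials in one coordinate

PROOFS. `gam_mulZ`: by `on_iff` for `x_on m u` and `Fin.prod_univ_succAbove _ k`: `(x_k - x_k⁻¹) * ∏ a, (x_a - x_a⁻¹) = u`; multiply by `∏ a, x_a` (`x_a` for `x m u (k.succAbove a)`, `(x_a - x_a⁻¹) x_a = x_a ^ 2 - 1`). `exists_mulZ`: let `D = DZ m`, `j = jz m u k`, `ρ = x_k - x_k⁻¹`, `Δ = ∏ (X a ^ 2 - 1)`, `Π = ∏ X a`,
`D = Π Δ`. The set of the `w` with the property is closed under sums (multiply by a power of `D` to get the same `M`) and products: `(α + β x)(α' + β' x) = α α' + (α β' + α' β) x + β β' x ^ 2`, `x ^ 2 = ρ x + 1` (`x = x_k`), `ρ * j D = j (C u * Π ^ 2)` (from `gam_mulZ`), so after multiplication by `D` everything is in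
`j(..) + j(..) x`. It contains the constants, the `x_i` (`i = k`: `β = 1`; `i = k.succAbove a`: `α = X a`), the inverses `x_i⁻¹` (`i = k`: `x⁻¹ = x - ρ`; `i = k.succAbove a`: `x_a⁻¹ * j D` is `j` of `D / X a`: `∏` without this factor times `X a ^ 2 - 1`). So it contains the image `mk m u p` of every polynomial (`MvPolynomial.induction_on`,
`mk m u (X i) = x m u i` by `x_val`) and `(∏ x_i)⁻¹ ^ N`; every `f` satisfies `f * mk m u (∏ X_i) ^ N = mk m u p` (`exists_mul_pow`), so `f = mk m u p * (inverse) ^ N`.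
-/

set_option autoImplicit false

namespace P4a177z

open P4a177h P4a177t P4a177x Function MvPolynomial

variable {m : ℕ} {u : ℤ}

namespace NrmAAux

theorem jz_C (k : Fin (m + 1)) (q : ℚ) : jz m u k (C q) = algebraMap ℚ (CoordRing m u) q := by
  unfold jz
  rw [aeval_C]

theorem mk_C (q : ℚ) : mk m u (C q) = algebraMap ℚ (CoordRing m u) q := by
  have h := RingHom.congr_fun (RingHom.ext_rat ((mk m u).comp C)
    (algebraMap ℚ (CoordRing m u))) q
  exact h

theorem jz_Cint (k : Fin (m + 1)) : jz m u k (C (u : ℚ)) = (u : CoordRing m u) := by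
  rw [jz_C, map_intCast]

theorem jz_prodX (k : Fin (m + 1)) : jz m u k (∏ a, X a) =
    ∏ a, (x m u (k.succAbove a) : CoordRing m u) := by
  rw [map_prod]
  exact Finset.prod_congr rfl fun a _ => jz_X k a

theorem jz_prodS (k : Fin (m + 1)) : jz m u k (∏ a, (X a ^ 2 - 1)) =
    ∏ a, ((x m u (k.succAbove a) : CoordRing m u) ^ 2 - 1) := by
  rw [map_prod]
  exact Finset.prod_congr rfl fun a _ => by rw [map_sub, map_pow, map_one, jz_X k a]

end NrmAAux

open NrmAAux

theorem gam_mulZ (k : Fin (m + 1)) :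
    ((x m u k : CoordRing m u) - ((x m u k)⁻¹ : (CoordRing m u)ˣ)) *
      jz m u k (∏ a, (X a ^ 2 - 1)) = jz m u k (C (u : ℚ) * ∏ a, X a) := by
  have h := (on_iff (x m u)).1 (x_on m u)
  rw [Fin.prod_univ_succAbove _ k] at h
  have h1 : ∀ a : Fin m, (x m u (k.succAbove a) : CoordRing m u) ^ 2 - 1 =
      ((x m u (k.succAbove a) : CoordRing m u) -
        ((x m u (k.succAbove a))⁻¹ : (CoordRing m u)ˣ)) *
        (x m u (k.succAbove a) : CoordRing m u) := by
    intro a
    rw [sub_mul, Units.inv_mul, sq]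
  rw [map_mul, jz_Cint, jz_prodX, jz_prodS, Finset.prod_congr rfl fun a _ => h1 a,
    Finset.prod_mul_distrib, ← mul_assoc, h]

namespace NrmAAux

/-- The elements which are linear in `x_k` after multiplication by a power of `D`. -/
def Lin (k : Fin (m + 1)) (w : CoordRing m u) : Prop :=
  ∃ (M : ℕ) (α β : MvPolynomial (Fin m) ℚ),
      w * jz m u k (DZ m ^ M) = jz m u k α + jz m u k β * x m u k

theorem rho_D (k : Fin (m + 1)) :
    ((x m u k : CoordRing m u) - ((x m u k)⁻¹ : (CoordRing m u)ˣ)) * jz m u k (DZ m) =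
      jz m u k (C (u : ℚ) * (∏ a, X a) * ∏ a, X a) := by
  have h := gam_mulZ (m := m) (u := u) k
  have h1 : DZ m = (∏ a, X a) * ∏ a, (X a ^ 2 - 1) := by
    unfold DZ
    rw [Finset.prod_mul_distrib]
  rw [h1, map_mul, map_mul _ (C (u : ℚ) * (∏ a, X a)), ← h]
  ring

theorem Lin.add {k : Fin (m + 1)} {w w' : CoordRing m u} (h : Lin k w) (h' : Lin k w') :
    Lin k (w + w') := by
  obtain ⟨M, α, β, h⟩ := h
  obtain ⟨M', α', β', h'⟩ := h'
  refine ⟨M + M', α * DZ m ^ M' + α' * DZ m ^ M, β * DZ m ^ M' + β' * DZ m ^ M, ?_⟩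
  rw [pow_add]
  simp only [map_add, map_mul]
  linear_combination jz m u k (DZ m ^ M') * h + jz m u k (DZ m ^ M) * h'

theorem Lin.mul {k : Fin (m + 1)} {w w' : CoordRing m u} (h : Lin k w) (h' : Lin k w') :
    Lin k (w * w') := by
  obtain ⟨M, α, β, h⟩ := h
  obtain ⟨M', α', β', h'⟩ := h'
  have hr := rho_D (m := m) (u := u) k
  have hi : ((x m u k)⁻¹ : (CoordRing m u)ˣ) * (x m u k : CoordRing m u) = 1 := Units.inv_mul _
  refine ⟨M + M' + 1, (α * α' + β * β') * DZ m, (α * β' + α' * β) * DZ m +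
    β * β' * (C (u : ℚ) * (∏ a, X a) * ∏ a, X a), ?_⟩
  generalize (MvPolynomial.C (u : ℚ) * (∏ a, X a) * ∏ a, X a : MvPolynomial (Fin m) ℚ) = E at hr ⊢
  rw [pow_add, pow_add, pow_one]
  simp only [map_add, map_mul]
  generalize hX : (x m u k : CoordRing m u) = X0 at *
  generalize hY : (((x m u k)⁻¹ : (CoordRing m u)ˣ) : CoordRing m u) = Y0 at *
  linear_combination (jz m u k α' + jz m u k β' * X0) * jz m u k (DZ m) * h +
    w * jz m u k (DZ m ^ M) * jz m u k (DZ m) * h' +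
    jz m u k β * jz m u k β' * X0 * hr + jz m u k β * jz m u k β' * jz m u k (DZ m) * hi

theorem Lin.one (k : Fin (m + 1)) : Lin k (1 : CoordRing m u) :=
  ⟨0, 1, 0, by rw [pow_zero, map_one, map_zero, mul_one, zero_mul, add_zero]⟩

theorem Lin.C (k : Fin (m + 1)) (q : ℚ) : Lin k (algebraMap ℚ (CoordRing m u) q) :=
  ⟨0, MvPolynomial.C q, 0, by rw [pow_zero, map_one, map_zero, jz_C, mul_one, zero_mul, add_zero]⟩

theorem Lin.x (k i : Fin (m + 1)) : Lin k (x m u i : CoordRing m u) := by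
  rcases Fin.eq_self_or_eq_succAbove k i with h | ⟨a, h⟩
  · subst h
    exact ⟨0, 0, 1, by rw [pow_zero, map_one, map_zero, mul_one, one_mul, zero_add]⟩
  · subst h
    exact ⟨0, X a, 0, by rw [pow_zero, map_one, map_zero, jz_X, mul_one, zero_mul, add_zero]⟩

theorem Lin.xinv (k i : Fin (m + 1)) :
    Lin k (((P4a177t.x m u i)⁻¹ : (CoordRing m u)ˣ) : CoordRing m u) := by
  rcases Fin.eq_self_or_eq_succAbove k i with h | ⟨a, h⟩
  · subst h
    have hr := rho_D (m := m) (u := u) i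
    refine ⟨1, -(MvPolynomial.C (u : ℚ) * (∏ a, X a) * ∏ a, X a), DZ m, ?_⟩
    rw [pow_one, map_neg, ← hr]
    ring
  · subst h
    have h1 : DZ m = X a * ((X a ^ 2 - 1) *
        ∏ b ∈ Finset.univ.erase a, (X b * (X b ^ 2 - 1))) := by
      unfold DZ
      rw [← Finset.mul_prod_erase Finset.univ _ (Finset.mem_univ a), mul_assoc]
    refine ⟨1, (X a ^ 2 - 1) * ∏ b ∈ Finset.univ.erase a, (X b * (X b ^ 2 - 1)), 0, ?_⟩
    rw [pow_one, map_zero, zero_mul, add_zero, h1, map_mul, jz_X, ← mul_assoc, Units.inv_mul,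
      one_mul]

theorem Lin.prod {k : Fin (m + 1)} {ι : Type*} (s : Finset ι) (f : ι → CoordRing m u)
    (h : ∀ i ∈ s, Lin k (f i)) : Lin k (∏ i ∈ s, f i) :=
  Finset.prod_induction f (Lin k) (fun _ _ => Lin.mul) (Lin.one k) h

theorem Lin.pow {k : Fin (m + 1)} {w : CoordRing m u} (h : Lin k w) (N : ℕ) : Lin k (w ^ N) := by
  induction N with
  | zero => rw [pow_zero]; exact Lin.one k
  | succ n ih => rw [pow_succ]; exact ih.mul h

theorem Lin.mk (k : Fin (m + 1)) (p : MvPolynomial (Fin (m + 1)) ℚ) :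
    Lin k (P4a177t.mk m u p) := by
  induction p using MvPolynomial.induction_on with
  | C q => rw [mk_C]; exact Lin.C k q
  | add p q hp hq => rw [map_add]; exact hp.add hq
  | mul_X p i hp => rw [map_mul, ← x_val]; exact hp.mul (Lin.x k i)

end NrmAAux

theorem exists_mulZ (k : Fin (m + 1)) (w : CoordRing m u) :
    ∃ (M : ℕ) (α β : MvPolynomial (Fin m) ℚ),
      w * jz m u k (DZ m ^ M) = jz m u k α + jz m u k β * x m u k := by
  obtain ⟨p, N, hp⟩ := exists_mul_pow w
  have h1 : mk m u (∏ i, X i) = ((∏ i, x m u i : (CoordRing m u)ˣ) : CoordRing m u) := by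
    rw [map_prod, Units.coe_prod]
    exact Finset.prod_congr rfl fun i _ => (x_val i).symm
  have h2 : w = mk m u p *
      (∏ i, (((x m u i)⁻¹ : (CoordRing m u)ˣ) : CoordRing m u)) ^ N := by
    have h3 : (((∏ i, x m u i : (CoordRing m u)ˣ) : CoordRing m u)) *
        ∏ i, (((x m u i)⁻¹ : (CoordRing m u)ˣ) : CoordRing m u) = 1 := by
      rw [Units.coe_prod, ← Finset.prod_mul_distrib]
      exact Finset.prod_eq_one fun i _ => Units.mul_inv _
    rw [← hp, h1, mul_assoc, ← mul_pow, h3, one_pow, mul_one]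
  rw [h2]
  exact (Lin.mk k p).mul ((Lin.prod _ _ fun i _ => Lin.xinv k i).pow N)

end P4a177z
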