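import Pool.Agent.Lib.P4a177z.NrmA
import Pool.Agent.Lib.P4a177z.NrmB
import Pool.Agent.Lib.P4a177z.TauZ
import Pool.Agent.Lib.P4a177z.InjZ
import Pool.Agent.Lib.P4a177y.DesB

/-!
# MODULE P4a177z.NrmC: the norm of a unit is a product of letters, up to the factor `2`

PROOF. Let `x = x_k`, `j = jz m u k`, `ρ = x - x⁻¹`, `τ = tau m u {k}`; `τ x = - x⁻¹ = ρ - x`, `τ (j p) = j p` (`tau_jz`). For every `f` in the coordinate ring there are `M`, `P` with `f * τ f * j (DZ m) ^ M = j P`: from `exists_mulZ`: `f * j D ^ M = j α + j β x`, `τ f * j D ^ M = j α + j β (ρ - x)`, the product is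
`α ^ 2 + α β ρ - β ^ 2` (`x (ρ - x) = - 1`), multiply once more by `D` (`gam_mulZ`: `ρ * j D = j (C u * Π ^ 2)`). For the unit `w` and its inverse: `j P * j P' = j (D ^ (M + M'))`, so `P * P' = D ^ L` in the polynomial ring (`jz_injective`). So `P` divides a power of `D = ∏ X a (X a - 1) (X a + 1)`, a product of primes of the factorial ring
`MvPolynomial (Fin m) ℚ` (`X a - C c` is prime: `MvPolynomial.X_sub_C`-like or via an automorphism/`irreducible` of degree one; compare the last part of `Lib/P4a177y/UniY.lean` and `Lib/P4a177x/UniX.lean` for the way to deal with divisors of a product of primes), hence `P = C c * ∏ X a ^ _ (X a - 1) ^ _ (X a + 1) ^ _`, `c ≠ 0`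
(`Associates`/induction on the number of factors: a divisor of a product of primes is a unit times a product of some of them). So `ofMul w + ofMul (τ w) = ofMul (j P) - M ofMul (j D)` is, modulo `CC`, an integral combination of the units `x_a`, `x_a - 1`, `x_a + 1` (`isUnit_sub_one`, `isUnit_add_one`), and
`2 (x_a - 1) = γ + x + w`, `2 (x_a + 1) = γ + x - w` in the additive notation (`(x - 1) ^ 2 = γ x w`: `gam_spec`, `mob_spec`: `γ x = (x - 1)(x + 1)`, `w (x + 1) = x - 1`). So `2 •` it is a combination of the letters modulo `CC`.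
-/

set_option autoImplicit false

namespace P4a177z

open P4a177h P4a177t P4a177x Function MvPolynomial

namespace NrmCAux

variable {m : ℕ} {u : ℤ}

/-! ### The linear polynomials -/

/-- The three zeros. -/
def rr : Fin 3 → ℚ := ![0, 1, -1]

theorem DZ_eq (m : ℕ) : DZ m = ∏ a : Fin m, ∏ t : Fin 3, (X a - C (rr t)) := by
  unfold DZ
  refine Finset.prod_congr rfl fun a _ => ?_
  rw [Fin.prod_univ_three]
  simp only [rr, Matrix.cons_val_zero, Matrix.cons_val_one, Matrix.cons_val_two, Matrix.head_cons,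
    Matrix.tail_cons, map_zero, map_one, map_neg]
  ring

/-- A constant times a product of powers of the linear polynomials. -/
def Form (p : MvPolynomial (Fin m) ℚ) : Prop :=
  ∃ (c : ℚˣ) (e : Fin m → Fin 3 → ℕ), p = C (c : ℚ) * ∏ a, ∏ t, (X a - C (rr t)) ^ e a t

theorem Form.mul {p q : MvPolynomial (Fin m) ℚ} (hp : Form p) (hq : Form q) : Form (p * q) := by
  obtain ⟨c, e, rfl⟩ := hp
  obtain ⟨c', e', rfl⟩ := hq
  refine ⟨c * c', fun a t => e a t + e' a t, ?_⟩
  simp only [pow_add, Finset.prod_mul_distrib, Units.val_mul, map_mul]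
  ring

theorem Form.unit {p : MvPolynomial (Fin m) ℚ} (hp : IsUnit p) : Form p := by
  obtain ⟨r, hr, rfl⟩ := MvPolynomial.isUnit_iff_eq_C_of_isReduced.1 hp
  exact ⟨hr.unit, fun _ _ => 0, by simp⟩

theorem Form.lin (a : Fin m) (t : Fin 3) :
    Form (X a - C (rr t) : MvPolynomial (Fin m) ℚ) := by
  classical
  refine ⟨1, fun b s => if b = a ∧ s = t then 1 else 0, ?_⟩
  rw [Finset.prod_eq_single a, Finset.prod_eq_single t]
  · simp
  · intro j _ hj
    simp [hj]
  · simp
  · intro v _ hv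
    simp [hv]
  · simp

/-- All the divisors are of this form. -/
def Good (p : MvPolynomial (Fin m) ℚ) : Prop := ∀ q, q ∣ p → Form q

theorem Good.mul {p q : MvPolynomial (Fin m) ℚ} (hp : Good p) (hq : Good q) : Good (p * q) := by
  intro r hr
  obtain ⟨a, b, ha, hb, rfl⟩ := exists_dvd_and_dvd_of_dvd_mul hr
  exact (hp a ha).mul (hq b hb)

theorem Good.unit {p : MvPolynomial (Fin m) ℚ} (hp : IsUnit p) : Good p :=
  fun _ hq => Form.unit (isUnit_of_dvd_unit hq hp)

theorem Good.lin (a : Fin m) (t : Fin 3) :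
    Good (X a - C (rr t) : MvPolynomial (Fin m) ℚ) := by
  rintro q ⟨r, hr⟩
  rcases (P4a177y.DesBAux.lin_irreducible a (rr t)).isUnit_or_isUnit hr with h | h
  · exact Form.unit h
  · obtain ⟨r', rfl⟩ := h
    have : q = (X a - C (rr t)) *
        ((r'⁻¹ : (MvPolynomial (Fin m) ℚ)ˣ) : MvPolynomial (Fin m) ℚ) := by
      rw [hr, mul_assoc, Units.mul_inv, mul_one]
    rw [this]
    exact (Form.lin a t).mul (Form.unit (Units.isUnit _))

theorem Good.pow {p : MvPolynomial (Fin m) ℚ} (hp : Good p) (K : ℕ) : Good (p ^ K) := by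
  induction K with
  | zero => rw [pow_zero]; exact Good.unit isUnit_one
  | succ n ih => rw [pow_succ]; exact ih.mul hp

theorem good_DZ (m : ℕ) : Good (DZ m) := by
  rw [DZ_eq]
  exact Finset.prod_induction _ Good (fun _ _ => Good.mul) (Good.unit isUnit_one) fun a _ =>
    Finset.prod_induction _ Good (fun _ _ => Good.mul) (Good.unit isUnit_one) fun t _ =>
      Good.lin a t

/-! ### The subgroup of the combinations of the letters -/

/-- The combinations of the letters modulo the constants. -/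
def LL (m : ℕ) {u : ℤ} (hu : u ≠ 0) : AddSubgroup (Additive (CoordRing m u)ˣ) where
  carrier := {y | ∃ κ : Fin (m + 1) → Fin 3 → ℤ,
    y - ∑ i, ∑ t, κ i t • lA m hu i t ∈ CC (CoordRing m u)}
  zero_mem' := ⟨fun _ _ => 0, by simp⟩
  add_mem' := by
    rintro a b ⟨κ, h⟩ ⟨κ', h'⟩
    refine ⟨fun i t => κ i t + κ' i t, ?_⟩
    have e : a + b - ∑ i, ∑ t, (κ i t + κ' i t) • lA m hu i t =
        (a - ∑ i, ∑ t, κ i t • lA m hu i t) + (b - ∑ i, ∑ t, κ' i t • lA m hu i t) := by
      simp only [add_zsmul, Finset.sum_add_distrib]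
      abel
    rw [e]
    exact add_mem h h'
  neg_mem' := by
    rintro a ⟨κ, h⟩
    refine ⟨fun i t => -κ i t, ?_⟩
    have e : -a - ∑ i, ∑ t, (-κ i t) • lA m hu i t =
        -(a - ∑ i, ∑ t, κ i t • lA m hu i t) := by
      simp only [neg_zsmul, Finset.sum_neg_distrib]
      abel
    rw [e]
    exact neg_mem h

theorem lA_mem (hu : u ≠ 0) (i : Fin (m + 1)) (t : Fin 3) : lA m hu i t ∈ LL m hu := by
  classical
  refine ⟨fun a s => if a = i ∧ s = t then 1 else 0, ?_⟩
  have e : ∑ a, ∑ s, (if a = i ∧ s = t then (1 : ℤ) else 0) • lA m hu a s = lA m hu i t := by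
    rw [Finset.sum_eq_single i, Finset.sum_eq_single t]
    · simp
    · intro j _ hj
      simp [hj]
    · simp
    · intro v _ hv
      simp [hv]
    · simp
  rw [e, sub_self]
  exact zero_mem _

theorem CC_le (hu : u ≠ 0) : CC (CoordRing m u) ≤ LL m hu := by
  intro y hy
  refine ⟨fun _ _ => 0, ?_⟩
  simpa using hy

/-- The units the square of which is a combination of the letters. -/
def Sq (m : ℕ) {u : ℤ} (hu : u ≠ 0) : Subgroup (CoordRing m u)ˣ where
  carrier := {ω | 2 • Additive.ofMul ω ∈ LL m hu}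
  one_mem' := by
    show 2 • Additive.ofMul (1 : (CoordRing m u)ˣ) ∈ LL m hu
    rw [ofMul_one, nsmul_zero]
    exact zero_mem _
  mul_mem' := by
    intro a b ha hb
    show 2 • Additive.ofMul (a * b) ∈ LL m hu
    rw [ofMul_mul, nsmul_add]
    exact add_mem ha hb
  inv_mem' := by
    intro a ha
    show 2 • Additive.ofMul a⁻¹ ∈ LL m hu
    rw [ofMul_inv, neg_nsmul]
    exact neg_mem ha

theorem cs_mem (hu : u ≠ 0) (c : ℚˣ) : P4a177w.cs (CoordRing m u) c ∈ Sq m hu := by
  show 2 • Additive.ofMul (P4a177w.cs (CoordRing m u) c) ∈ LL m hu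
  refine AddSubgroup.nsmul_mem _ (CC_le hu ?_) 2
  exact ⟨Additive.ofMul c, rfl⟩

/-- The units `x_i`, `x_i - 1`, `x_i + 1`. -/
noncomputable def lin3 (m : ℕ) {u : ℤ} (hu : u ≠ 0) (i : Fin (m + 1)) :
    Fin 3 → (CoordRing m u)ˣ :=
  ![x m u i, (isUnit_sub_one hu (x m u) (x_on m u) i).unit,
    (isUnit_add_one hu (x m u) (x_on m u) i).unit]

theorem lin3_val (hu : u ≠ 0) (i : Fin (m + 1)) (t : Fin 3) :
    (lin3 m hu i t : CoordRing m u) =
      (x m u i : CoordRing m u) - algebraMap ℚ (CoordRing m u) (rr t) := by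
  fin_cases t
  · simp [lin3, rr]
  · simp [lin3, rr]
  · simp [lin3, rr]

theorem lin3_mem (hu : u ≠ 0) (i : Fin (m + 1)) (t : Fin 3) : lin3 m hu i t ∈ Sq m hu := by
  have hx : lA m hu i 0 = Additive.ofMul (x m u i) := rfl
  have hw : lA m hu i 1 = Additive.ofMul (w m hu i) := rfl
  have hg : lA m hu i 2 = Additive.ofMul (gam m hu i) := rfl
  have hms : (w m hu i : CoordRing m u) * ((x m u i : CoordRing m u) + 1) =
      (x m u i : CoordRing m u) - 1 := mob_spec hu (x m u) (x_on m u) i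
  have hgs := gam_spec (m := m) hu i
  have v1 : (lin3 m hu i 1 : CoordRing m u) = (x m u i : CoordRing m u) - 1 := by
    rw [lin3_val]; simp [rr]
  have v2 : (lin3 m hu i 2 : CoordRing m u) = (x m u i : CoordRing m u) + 1 := by
    rw [lin3_val]; simp [rr]
  have h0 := lA_mem (m := m) hu i 0
  have h1 := lA_mem (m := m) hu i 1
  have h2 := lA_mem (m := m) hu i 2
  have e1 : lin3 m hu i 1 ^ 2 = gam m hu i * x m u i * w m hu i := by
    ext
    rw [Units.val_pow_eq_pow_val, Units.val_mul, Units.val_mul, v1, hgs]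
    linear_combination (-(x m u i : CoordRing m u) + 1) * hms
  have e2 : lin3 m hu i 2 ^ 2 * w m hu i = gam m hu i * x m u i := by
    ext
    rw [Units.val_mul, Units.val_pow_eq_pow_val, Units.val_mul, v2, hgs]
    linear_combination ((x m u i : CoordRing m u) + 1) * hms
  show 2 • Additive.ofMul (lin3 m hu i t) ∈ LL m hu
  fin_cases t
  · show 2 • Additive.ofMul (x m u i) ∈ LL m hu
    rw [← hx]
    exact AddSubgroup.nsmul_mem _ h0 2
  · show 2 • Additive.ofMul (lin3 m hu i 1) ∈ LL m hu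
    rw [← ofMul_pow, e1, ofMul_mul, ofMul_mul, ← hx, ← hw, ← hg]
    exact add_mem (add_mem h2 h0) h1
  · show 2 • Additive.ofMul (lin3 m hu i 2) ∈ LL m hu
    have e3 : 2 • Additive.ofMul (lin3 m hu i 2) = lA m hu i 2 + lA m hu i 0 - lA m hu i 1 := by
      rw [eq_sub_iff_add_eq, hx, hw, hg, ← ofMul_pow, ← ofMul_mul, ← ofMul_mul, e2]
    rw [e3]
    exact sub_mem (add_mem h2 h0) h1

theorem Form.jz {p : MvPolynomial (Fin m) ℚ} (hp : Form p) (hu : u ≠ 0) (k : Fin (m + 1)) :
    ∃ ω : (CoordRing m u)ˣ, (ω : CoordRing m u) = jz m u k p ∧ ω ∈ Sq m hu := by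
  obtain ⟨c, e, rfl⟩ := hp
  refine ⟨P4a177w.cs (CoordRing m u) c * ∏ a, ∏ t, lin3 m hu (k.succAbove a) t ^ e a t, ?_, ?_⟩
  · rw [Units.val_mul, Units.coe_prod, map_mul, map_prod]
    congr 1
    · rw [P4a177z.jz, aeval_C]
      rfl
    · refine Finset.prod_congr rfl fun a _ => ?_
      rw [Units.coe_prod, map_prod]
      refine Finset.prod_congr rfl fun t _ => ?_
      rw [Units.val_pow_eq_pow_val, map_pow, lin3_val, map_sub, jz_X, P4a177z.jz, aeval_C]
  · refine mul_mem (cs_mem hu c) (Subgroup.prod_mem _ fun a _ => Subgroup.prod_mem _ fun t _ => ?_)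
    exact Subgroup.pow_mem _ (lin3_mem hu _ t) _

/-! ### The norm -/

theorem norm_eq (k : Fin (m + 1)) (f : CoordRing m u) :
    ∃ (L : ℕ) (Q P : MvPolynomial (Fin m) ℚ), Q ∣ DZ m ^ L ∧
      f * tau m u {k} f * jz m u k Q = jz m u k P := by
  obtain ⟨M, α, β, h⟩ := exists_mulZ (u := u) k f
  have hg := gam_mulZ (u := u) k
  have hx : tau m u {k} (x m u k : CoordRing m u) = -((x m u k)⁻¹ : (CoordRing m u)ˣ) := by
    rw [tau_x, flp, if_pos (Finset.mem_singleton_self k), Units.val_neg]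
  have h' := congrArg (tau m u {k}) h
  rw [map_mul, map_add, map_mul, tau_jz, tau_jz, tau_jz, hx] at h'
  have hxi : (x m u k : CoordRing m u) * ((x m u k)⁻¹ : (CoordRing m u)ˣ) = 1 := Units.mul_inv _
  have key : ∀ D E T : MvPolynomial (Fin m) ℚ,
      f * jz m u k D = jz m u k α + jz m u k β * x m u k →
      tau m u {k} f * jz m u k D =
        jz m u k α + jz m u k β * -((x m u k)⁻¹ : (CoordRing m u)ˣ) →
      ((x m u k : CoordRing m u) - ((x m u k)⁻¹ : (CoordRing m u)ˣ)) * jz m u k E =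
        jz m u k T →
      f * tau m u {k} f * jz m u k (D * D * E) =
        jz m u k ((α ^ 2 - β ^ 2) * E + α * β * T) := by
    intro D E T h1 h2 h3
    simp only [map_mul, map_add, map_sub, map_pow]
    linear_combination (tau m u {k} f * jz m u k D * jz m u k E) * h1 +
      (jz m u k α + jz m u k β * x m u k) * jz m u k E * h2 +
      jz m u k α * jz m u k β * h3 - jz m u k β ^ 2 * jz m u k E * hxi
  refine ⟨M + M + 1, DZ m ^ M * DZ m ^ M * ∏ a, (X a ^ 2 - 1),
    (α ^ 2 - β ^ 2) * ∏ a, (X a ^ 2 - 1) + α * β * (C (u : ℚ) * ∏ a, X a), ?_,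
    key _ _ _ h h' hg⟩
  rw [pow_succ, pow_add]
  refine mul_dvd_mul_left _ ?_
  unfold DZ
  rw [Finset.prod_mul_distrib]
  exact dvd_mul_left _ _

end NrmCAux

open NrmCAux

theorem norm_unitZ {m : ℕ} (hm : 2 ≤ m) {u : ℤ} (hu : u ≠ 0) (k : Fin (m + 1))
    (w : (CoordRing m u)ˣ) : ∃ κ : Fin (m + 1) → Fin 3 → ℤ,
      2 • (Additive.ofMul w +
        Additive.ofMul (Units.map (tau m u {k} : CoordRing m u →* CoordRing m u) w)) -
        ∑ i, ∑ t, κ i t • lA m hu i t ∈ CC (CoordRing m u) := by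
  obtain ⟨L, Q, P, hQ, h⟩ := norm_eq k (w : CoordRing m u)
  obtain ⟨L', Q', P', hQ', h'⟩ := norm_eq k ((w⁻¹ : (CoordRing m u)ˣ) : CoordRing m u)
  have hinv : tau m u {k} (w : CoordRing m u) *
      tau m u {k} ((w⁻¹ : (CoordRing m u)ˣ) : CoordRing m u) = 1 := by
    rw [← map_mul, Units.mul_inv, map_one]
  have hPP : P * P' = Q * Q' := by
    apply jz_injective (by omega : 1 ≤ m) hu k
    rw [map_mul, map_mul, ← h, ← h']
    linear_combination (jz m u k Q * jz m u k Q') * ((tau m u {k} (w : CoordRing m u) *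
      tau m u {k} ((w⁻¹ : (CoordRing m u)ˣ) : CoordRing m u)) * Units.mul_inv w + hinv)
  have hP : P ∣ DZ m ^ (L + L') := by
    rw [pow_add]
    exact (Dvd.intro _ hPP).trans (mul_dvd_mul hQ hQ')
  obtain ⟨ωP, vP, mP⟩ := (((good_DZ m).pow _) P hP).jz hu k
  obtain ⟨ωQ, vQ, mQ⟩ := (((good_DZ m).pow _) Q hQ).jz hu k
  have e : w * Units.map (tau m u {k} : CoordRing m u →* CoordRing m u) w * ωQ = ωP := by
    ext
    rw [Units.val_mul, Units.val_mul, vP, vQ, ← h]
    rfl
  have hm' : w * Units.map (tau m u {k} : CoordRing m u →* CoordRing m u) w ∈ Sq m hu := by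
    rw [eq_mul_inv_of_mul_eq e]
    exact mul_mem mP (inv_mem mQ)
  have h2 : 2 • Additive.ofMul
      (w * Units.map (tau m u {k} : CoordRing m u →* CoordRing m u) w) ∈ LL m hu := hm'
  rw [ofMul_mul] at h2
  exact h2

end P4a177z
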