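import Pool.Agent.Lib.P4a177z.PntZ
import Pool.Agent.Lib.P4a177z.IndZ
import Pool.Agent.Lib.P4a177z.InjZ

/-!
# MODULE P4a177z.PlcZ: existence of the places

PROOF. Take `y, U, c` from `exists_pointZ`. `φ = lift y` (`P4a177t.lift`, `lift_x`: `φ (x m u v) = y v`). `hφ v t`: by cases on `t` (`let3` is a vector of length `3`): `t = 0`: `lift_x`. `t = 1`: the unit `w m hu v` satisfies
`w * (x + 1) = x - 1` (`mob_spec`), so `φ w * (y + 1) = y - 1 = (..) * (y + 1)`, and `y + 1 ≠ 0` (it is the image of a unit, `isUnit_add_one`), cancel in the field. `t = 2`: `gam_spec`, the same with `y ≠ 0`. `inj`: `injZ hm hu j₀ φ ι` with `indZ b i₀ j₀` (`i₀ ≠ j₀` since `b i₀ ≠ b j₀`).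
-/

set_option autoImplicit false

namespace P4a177z

open P4a177h P4a177t P4a177x Function MvPolynomial

theorem exists_placeZ {m : ℕ} (hm : 2 ≤ m) {u : ℤ} (hu : u ≠ 0) (b : Fin (m + 1) → Bool)
    (i₀ j₀ : Fin (m + 1)) (hi : b i₀ = false) (hj : b j₀ = true)
    (Λ : Lead (KZ (m + 1)) (m + 1)) (hΛ : GoodLead Λ) :
    Nonempty (ZPlace m hu b i₀ j₀ Λ) := by
  obtain ⟨y, U, c, hy, hya, hUc, h0, h1, h2, ho, hc⟩ := exists_pointZ hu b i₀ j₀ hi hj Λ hΛ
  have hij : i₀ ≠ j₀ := by
    intro h
    rw [h, hj] at hi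
    exact absurd hi (by decide)
  have hx : ∀ v, lift y hy (x m u v : CoordRing m u) = y v := fun v => lift_x y hy v
  refine ⟨{ φ := lift y hy, U := U, c := c, hU := hUc, hφ := ?_, ho := ho, hc := hc, inj := ?_ }⟩
  · intro v t
    fin_cases t
    · show lift y hy (x m u v : CoordRing m u) = _
      rw [hx]
      exact h0 v
    · show lift y hy (w m hu v : CoordRing m u) = _
      have hs := congrArg (lift y hy) (mob_spec hu (x m u) (x_on m u) v)
      rw [map_mul, map_add, map_sub, map_one, hx] at hs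
      have hne : (y v : LaurentSeries (KZ (m + 1))) + 1 ≠ 0 := (isUnit_add_one hu y hy v).ne_zero
      exact mul_right_cancel₀ hne (hs.trans (h1 v))
    · show lift y hy (gam m hu v : CoordRing m u) = _
      have hs := congrArg (lift y hy) (gam_spec hu v)
      rw [map_mul, map_sub, map_pow, map_one, hx] at hs
      exact mul_right_cancel₀ (Units.ne_zero (y v)) (hs.trans (h2 v))
  · refine injZ hm hu j₀ (lift y hy) (algebraMap ℚ _) fun H hH => ?_
    simp only [hx]
    exact indZ b i₀ j₀ hij (fun i => (y i : LaurentSeries (KZ (m + 1)))) hya _ H hH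

end P4a177z
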