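import Pool.Agent.Lib.P4a177z.DefZ
import Pool.Agent.Lib.P4a177y.HenY

/-!
# MODULE P4a177z.PntZ: the point of the hypersurface over the Laurent series

PROOF. Let `F = KZ (m + 1)`, `T = single 1 1`. `y i₀ = T`; for `v ≠ i₀, j₀`: `y v = C (zz v)` if `b v = false` and `C (1 + 2 * zz v)` if `b v = true` (nonzero). Let `γ_v = y v - (y v)⁻¹` for `v ≠ j₀`: `γ_{i₀} = - T⁻¹ (1 - T ^ 2)`, and for
`v ≠ i₀, j₀` it is the constant `C (g v)`, `g v = (z ^ 2 - 1) / z` or `4 z (1 + z) / (1 + 2 z)`, `z = zz v` (nonzero). `Γ = ∏ v ≠ i₀, j₀, g v ∈ Fˣ`, `h = - u / Γ ∈ Fˣ`, `ρ = h T / (1 - T ^ 2)` as a power series (`(1 - X ^ 2)⁻¹`), so that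
`γ_{i₀} * C Γ * ρ = u`. `G = 1 + ρ ^ 2 / 4` (power series with constant coefficient `1`; `1 / 4 = C (1 / 4)`). `P4a177y.exists_rootY F 1 0 G`: `Y` with constant coefficient `1` and `Y ^ 2 * G = 1`; put `R = Y * G`, so `R ^ 2 = G`, constant coefficient `1`.
`y j₀ = ρ / 2 + R`: `y ^ 2 - ρ y - 1 = 0` (as `(y - ρ / 2) ^ 2 = 1 + ρ ^ 2 / 4`), so `y j₀` is a unit (constant coefficient `1`) with `y - y⁻¹ = ρ`. The equation `On`: `on_iff`, the product of the `y_v - y_v⁻¹` is
`γ_{i₀} * C Γ * ρ = u` (`Finset.prod` over `v`: split off `i₀` and `j₀`, e.g. `Finset.mul_prod_erase`). The letters (`U v 0`, `U v 1`, `U v 2` for `y`, `(y - 1) / (y + 1)`, `y - 1 / y` and their constant coefficients `c`): `v = i₀`: `(1; 1)`, `((X - 1) / (X + 1); -1)`,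
`(X ^ 2 - 1; -1)` with the exponents `1, 0, -1`. `v ≠ i₀, j₀`, `b v = false`: the constants `z`, `(z - 1) / (z + 1)`, `(z ^ 2 - 1) / z`; orders at `z_v`: `1, 0, -1` (`ev 0`); leading coefficients `1, -1, -1`. `b v = true`: the constants `1 + 2 z`, `z / (1 + z)`,
`4 z (1 + z) / (1 + 2 z)`; orders `0, 1, 1` (`ev 2`); leading coefficients `1, 1, 4`. (`hΛ.z` for `z`, `hΛ.one` for `z ± 1`, `1 + 2 z` with `q = Pi.single v _`, `Λ.rat` for `4`; `Λ.o` is additive and `Λ.c` multiplicative.) `v = j₀`: `y = ρ / 2 + R`, exponent `0`, constant `1`;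
`γ = ρ`: exponent `1`, `U = h (1 - X ^ 2)⁻¹`, constant `h`: `Λ.o h = - ∑ v, Λ.o (g v)`, i.e. the component `k ≠ i₀, j₀` is `- ev (typ (b k)) 2`, and `Λ.c h = ± u / 4 ^ N`, `N` the number of the `v ≠ i₀, j₀` with `b v = true`, which is the number of all the `v` with `b v = true` minus one
(`b i₀ = false`, `b j₀ = true`), so its square is the square of `cz .. 2 = 4 * (u / 4 ^ (N + 1))`; `(y - 1) / (y + 1)`: `γ = 4 w / (1 - w ^ 2)`, or directly `y - 1 = ρ / 2 + (R - 1)`, `R - 1 = ρ ^ 2 / (4 (R + 1))`, so `y - 1 = X * (..)` with the constant `h / 2`, `y + 1` has the constant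
coefficient `2`: exponent `1`, constant `h / 4`, the same orders as `h`, `Λ.c = ± u / 4 ^ (N + 1)`. The statement asks for the letters in the form without division. `ordz`/`cz`: unfold; for `v ≠ j₀`: `ordz b j₀ v t i₀ = if i₀ = v then ev (typ (b v)) t else 0`; `typ false = 0`,
`typ true = 2`. Suggestion: prove the data for every `v` in a separate lemma (three cases `v = i₀`, `v = j₀`, other) as `∃ U c : Fin 3 → _`, then `choose`.
-/

set_option autoImplicit false

namespace P4a177z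

open P4a177h P4a177t P4a177x Function MvPolynomial

namespace PntZAux

/-- The power series of the last coordinate. -/
theorem exists_Y {L : Type} [Field L] [CharZero L] (h : L) :
    ∃ Y σ : PowerSeries L, PowerSeries.constantCoeff Y = 1 ∧ PowerSeries.constantCoeff σ = h ∧
      Y ^ 2 - 1 = PowerSeries.X * σ * Y ∧ (1 - PowerSeries.X ^ 2) * σ = PowerSeries.C h := by
  have h0 : PowerSeries.constantCoeff (1 - PowerSeries.X ^ 2 : PowerSeries L) = 1 := by simp
  have h1 : PowerSeries.constantCoeff (1 - PowerSeries.X ^ 2 : PowerSeries L) ≠ 0 := by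
    rw [h0]
    exact one_ne_zero
  obtain ⟨σ, hσ⟩ : ∃ σ : PowerSeries L, σ = PowerSeries.C h * (1 - PowerSeries.X ^ 2)⁻¹ := ⟨_, rfl⟩
  obtain ⟨a, ha⟩ : ∃ a : PowerSeries L, a = PowerSeries.C (1 / 2 : L) := ⟨_, rfl⟩
  have ha2 : 2 * a = 1 := by
    have e : (2 : PowerSeries L) = PowerSeries.C (2 : L) := (map_ofNat PowerSeries.C 2).symm
    rw [ha, e, ← map_mul, mul_one_div_cancel (two_ne_zero : (2 : L) ≠ 0), map_one]
  obtain ⟨ρ, hρ⟩ : ∃ ρ : PowerSeries L, ρ = PowerSeries.X * σ := ⟨_, rfl⟩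
  have hρ0 : PowerSeries.constantCoeff ρ = 0 := by
    rw [hρ, map_mul, PowerSeries.constantCoeff_X, zero_mul]
  obtain ⟨G, hG⟩ : ∃ G : PowerSeries L, G = 1 + (a * ρ) ^ 2 := ⟨_, rfl⟩
  have hG0 : PowerSeries.constantCoeff G = 1 := by
    rw [hG, map_add, map_pow, map_mul, hρ0, map_one, mul_zero, zero_pow two_ne_zero, add_zero]
  obtain ⟨Y0, hY0, hY1⟩ := P4a177y.exists_rootY L 1 (fun _ => 0) G hG0
  have e : Y0 ^ 2 * G = 1 := by
    rw [← hY1, Fin.prod_univ_two, map_zero, zero_mul, sub_zero, sq]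
  refine ⟨a * ρ + Y0 * G, σ, ?_, ?_, ?_, ?_⟩
  · rw [map_add, map_mul, map_mul, hρ0, hY0, hG0, mul_zero, zero_add, mul_one]
  · rw [hσ, map_mul, PowerSeries.constantCoeff_C, PowerSeries.constantCoeff_inv, h0, inv_one,
      mul_one]
  · rw [← hρ]
    linear_combination G * e + (ρ * Y0 * G + a * ρ ^ 2) * ha2 + hG
  · rw [hσ, mul_left_comm, PowerSeries.mul_inv_cancel _ h1, mul_one]

theorem lin_ne {r : ℕ} (v : Fin r) (q₀ : ℚˣ) (q : ℚ) :
    algebraMap ℚ (KZ r) q₀ + algebraMap ℚ (KZ r) q * zz v ≠ 0 := by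
  have e : algebraMap ℚ (KZ r) q₀ + algebraMap ℚ (KZ r) q * zz v =
      algebraMap (MvPolynomial (Fin r) ℚ) (KZ r) (C (q₀ : ℚ) + C q * X v) := by
    rw [map_add, map_mul]
    unfold zz
    rw [← MvPolynomial.algebraMap_eq, ← IsScalarTower.algebraMap_apply,
      ← IsScalarTower.algebraMap_apply]
  rw [e]
  intro h
  have h1 := (map_eq_zero_iff _ (IsFractionRing.injective (MvPolynomial (Fin r) ℚ) (KZ r))).1 h
  have h2 := congrArg MvPolynomial.constantCoeff h1
  rw [map_add, map_mul, constantCoeff_C, constantCoeff_X, mul_zero, add_zero, map_zero] at h2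
  exact q₀.ne_zero h2

theorem zz_ne {r : ℕ} (v : Fin r) : zz v ≠ 0 := by
  unfold zz
  intro h
  have h1 := (map_eq_zero_iff _ (IsFractionRing.injective (MvPolynomial (Fin r) ℚ) (KZ r))).1 h
  exact X_ne_zero v h1

theorem lead_lin {r : ℕ} {Λ : Lead (KZ r) r} (hΛ : GoodLead Λ) (v : Fin r) (q₀ : ℚˣ) (q : ℚ)
    (f : (KZ r)ˣ) (hf : (f : KZ r) = algebraMap ℚ (KZ r) q₀ + algebraMap ℚ (KZ r) q * zz v) :
    Λ.o (Additive.ofMul f) = 0 ∧ Λ.c f = q₀ := by
  refine hΛ.one q₀ (Pi.single v q) f ?_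
  rw [hf, Finset.sum_eq_single v]
  · rw [Pi.single_eq_same]
  · intro k _ hk
    rw [Pi.single_eq_of_ne hk, map_zero, zero_mul]
  · intro hv
    exact absurd (Finset.mem_univ v) hv

theorem lead_rat {r : ℕ} {Λ : Lead (KZ r) r} (hΛ : GoodLead Λ) (q₀ : ℚˣ)
    (f : (KZ r)ˣ) (hf : (f : KZ r) = algebraMap ℚ (KZ r) q₀) :
    Λ.o (Additive.ofMul f) = 0 ∧ Λ.c f = q₀ := by
  refine hΛ.one q₀ 0 f ?_
  rw [hf]
  simp

/-- The letters at the constant coordinates. -/
theorem exists_V {r : ℕ} {Λ : Lead (KZ r) r} (hΛ : GoodLead Λ) (v : Fin r) (β : Bool) :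
    ∃ V : Fin 3 → (KZ r)ˣ, (V 0 : KZ r) = (if β = true then 1 + 2 * zz v else zz v) ∧
      (V 0 : KZ r) - 1 = (V 1 : KZ r) * ((V 0 : KZ r) + 1) ∧
      (V 0 : KZ r) ^ 2 - 1 = (V 2 : KZ r) * (V 0 : KZ r) ∧
      (∀ t, Λ.o (Additive.ofMul (V t)) = Pi.single v (ev (typ β) t)) ∧
      ∀ t, ((Λ.c (V t) : ℚˣ) : ℚ) ^ 2 = (if β = true ∧ t = 2 then (4 : ℚ) else 1) ^ 2 := by
  obtain ⟨zu, hzu⟩ : ∃ f : (KZ r)ˣ, (f : KZ r) = zz v := ⟨Units.mk0 _ (zz_ne v), rfl⟩
  obtain ⟨zp, hzp⟩ : ∃ f : (KZ r)ˣ, (f : KZ r) = algebraMap ℚ (KZ r) ((1 : ℚˣ) : ℚ) +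
      algebraMap ℚ (KZ r) 1 * zz v := ⟨Units.mk0 _ (lin_ne v 1 1), rfl⟩
  obtain ⟨zm, hzm⟩ : ∃ f : (KZ r)ˣ, (f : KZ r) = algebraMap ℚ (KZ r) ((-1 : ℚˣ) : ℚ) +
      algebraMap ℚ (KZ r) 1 * zz v := ⟨Units.mk0 _ (lin_ne v (-1) 1), rfl⟩
  obtain ⟨w, hw⟩ : ∃ f : (KZ r)ˣ, (f : KZ r) = algebraMap ℚ (KZ r) ((1 : ℚˣ) : ℚ) +
      algebraMap ℚ (KZ r) 2 * zz v := ⟨Units.mk0 _ (lin_ne v 1 2), rfl⟩
  obtain ⟨q4, hq4⟩ : ∃ q : ℚˣ, (q : ℚ) = 4 := ⟨Units.mk0 4 (by norm_num), rfl⟩
  obtain ⟨f4, hf4⟩ : ∃ f : (KZ r)ˣ, (f : KZ r) = algebraMap ℚ (KZ r) (q4 : ℚ) :=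
    ⟨Units.map (algebraMap ℚ (KZ r) : ℚ →* KZ r) q4, rfl⟩
  obtain ⟨oz, cz'⟩ := hΛ.z v zu hzu
  obtain ⟨op, cp⟩ := lead_lin hΛ v 1 1 zp hzp
  obtain ⟨om, cm⟩ := lead_lin hΛ v (-1) 1 zm hzm
  obtain ⟨ow, cw⟩ := lead_lin hΛ v 1 2 w hw
  obtain ⟨o4, c4⟩ := lead_rat hΛ q4 f4 hf4
  rw [Units.val_one, map_one, one_mul] at hzp
  rw [Units.val_neg, Units.val_one, map_neg, map_one, one_mul] at hzm
  rw [Units.val_one, map_one, map_ofNat] at hw
  rw [hq4, map_ofNat] at hf4
  have nzu : (zu : KZ r) ≠ 0 := zu.ne_zero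
  have nzp : (zp : KZ r) ≠ 0 := zp.ne_zero
  have nw : (w : KZ r) ≠ 0 := w.ne_zero
  cases β with
  | false =>
    refine ⟨![zu, zm / zp, zm * zp / zu], ?_, ?_, ?_, ?_, ?_⟩
    · simpa using hzu
    · simp only [Matrix.cons_val_zero, Matrix.cons_val_one, Units.val_div_eq_div_val]
      rw [div_mul_eq_mul_div, eq_div_iff nzp, hzu, hzp, hzm]
      ring
    · simp only [Matrix.cons_val_zero, Matrix.cons_val, Units.val_div_eq_div_val,
        Units.val_mul]
      rw [div_mul_cancel₀ _ nzu, hzu, hzp, hzm]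
      ring
    · intro t
      fin_cases t
      · simp [typ, ev, oz]
      · simp [typ, ev, op, om]
      · simp [typ, ev, oz, op, om, Pi.single_neg]
    · intro t
      fin_cases t
      · simp [cz']
      · simp [cp, cm]
      · simp [cz', cp, cm]
  | true =>
    refine ⟨![w, zu / zp, f4 * zu * zp / w], ?_, ?_, ?_, ?_, ?_⟩
    · simpa using hw
    · simp only [Matrix.cons_val_zero, Matrix.cons_val_one, Units.val_div_eq_div_val]
      rw [div_mul_eq_mul_div, eq_div_iff nzp, hzu, hzp, hw]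
      ring
    · simp only [Matrix.cons_val_zero, Matrix.cons_val, Units.val_div_eq_div_val,
        Units.val_mul]
      rw [div_mul_cancel₀ _ nw, hzu, hzp, hw, hf4]
      ring
    · intro t
      fin_cases t
      · simp [typ, ev, ow]
      · simp [typ, ev, oz, op]
      · simp [typ, ev, oz, op, ow, o4]
    · intro t
      fin_cases t
      · simp [cw]
      · simp [cz', cp]
      · simp [cz', cp, cw, c4, hq4]

end PntZAux

open PntZAux in
theorem exists_pointZ {m : ℕ} {u : ℤ} (hu : u ≠ 0) (b : Fin (m + 1) → Bool) (i₀ j₀ : Fin (m + 1))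
    (hi : b i₀ = false) (hj : b j₀ = true) (Λ : Lead (KZ (m + 1)) (m + 1)) (hΛ : GoodLead Λ) :
    ∃ (y : Fin (m + 1) → (LaurentSeries (KZ (m + 1)))ˣ)
      (U : Fin (m + 1) → Fin 3 → PowerSeries (KZ (m + 1)))
      (c : Fin (m + 1) → Fin 3 → (KZ (m + 1))ˣ),
      (On u fun i => (y i : LaurentSeries (KZ (m + 1)))) ∧
      (∀ a, a ≠ j₀ → (y a : LaurentSeries (KZ (m + 1))) =
        if a = i₀ then HahnSeries.single (1 : ℤ) 1 else
          HahnSeries.C (if b a = true then 1 + 2 * zz a else zz a)) ∧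
      (∀ v t, PowerSeries.constantCoeff (U v t) = c v t) ∧
      (∀ v, (y v : LaurentSeries (KZ (m + 1))) =
        HahnSeries.single (ordz b j₀ v 0 i₀) 1 * (U v 0 : LaurentSeries (KZ (m + 1)))) ∧
      (∀ v, (y v : LaurentSeries (KZ (m + 1))) - 1 =
        HahnSeries.single (ordz b j₀ v 1 i₀) 1 * (U v 1 : LaurentSeries (KZ (m + 1))) *
          ((y v : LaurentSeries (KZ (m + 1))) + 1)) ∧
      (∀ v, (y v : LaurentSeries (KZ (m + 1))) ^ 2 - 1 =
        HahnSeries.single (ordz b j₀ v 2 i₀) 1 * (U v 2 : LaurentSeries (KZ (m + 1))) *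
          (y v : LaurentSeries (KZ (m + 1)))) ∧
      (∀ v t k, k ≠ i₀ → k ≠ j₀ → Λ.o (Additive.ofMul (c v t)) k = ordz b j₀ v t k) ∧
      ∀ v t, ((Λ.c (c v t) : ℚˣ) : ℚ) ^ 2 = cz u b j₀ v t ^ 2 := by
  classical
  have : CharZero (KZ (m + 1)) := algebraRat.charZero _
  have hij : i₀ ≠ j₀ := by
    intro h
    rw [h, hj] at hi
    exact absurd hi (by decide)
  choose V hV0 hV1 hV2 hVo hVc using fun v => exists_V hΛ v (b v)
  obtain ⟨S, hS⟩ : ∃ S : Finset (Fin (m + 1)), S = (Finset.univ.erase i₀).erase j₀ := ⟨_, rfl⟩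
  have hmS : ∀ k, k ∈ S ↔ k ≠ i₀ ∧ k ≠ j₀ := by
    intro k
    rw [hS]
    simp [and_comm]
  obtain ⟨uq, huq⟩ : ∃ q : ℚˣ, (q : ℚ) = -(u : ℚ) :=
    ⟨Units.mk0 _ (neg_ne_zero.2 (Int.cast_ne_zero.2 hu)), rfl⟩
  obtain ⟨fu, hfu⟩ : ∃ f : (KZ (m + 1))ˣ, (f : KZ (m + 1)) = algebraMap ℚ (KZ (m + 1)) (uq : ℚ) :=
    ⟨Units.map (algebraMap ℚ (KZ (m + 1)) : ℚ →* KZ (m + 1)) uq, rfl⟩
  obtain ⟨q4, hq4⟩ : ∃ q : ℚˣ, (q : ℚ) = 4 := ⟨Units.mk0 4 (by norm_num), rfl⟩
  obtain ⟨f4, hf4⟩ : ∃ f : (KZ (m + 1))ˣ, (f : KZ (m + 1)) = algebraMap ℚ (KZ (m + 1)) (q4 : ℚ) :=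
    ⟨Units.map (algebraMap ℚ (KZ (m + 1)) : ℚ →* KZ (m + 1)) q4, rfl⟩
  obtain ⟨ou, cu⟩ := lead_rat hΛ uq fu hfu
  obtain ⟨o4, c4⟩ := lead_rat hΛ q4 f4 hf4
  obtain ⟨on1, cn1⟩ := lead_rat hΛ (-1) (-1 : (KZ (m + 1))ˣ) (by
    rw [Units.val_neg, Units.val_one, Units.val_neg, Units.val_one, map_neg, map_one])
  rw [huq, map_neg, map_intCast] at hfu
  rw [hq4, map_ofNat] at hf4
  obtain ⟨Γ, hΓ⟩ : ∃ g : (KZ (m + 1))ˣ, g = ∏ k ∈ S, V k 2 := ⟨_, rfl⟩
  obtain ⟨h, hh⟩ : ∃ h : (KZ (m + 1))ˣ, h = fu / Γ := ⟨_, rfl⟩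
  have hhΓ : (h : KZ (m + 1)) * Γ = -(u : KZ (m + 1)) := by
    rw [← hfu, ← Units.val_mul, hh, div_mul_cancel]
  have oΓ : ∀ k, k ≠ i₀ → k ≠ j₀ → Λ.o (Additive.ofMul Γ) k = ev (typ (b k)) 2 := by
    intro k hk1 hk2
    rw [hΓ, ofMul_prod, map_sum, Finset.sum_apply, Finset.sum_eq_single k]
    · rw [hVo, Pi.single_eq_same]
    · intro l _ hl
      rw [hVo, Pi.single_eq_of_ne hl.symm]
    · intro hk
      exact absurd ((hmS k).2 ⟨hk1, hk2⟩) hk
  have oh : ∀ k, k ≠ i₀ → k ≠ j₀ → Λ.o (Additive.ofMul h) k = -ev (typ (b k)) 2 := by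
    intro k hk1 hk2
    rw [hh, ofMul_div, map_sub, ou, Pi.sub_apply, oΓ k hk1 hk2, Pi.zero_apply, zero_sub]
  obtain ⟨N, hN⟩ : ∃ N : ℕ, N = (S.filter fun k => b k = true).card := ⟨_, rfl⟩
  have hN1 : (Finset.univ.filter fun i => b i = true).card = N + 1 := by
    have e1 : (Finset.univ.filter fun i => b i = true) =
        insert j₀ (S.filter fun k => b k = true) := by
      ext k
      simp only [Finset.mem_filter, Finset.mem_univ, true_and, Finset.mem_insert, hmS]
      constructor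
      · intro hk
        by_cases hkj : k = j₀
        · exact Or.inl hkj
        · refine Or.inr ⟨⟨?_, hkj⟩, hk⟩
          intro hki
          rw [hki, hi] at hk
          exact absurd hk (by decide)
      · rintro (hk | hk)
        · rw [hk, hj]
        · exact hk.2
    rw [e1, Finset.card_insert_of_notMem, hN]
    simp [hmS]
  have cΓ : ((Λ.c Γ : ℚˣ) : ℚ) ^ 2 = (4 ^ N) ^ 2 := by
    rw [hΓ, map_prod, Units.coe_prod, ← Finset.prod_pow, Finset.prod_congr rfl fun k _ => hVc k 2,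
      Finset.prod_pow]
    congr 1
    simp only [and_true]
    rw [Finset.prod_ite, Finset.prod_const_one, mul_one, Finset.prod_const, hN]
  have ch : ((Λ.c h : ℚˣ) : ℚ) ^ 2 = ((u : ℚ) / 4 ^ N) ^ 2 := by
    rw [hh, map_div, Units.val_div_eq_div_val, div_pow, cΓ, cu, huq, neg_sq, div_pow]
  obtain ⟨Y, σ, hY0, hσ0, hY, hσ⟩ := exists_Y (h : KZ (m + 1))
  have key : ∀ v, ∃ (y : (LaurentSeries (KZ (m + 1)))ˣ)
      (U : Fin 3 → PowerSeries (KZ (m + 1))) (c : Fin 3 → (KZ (m + 1))ˣ),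
      (v ≠ j₀ → (y : LaurentSeries (KZ (m + 1))) =
        if v = i₀ then HahnSeries.single (1 : ℤ) 1 else
          HahnSeries.C (if b v = true then 1 + 2 * zz v else zz v)) ∧
      (∀ t, PowerSeries.constantCoeff (U t) = c t) ∧
      ((y : LaurentSeries (KZ (m + 1))) =
        HahnSeries.single (ordz b j₀ v 0 i₀) 1 * (U 0 : LaurentSeries (KZ (m + 1)))) ∧
      ((y : LaurentSeries (KZ (m + 1))) - 1 =
        HahnSeries.single (ordz b j₀ v 1 i₀) 1 * (U 1 : LaurentSeries (KZ (m + 1))) *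
          ((y : LaurentSeries (KZ (m + 1))) + 1)) ∧
      ((y : LaurentSeries (KZ (m + 1))) ^ 2 - 1 =
        HahnSeries.single (ordz b j₀ v 2 i₀) 1 * (U 2 : LaurentSeries (KZ (m + 1))) *
          (y : LaurentSeries (KZ (m + 1)))) ∧
      (∀ t k, k ≠ i₀ → k ≠ j₀ → Λ.o (Additive.ofMul (c t)) k = ordz b j₀ v t k) ∧
      (∀ t, ((Λ.c (c t) : ℚˣ) : ℚ) ^ 2 = cz u b j₀ v t ^ 2) ∧
      HahnSeries.single (ordz b j₀ v 2 i₀) 1 * (U 2 : LaurentSeries (KZ (m + 1))) =
        (if v = i₀ then HahnSeries.single (-1 : ℤ) 1 *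
            ((PowerSeries.X ^ 2 - 1 : PowerSeries (KZ (m + 1))) : LaurentSeries (KZ (m + 1)))
          else if v = j₀ then HahnSeries.single (1 : ℤ) 1 * (σ : LaurentSeries (KZ (m + 1)))
          else HahnSeries.C (V v 2 : KZ (m + 1))) := by
    intro v
    have e3 : (HahnSeries.single (-1 : ℤ) (1 : KZ (m + 1)) : LaurentSeries (KZ (m + 1))) *
        HahnSeries.single (1 : ℤ) 1 = 1 := by
      rw [HahnSeries.single_mul_single, neg_add_cancel, mul_one]
      rfl
    by_cases hvi : v = i₀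
    · subst hvi
      have n1 : (PowerSeries.X + 1 : PowerSeries (KZ (m + 1))) * (PowerSeries.X + 1)⁻¹ = 1 :=
        PowerSeries.mul_inv_cancel _ (by
          rw [map_add, PowerSeries.constantCoeff_X, map_one, zero_add]
          exact one_ne_zero)
      have hs0 : (HahnSeries.single (1 : ℤ) (1 : KZ (m + 1)) : LaurentSeries (KZ (m + 1))) ≠ 0 := by
        intro h0
        rw [h0, mul_zero] at e3
        exact zero_ne_one e3
      have o0 : ordz b j₀ v 0 v = 1 := by
        unfold ordz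
        rw [if_neg hij, if_pos rfl, hi]
        rfl
      have o1 : ordz b j₀ v 1 v = 0 := by
        unfold ordz
        rw [if_neg hij, if_pos rfl, hi]
        rfl
      have o2 : ordz b j₀ v 2 v = -1 := by
        unfold ordz
        rw [if_neg hij, if_pos rfl, hi]
        rfl
      refine ⟨Units.mk0 _ hs0, ![1, (PowerSeries.X - 1) * (PowerSeries.X + 1)⁻¹,
        PowerSeries.X ^ 2 - 1], ![1, -1, -1], ?_, ?_, ?_, ?_, ?_, ?_, ?_, ?_⟩
      · intro _
        rw [if_pos rfl, Units.val_mk0]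
      · intro t
        fin_cases t
        · simp
        · simp
        · simp
      · rw [o0, Matrix.cons_val_zero, PowerSeries.coe_one, mul_one, Units.val_mk0]
      · rw [o1, Units.val_mk0, Matrix.cons_val_one, Matrix.cons_val_zero]
        have e1 : (PowerSeries.X - 1 : PowerSeries (KZ (m + 1))) =
            (PowerSeries.X - 1) * (PowerSeries.X + 1)⁻¹ * (PowerSeries.X + 1) := by
          linear_combination -(PowerSeries.X - 1 : PowerSeries (KZ (m + 1))) * n1
        have e2 := congrArg (fun f : PowerSeries (KZ (m + 1)) => (f : LaurentSeries (KZ (m + 1)))) e1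
        simp only [PowerSeries.coe_mul, PowerSeries.coe_sub, PowerSeries.coe_add,
          PowerSeries.coe_X, PowerSeries.coe_one] at e2
        rw [show (HahnSeries.single (0 : ℤ) (1 : KZ (m + 1)) : LaurentSeries (KZ (m + 1))) = 1 from
          rfl, one_mul, PowerSeries.coe_mul, PowerSeries.coe_sub, PowerSeries.coe_X,
          PowerSeries.coe_one]
        exact e2
      · rw [o2, Units.val_mk0]
        simp only [Matrix.cons_val, PowerSeries.coe_sub, PowerSeries.coe_pow, PowerSeries.coe_X,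
          PowerSeries.coe_one]
        linear_combination -((HahnSeries.single (1 : ℤ) (1 : KZ (m + 1)) : LaurentSeries
          (KZ (m + 1))) ^ 2 - 1) * e3
      · intro t k hk _
        have e1 : ordz b j₀ v t k = 0 := by
          unfold ordz
          rw [if_neg hij, if_neg hk]
        rw [e1]
        fin_cases t
        · simp
        · simp [on1]
        · simp [on1]
      · intro t
        have e1 : cz u b j₀ v t = 1 := by
          unfold cz
          rw [if_neg hij, if_neg]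
          rw [hi]
          simp
        rw [e1]
        fin_cases t
        · simp
        · simp [cn1]
        · simp [cn1]
      · rw [if_pos rfl, o2]
        simp only [Matrix.cons_val]
    · by_cases hvj : v = j₀
      · subst hvj
        have hYc : PowerSeries.constantCoeff ((Y + 1) ^ 2) = 4 := by
          rw [map_pow, map_add, hY0, map_one]
          norm_num
        have h4 : (4 : KZ (m + 1)) ≠ 0 := hf4 ▸ f4.ne_zero
        have n1 : ((Y + 1) ^ 2) * ((Y + 1) ^ 2)⁻¹ = 1 :=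
          PowerSeries.mul_inv_cancel _ (by
            rw [hYc]
            exact h4)
        have hYn : (Y : LaurentSeries (KZ (m + 1))) ≠ 0 := by
          intro h0
          have e1 : Y = 0 := by
            apply HahnSeries.ofPowerSeries_injective (Γ := ℤ)
            rw [map_zero]
            exact h0
          rw [e1, map_zero] at hY0
          exact zero_ne_one hY0
        have oo : ∀ t, ordz b v v t i₀ = ev 2 t := by
          intro t
          unfold ordz
          rw [if_pos rfl, if_neg hij, hi]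
          have e1 : ev (typ false) 2 = -1 := rfl
          rw [e1, neg_neg, mul_one]
        have o0 : ordz b v v 0 i₀ = 0 := oo 0
        have o1 : ordz b v v 1 i₀ = 1 := oo 1
        have o2 : ordz b v v 2 i₀ = 1 := oo 2
        refine ⟨Units.mk0 _ hYn, ![Y, σ * Y * ((Y + 1) ^ 2)⁻¹, σ], ![1, h / f4, h],
          ?_, ?_, ?_, ?_, ?_, ?_, ?_, ?_⟩
        · intro h0
          exact absurd rfl h0
        · intro t
          fin_cases t
          · simpa using hY0
          · simp only [Fin.mk_one, Matrix.cons_val_one, Matrix.cons_val_zero]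
            rw [map_mul, map_mul, hσ0, hY0, PowerSeries.constantCoeff_inv, hYc,
              Units.val_div_eq_div_val, hf4, mul_one, div_eq_mul_inv]
          · simpa using hσ0
        · rw [o0, Matrix.cons_val_zero, Units.val_mk0]
          rw [show (HahnSeries.single (0 : ℤ) (1 : KZ (m + 1)) : LaurentSeries (KZ (m + 1))) = 1 from
            rfl, one_mul]
        · rw [o1, Units.val_mk0, Matrix.cons_val_one, Matrix.cons_val_zero]
          have e1 : Y - 1 = PowerSeries.X * (σ * Y * ((Y + 1) ^ 2)⁻¹) * (Y + 1) := by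
            linear_combination -(Y - 1) * n1 + (Y + 1) * ((Y + 1) ^ 2)⁻¹ * hY
          have e2 := congrArg (fun f : PowerSeries (KZ (m + 1)) =>
            (f : LaurentSeries (KZ (m + 1)))) e1
          simp only [PowerSeries.coe_mul, PowerSeries.coe_sub, PowerSeries.coe_add,
            PowerSeries.coe_X, PowerSeries.coe_one] at e2
          simp only [PowerSeries.coe_mul]
          exact e2
        · rw [o2, Units.val_mk0]
          have e2 := congrArg (fun f : PowerSeries (KZ (m + 1)) =>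
            (f : LaurentSeries (KZ (m + 1)))) hY
          simp only [PowerSeries.coe_mul, PowerSeries.coe_sub, PowerSeries.coe_pow,
            PowerSeries.coe_X, PowerSeries.coe_one] at e2
          simp only [Matrix.cons_val]
          exact e2
        · intro t k hk1 hk2
          have e1 : ordz b v v t k = ev 2 t * -ev (typ (b k)) 2 := by
            unfold ordz
            rw [if_pos rfl, if_neg hk2]
          rw [e1]
          fin_cases t
          · simp [ev]
          · simp [ev, o4, oh k hk1 hk2]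
          · simp [ev, oh k hk1 hk2]
        · intro t
          have e1 : cz u b v v t = ![1, (u : ℚ) / 4 ^ (N + 1), 4 * ((u : ℚ) / 4 ^ (N + 1))] t := by
            unfold cz
            rw [if_pos rfl, hN1]
          rw [e1]
          fin_cases t
          · simp
          · simp only [Fin.mk_one, Matrix.cons_val_one, Matrix.cons_val_zero]
            rw [map_div, Units.val_div_eq_div_val, div_pow, ch, c4, hq4, ← div_pow, div_div,
              pow_succ (4 : ℚ) N]
          · simp only [Fin.reduceFinMk, Matrix.cons_val]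
            rw [ch, pow_succ (4 : ℚ) N]
            congr 1
            field_simp
        · rw [if_neg hvi, if_pos rfl, o2]
          simp only [Matrix.cons_val]
      · have oo : ∀ t, ordz b j₀ v t i₀ = 0 := by
          intro t
          unfold ordz
          rw [if_neg hvj, if_neg fun h0 => hvi h0.symm]
        have hCn : (HahnSeries.C (V v 0 : KZ (m + 1)) : LaurentSeries (KZ (m + 1))) ≠ 0 := by
          rw [Ne, map_eq_zero]
          exact (V v 0).ne_zero
        refine ⟨Units.mk0 _ hCn, fun t => PowerSeries.C (V v t : KZ (m + 1)), V v,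
          ?_, ?_, ?_, ?_, ?_, ?_, ?_, ?_⟩
        · intro _
          rw [if_neg hvi, Units.val_mk0, hV0]
        · intro t
          rw [PowerSeries.constantCoeff_C]
        · rw [oo, Units.val_mk0, PowerSeries.coe_C]
          rw [show (HahnSeries.single (0 : ℤ) (1 : KZ (m + 1)) : LaurentSeries (KZ (m + 1))) = 1 from
            rfl, one_mul]
        · rw [oo, Units.val_mk0, PowerSeries.coe_C]
          rw [show (HahnSeries.single (0 : ℤ) (1 : KZ (m + 1)) : LaurentSeries (KZ (m + 1))) = 1 from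
            rfl, one_mul]
          have e2 := congrArg (fun f : KZ (m + 1) =>
            (HahnSeries.C f : LaurentSeries (KZ (m + 1)))) (hV1 v)
          simp only [map_sub, map_mul, map_add, map_one] at e2
          exact e2
        · rw [oo, Units.val_mk0, PowerSeries.coe_C]
          rw [show (HahnSeries.single (0 : ℤ) (1 : KZ (m + 1)) : LaurentSeries (KZ (m + 1))) = 1 from
            rfl, one_mul]
          have e2 := congrArg (fun f : KZ (m + 1) =>
            (HahnSeries.C f : LaurentSeries (KZ (m + 1)))) (hV2 v)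
          simp only [map_sub, map_mul, map_pow, map_one] at e2
          exact e2
        · intro t k _ _
          rw [hVo]
          unfold ordz
          rw [if_neg hvj, Pi.single_apply]
        · intro t
          rw [hVc]
          unfold cz
          rw [if_neg hvj]
        · rw [if_neg hvi, if_neg hvj, oo, PowerSeries.coe_C]
          rw [show (HahnSeries.single (0 : ℤ) (1 : KZ (m + 1)) : LaurentSeries (KZ (m + 1))) = 1 from
            rfl, one_mul]
  choose y U c h1 h2 h3 h4 h5 h6 h7 h8 using key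
  refine ⟨y, U, c, ?_, h1, h2, h3, h4, h5, h6, h7⟩
  unfold On
  rw [Finset.prod_congr rfl fun i _ => h5 i, Finset.prod_mul_distrib]
  congr 1
  rw [Finset.prod_congr rfl fun i _ => h8 i, ← Finset.mul_prod_erase _ _ (Finset.mem_univ i₀),
    ← Finset.mul_prod_erase _ _ (Finset.mem_erase.2 ⟨hij.symm, Finset.mem_univ j₀⟩), ← hS,
    if_pos rfl, if_neg hij.symm, if_pos rfl]
  have e2 : ∏ k ∈ S, (if k = i₀ then HahnSeries.single (-1 : ℤ) 1 *
            ((PowerSeries.X ^ 2 - 1 : PowerSeries (KZ (m + 1))) : LaurentSeries (KZ (m + 1)))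
          else if k = j₀ then HahnSeries.single (1 : ℤ) 1 * (σ : LaurentSeries (KZ (m + 1)))
          else HahnSeries.C (V k 2 : KZ (m + 1))) = HahnSeries.C (Γ : KZ (m + 1)) := by
    rw [hΓ, Units.coe_prod, map_prod]
    refine Finset.prod_congr rfl fun k hk => ?_
    rw [if_neg ((hmS k).1 hk).1, if_neg ((hmS k).1 hk).2]
  rw [e2]
  have e3 : (HahnSeries.single (-1 : ℤ) (1 : KZ (m + 1)) : LaurentSeries (KZ (m + 1))) *
      HahnSeries.single (1 : ℤ) 1 = 1 := by
    rw [HahnSeries.single_mul_single, neg_add_cancel, mul_one]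
    rfl
  have e4 : ((PowerSeries.X ^ 2 - 1 : PowerSeries (KZ (m + 1))) : LaurentSeries (KZ (m + 1))) *
      (σ : LaurentSeries (KZ (m + 1))) = -HahnSeries.C (h : KZ (m + 1)) := by
    rw [← PowerSeries.coe_mul, ← PowerSeries.coe_C, ← hσ, ← PowerSeries.coe_neg]
    congr 1
    ring
  have e5 : (HahnSeries.C (h : KZ (m + 1)) : LaurentSeries (KZ (m + 1))) * HahnSeries.C (Γ : KZ (m + 1)) =
      -(u : LaurentSeries (KZ (m + 1))) := by
    rw [← map_mul, hhΓ, map_neg, map_intCast]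
  linear_combination (HahnSeries.C (Γ : KZ (m + 1)) *
    ((PowerSeries.X ^ 2 - 1 : PowerSeries (KZ (m + 1))) : LaurentSeries (KZ (m + 1))) *
      (σ : LaurentSeries (KZ (m + 1)))) * e3 + HahnSeries.C (Γ : KZ (m + 1)) * e4 - e5

end P4a177z
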