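import Pool.Agent.Lib.P4a177z.DefZ
import Pool.Agent.Lib.P4a177y.GnrY

/-!
# MODULE P4a177z.SteinZ: the relations of the letters (Steinberg relations modulo torsion)

PROOF. `x = x m u i`, `w = w m hu i`, `g = gam m hu i`, all written additively; `2 • ofMul (-1) = 0` so the values of `S.f` do not change if an entry is replaced by `entry + ofMul (-1)`
(`P4a177y.neg_entry`; the target is torsion free). `cc` is `P4a177x.const_const`. `sum`: `∏ i, gam m hu i = u` (`on_iff` for `x_on`, `gam = x - x⁻¹` by `gam_spec`), so the sum is `ofMul (cs (Units.mk0 u))`.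
Let `p = x - 1`, `q = x + 1` as units (`isUnit_sub_one`, `isUnit_add_one`): `ofMul w = ofMul p - ofMul q`, `ofMul g = ofMul p + ofMul q - ofMul x` (`gam_spec`, `mob_spec`).
Convenient first lemma: for `a ≠ b` and a tuple `v` the map `(s, t) ↦ S.f (update (update v a (ofMul s)) b (ofMul t))` is bimultiplicative, alternating (`0` for `s = t`), insensitive to signs, and `0` if
`s + t = 1` (`S.st`); write `{s, t}` for it. `r01`: `{x, 1 - x} = 0` and `{-x, 1 + x} = 0`, so `{x, p} = {x, q} = 0` (signs), hence `{x, w} = 0`. `r02`: `{x, g} = {x, p} + {x, q} - {x, x} = 0`.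
`r12`: `1 - w = 2 / q`, `1 + w = 2 x / q` (as units), so `{w, 2 / q} = 0`, `{-w, 2 x / q} = 0`, `{w, 2 x / q} = 0`; and `g = 4 w / ((2 / q) (2 x / q))` (from `w q = p`: `4 w q ^ 2 / (4 x) = p q / x`), so
`{w, g} = {w, 4} + {w, w} - 0 - 0 = {w, 4}`, which is `S.f (update v b (e4 m u))` when `v a = ofMul w`, `v b = ofMul g`. `he`: by definition.
-/

set_option autoImplicit false

namespace P4a177z

open P4a177h P4a177t P4a177x Function MvPolynomial

namespace SteinZAux

/-! ### The relations in a ring with a symbol -/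

section Symbol

variable {R : Type*} [CommRing R] {G : Type*} [AddCommGroup G] (T : P4a177u.Sy R G)
  {x p q : Rˣ} (hp : (p : R) = (x : R) - 1) (hq : (q : R) = (x : R) + 1)

include hp in
theorem x_p : T.B x p = 0 := by
  rw [← T.neg_right]
  apply T.st
  rw [Units.val_neg, hp]
  ring

include hq in
theorem x_q : T.B x q = 0 := by
  rw [← T.neg_left]
  apply T.st
  rw [Units.val_neg, hq]
  ring

include hp hq

theorem x_w : T.B x (p / q) = 0 := by
  rw [T.div_right, x_p T hp, x_q T hq, sub_zero]

theorem x_g : T.B x (p * q / x) = 0 := by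
  rw [T.div_right, T.mul_right, x_p T hp, x_q T hq, T.self, add_zero, sub_zero]

theorem w_g {c2 c4 : Rˣ} (h2 : (c2 : R) = 2) (h4 : c2 * c2 = c4) :
    T.B (p / q) (p * q / x) = T.B (p / q) c4 := by
  have hw : ((p / q : Rˣ) : R) * q = p := by
    rw [← Units.val_mul, div_mul_cancel]
  have hA : ((c2 / q : Rˣ) : R) * q = 2 := by
    rw [← Units.val_mul, div_mul_cancel, h2]
  have hB : ((c2 * x / q : Rˣ) : R) * q = 2 * x := by
    rw [← Units.val_mul, div_mul_cancel, Units.val_mul, h2]
  have e1 : T.B (p / q) (c2 / q) = 0 := by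
    apply T.st
    rw [← q.mul_left_inj]
    linear_combination hw + hA + hp - hq
  have e2 : T.B (p / q) (c2 * x / q) = 0 := by
    rw [← T.neg_left]
    apply T.st
    rw [Units.val_neg, ← q.mul_left_inj]
    linear_combination -hw + hB - hp - hq
  have e3 : p * q / x = c4 * (p / q) / ((c2 / q) * (c2 * x / q)) := by
    rw [← h4, div_eq_iff_eq_mul, div_mul_eq_mul_div, eq_div_iff_mul_eq']
    apply Units.ext
    simp only [Units.val_mul]
    rw [← q.mul_left_inj]
    linear_combination (p : R) * ((c2 * x / q : Rˣ) : R) * (q : R) * hA + 2 * (p : R) * hB -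
      (c2 : R) ^ 2 * (x : R) * hw - ((c2 : R) + 2) * (p : R) * (x : R) * h2
  rw [e3, T.div_right, T.mul_right, T.mul_right, T.self, e1, e2, add_zero, add_zero, sub_zero]

end Symbol

/-! ### The symbol of two entries -/

section Two

variable {R : Type*} [CommRing R] {n : ℕ} {G : Type*} [AddCommGroup G]
  (S : Alt R n G) (v : Fin n → Additive Rˣ) (i j : Fin n)

/-- The bilinear symbol. -/
def BB (c d : Rˣ) : G := S.f (update (update v i (Additive.ofMul c)) j (Additive.ofMul d))

theorem BB_right (c a b : Rˣ) : BB S v i j c (a * b) = BB S v i j c a + BB S v i j c b := by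
  unfold BB
  rw [ofMul_mul, AlternatingMap.map_update_add]

theorem BB_left (hij : i ≠ j) (a b c : Rˣ) :
    BB S v i j (a * b) c = BB S v i j a c + BB S v i j b c := by
  unfold BB
  rw [update_comm hij, update_comm hij, update_comm hij, ofMul_mul,
    AlternatingMap.map_update_add]

theorem BB_one_right (c : Rˣ) : BB S v i j c 1 = 0 := by
  have h := BB_right S v i j c 1 1
  rw [mul_one] at h
  simpa using h.symm

theorem BB_self (hij : i ≠ j) (c : Rˣ) : BB S v i j c c = 0 := by
  unfold BB
  refine AlternatingMap.map_eq_zero_of_eq _ _ (i := i) (j := j) ?_ hij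
  rw [update_of_ne hij, update_self, update_self]

theorem BB_neg_one (c : Rˣ) : BB S v i j c (-1) = 0 := by
  apply S.tf 2 _ (by norm_num)
  rw [two_nsmul, ← BB_right, neg_one_mul, neg_neg, BB_one_right]

theorem BB_neg (hij : i ≠ j) (c : Rˣ) : BB S v i j c (-c) = 0 := by
  rw [← neg_one_mul, BB_right, BB_neg_one, BB_self S v i j hij, zero_add]

theorem BB_st (hij : i ≠ j) (c d : Rˣ) (h : (c : R) + (d : R) = 1) : BB S v i j c d = 0 := by
  unfold BB
  have h1 := S.st (fun k => (update (update v i (Additive.ofMul c)) j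
    (Additive.ofMul d) k).toMul) i j hij (by
      rw [update_self, update_of_ne hij, update_self, toMul_ofMul, toMul_ofMul]
      exact h)
  exact h1

/-- The symbol. -/
def TT (hij : i ≠ j) : P4a177u.Sy R G where
  B := BB S v i j
  mul_left := BB_left S v i j hij
  mul_right := BB_right S v i j
  neg := BB_neg S v i j hij
  st := BB_st S v i j hij
  tf := S.tf

theorem TT_eq (hij : i ≠ j) {c d : Rˣ} (hc : v i = Additive.ofMul c) (hd : v j = Additive.ofMul d) :
    (TT S v i j hij).B c d = S.f v := by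
  show BB S v i j c d = S.f v
  unfold BB
  rw [← hc, ← hd, update_eq_self, update_eq_self]

theorem TT_eq' (hij : i ≠ j) {c : Rˣ} (d : Rˣ) (hc : v i = Additive.ofMul c) :
    (TT S v i j hij).B c d = S.f (update v j (Additive.ofMul d)) := by
  show BB S v i j c d = _
  unfold BB
  rw [← hc, update_eq_self]

end Two

/-! ### The letters -/

variable (m : ℕ) {u : ℤ} (hu : u ≠ 0) (i : Fin (m + 1))

/-- The unit `x_i - 1`. -/
noncomputable def pp : (CoordRing m u)ˣ := (isUnit_sub_one hu (x m u) (x_on m u) i).unit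

/-- The unit `x_i + 1`. -/
noncomputable def qq : (CoordRing m u)ˣ := (isUnit_add_one hu (x m u) (x_on m u) i).unit

theorem pp_val : (pp m hu i : CoordRing m u) = (x m u i : CoordRing m u) - 1 := IsUnit.unit_spec _

theorem qq_val : (qq m hu i : CoordRing m u) = (x m u i : CoordRing m u) + 1 := IsUnit.unit_spec _

theorem w_eq : w m hu i = pp m hu i / qq m hu i := rfl

theorem gam_eq : gam m hu i = pp m hu i * qq m hu i / x m u i := by
  rw [eq_div_iff_mul_eq']
  apply Units.ext
  rw [Units.val_mul, gam_spec, Units.val_mul, pp_val, qq_val]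
  ring

theorem gam_val : (gam m hu i : CoordRing m u) =
    (x m u i : CoordRing m u) - ((x m u i)⁻¹ : (CoordRing m u)ˣ) := by
  rw [← (x m u i).mul_left_inj, gam_spec, sub_mul, Units.inv_mul, sq]

theorem prod_gam : P4a177w.cs (CoordRing m u) (Units.mk0 (u : ℚ) (Int.cast_ne_zero.2 hu)) =
    ∏ i, gam m hu i := by
  apply Units.ext
  rw [Units.coe_prod, Finset.prod_congr rfl fun i _ => gam_val m hu i,
    (on_iff (x m u)).1 (x_on m u)]
  show algebraMap ℚ (CoordRing m u) (u : ℚ) = (u : CoordRing m u)
  rw [map_intCast]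

theorem two_two : P4a177w.cs (CoordRing m u) (Units.mk0 (2 : ℚ) (by norm_num)) *
    P4a177w.cs (CoordRing m u) (Units.mk0 (2 : ℚ) (by norm_num)) =
      P4a177w.cs (CoordRing m u) (Units.mk0 (4 : ℚ) (by norm_num)) := by
  rw [← map_mul]
  congr 1
  apply Units.ext
  rw [Units.val_mul, Units.val_mk0, Units.val_mk0]
  norm_num

theorem two_val : (P4a177w.cs (CoordRing m u) (Units.mk0 (2 : ℚ) (by norm_num)) :
    CoordRing m u) = 2 := by
  show algebraMap ℚ (CoordRing m u) (2 : ℚ) = 2
  rw [map_ofNat]

end SteinZAux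

open SteinZAux in
theorem relZ (m : ℕ) {u : ℤ} (hu : u ≠ 0) {G : Type*} [AddCommGroup G]
    (S : Alt (CoordRing m u) (m + 1) G) :
    RelZ S.f (CC (CoordRing m u)) (lA m hu) (e4 m u) where
  he := ⟨Additive.ofMul (Units.mk0 (4 : ℚ) (by norm_num)), rfl⟩
  cc v i j hij hi hj := const_const S v i j hij hi hj
  sum := by
    refine ⟨Additive.ofMul (Units.mk0 (u : ℚ) (Int.cast_ne_zero.2 hu)), ?_⟩
    show Additive.ofMul (P4a177w.cs (CoordRing m u) (Units.mk0 (u : ℚ) (Int.cast_ne_zero.2 hu))) = _
    rw [prod_gam m hu, ofMul_prod]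
    rfl
  r01 v a b i hab ha hb := by
    have h := x_w (TT S v a b hab) (pp_val m hu i) (qq_val m hu i)
    rw [← w_eq] at h
    rw [← h]
    exact (TT_eq S v a b hab ha hb).symm
  r02 v a b i hab ha hb := by
    have h := x_g (TT S v a b hab) (pp_val m hu i) (qq_val m hu i)
    rw [← gam_eq] at h
    rw [← h]
    exact (TT_eq S v a b hab ha hb).symm
  r12 v a b i hab ha hb := by
    have h := w_g (TT S v a b hab) (pp_val m hu i) (qq_val m hu i) (two_val m) (two_two m)
    rw [← w_eq, ← gam_eq] at h
    rw [TT_eq S v a b hab (c := w m hu i) (d := gam m hu i) ha hb,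
      TT_eq' S v a b hab (c := w m hu i) _ ha] at h
    exact h

end P4a177z
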